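import Pool.Agent.TH669.KP.Paths

set_option autoImplicit false

/-!
# Graphs without a path on `s` vertices are sparse; paths and `pathGraph`
-/

namespace Pool.Agent.TH669.KP

open Finset

theorem low_degree {V : Type} [DecidableEq V] (G : SimpleGraph V) [DecidableRel G.Adj] (s : ℕ)
    (hs : ¬ HasPath G s) (U : Finset V) (hU : U.Nonempty) :
    ∃ x ∈ U, (U.filter fun y => G.Adj x y).card ≤ s := by
  classical
  set p : ℕ → Prop := fun m => ∃ l : List V, l.Nodup ∧ l.IsChain G.Adj ∧ (∀ x ∈ l, x ∈ U) ∧
    l.length = m with hp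
  have hps : ∀ m, p m → m < s := by
    rintro m ⟨l, h1, h2, -, h3⟩
    by_contra hge
    exact hs (hasPath_of_le l h1 (by omega) h2)
  obtain ⟨x0, hx0⟩ := hU
  have hp1 : p 1 := ⟨[x0], by simp, by simp, by simpa using hx0, rfl⟩
  have h1 := Nat.findGreatest_spec (P := p) (hps 1 hp1).le hp1
  have h2 : 1 ≤ Nat.findGreatest p s := Nat.le_findGreatest (hps 1 hp1).le hp1
  obtain ⟨l, hl1, hl2, hl3, hl4⟩ := h1
  rcases l with _ | ⟨x, l⟩
  · simp only [List.length_nil] at hl4
    omega
  refine ⟨x, hl3 x (by simp), ?_⟩
  have hsub : (U.filter fun y => G.Adj x y) ⊆ l.toFinset := by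
    intro y hy
    rw [Finset.mem_filter] at hy
    rw [List.mem_toFinset]
    by_contra hyl
    have hyx : y ≠ x := fun h => hy.2.ne h.symm
    have h3 : p (Nat.findGreatest p s + 1) := by
      refine ⟨y :: x :: l, ?_, ?_, ?_, by simp [← hl4]⟩
      · rw [List.nodup_cons]
        exact ⟨by simp [hyx, hyl], hl1⟩
      · rw [List.isChain_cons_cons]
        exact ⟨hy.2.symm, hl2⟩
      · intro z hz
        rw [List.mem_cons] at hz
        rcases hz with rfl | hz
        · exact hy.1
        · exact hl3 z hz
    have h4 := Nat.le_findGreatest (hps _ h3).le h3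
    omega
  have h3 := (Finset.card_le_card hsub).trans (List.toFinset_card_le l)
  have h4 := hps _ ⟨x :: l, hl1, hl2, hl3, hl4⟩
  simp only [List.length_cons] at hl4
  omega

theorem pairs_le {V : Type} [DecidableEq V] (G : SimpleGraph V) [DecidableRel G.Adj] (s : ℕ)
    (hs : ¬ HasPath G s) : ∀ (m : ℕ) (U : Finset V), U.card = m →
    ((U ×ˢ U).filter fun x => G.Adj x.1 x.2).card ≤ 2 * s * m := by
  intro m
  induction m with
  | zero =>
    intro U hU
    rw [Finset.card_eq_zero] at hU
    subst hU
    simp
  | succ m ih =>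
    intro U hU
    have hne : U.Nonempty := Finset.card_pos.1 (by omega)
    obtain ⟨x, hx, hd⟩ := low_degree G s hs U hne
    have h1 := ih (U.erase x) (by rw [Finset.card_erase_of_mem hx]; omega)
    have h2 : ((U ×ˢ U).filter fun x => G.Adj x.1 x.2) ⊆
        (((U.erase x) ×ˢ (U.erase x)).filter fun x => G.Adj x.1 x.2) ∪
        ((U.filter fun y => G.Adj x y).image (fun y => (x, y)) ∪
          (U.filter fun y => G.Adj x y).image (fun y => (y, x))) := by
      rintro ⟨a, c⟩ hac
      rw [Finset.mem_filter, Finset.mem_product] at hac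
      obtain ⟨⟨ha, hc⟩, hadj⟩ := hac
      simp only at ha hc hadj
      rw [Finset.mem_union, Finset.mem_union, Finset.mem_image, Finset.mem_image,
        Finset.mem_filter, Finset.mem_product, Finset.mem_erase, Finset.mem_erase]
      by_cases hax : a = x
      · subst hax
        exact Or.inr (Or.inl ⟨c, Finset.mem_filter.2 ⟨hc, hadj⟩, rfl⟩)
      · by_cases hcx : c = x
        · subst hcx
          exact Or.inr (Or.inr ⟨a, Finset.mem_filter.2 ⟨ha, hadj.symm⟩, rfl⟩)
        · exact Or.inl ⟨⟨⟨hax, ha⟩, ⟨hcx, hc⟩⟩, hadj⟩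
    have h3 := (Finset.card_le_card h2).trans ((Finset.card_union_le _ _).trans
      (Nat.add_le_add_left (Finset.card_union_le _ _) _))
    have h4 := Finset.card_image_le (s := U.filter fun y => G.Adj x y) (f := fun y => (x, y))
    have h5 := Finset.card_image_le (s := U.filter fun y => G.Adj x y) (f := fun y => (y, x))
    have h6 : 2 * s * (m + 1) = 2 * s * m + s + s := by ring
    omega

theorem edges_le {n : ℕ} (G : SimpleGraph (Fin n)) (s : ℕ) (hs : ¬ HasPath G s) :
    G.edgeSet.ncard ≤ 2 * s * n := by
  classical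
  have h1 := pairs_le G s hs n Finset.univ (by simp)
  have h2 : G.edgeSet ⊆ (((Finset.univ ×ˢ Finset.univ).filter
      (fun x : Fin n × Fin n => G.Adj x.1 x.2)).image (fun x => s(x.1, x.2)) : Finset _) := by
    intro e he
    induction e using Sym2.ind with
    | _ a c =>
    rw [Finset.mem_coe, Finset.mem_image]
    exact ⟨(a, c), by simpa using he, rfl⟩
  have h3 := Set.ncard_le_ncard h2
  rw [Set.ncard_coe_finset] at h3
  exact h3.trans (Finset.card_image_le.trans h1)

/-- a path on `s` vertices is a copy of `pathGraph s` -/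
theorem hasPath_iff {V : Type} (G : SimpleGraph V) (s : ℕ) :
    HasPath G s ↔ (SimpleGraph.pathGraph s).IsContained G := by
  constructor
  · rintro ⟨l, h1, rfl, h3⟩
    refine ⟨⟨⟨fun i => l.get i, ?_⟩, ?_⟩⟩
    · intro a c hac
      rw [SimpleGraph.pathGraph_adj] at hac
      rw [List.isChain_iff_getElem] at h3
      rcases hac with hac | hac
      · have := h3 a.val (by have := c.2; omega)
        simp only [List.get_eq_getElem]
        have h4 : l[a.val + 1]'(by have := c.2; omega) = l[c.val] := by
          congr 1
        rw [← h4]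
        exact this
      · have := h3 c.val (by have := a.2; omega)
        simp only [List.get_eq_getElem]
        have h4 : l[c.val + 1]'(by have := a.2; omega) = l[a.val] := by
          congr 1
        rw [← h4]
        exact this.symm
    · exact List.nodup_iff_injective_get.1 h1
  · rintro ⟨f⟩
    refine ⟨List.ofFn f, ?_, by simp, ?_⟩
    · rw [List.nodup_ofFn]
      exact f.injective
    · rw [List.isChain_iff_getElem]
      intro i hi
      simp only [List.length_ofFn] at hi
      simp only [List.getElem_ofFn]
      apply f.toHom.map_adj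
      rw [SimpleGraph.pathGraph_adj]
      left
      rfl

end Pool.Agent.TH669.KP
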