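import Mathlib

set_option autoImplicit false

/-!
# A small sieve: `N` is the sum of two coprime squarefree numbers in prescribed ranges
-/

namespace Pool.Agent.TH669.KP.NT

open Finset

/-- the sifted set -/
def S (H : ℕ) (r : ℕ → ℕ) (P : Finset ℕ) (q c : ℕ) : Finset ℕ :=
  (range H).filter fun t => t ≡ c [MOD q] ∧ ∀ l ∈ P, ¬ t ≡ r l [MOD l]

theorem base_count (H q c : ℕ) (hq : 0 < q) :
    |(((range H).filter fun t => t ≡ c [MOD q]).card : ℝ) - (H : ℝ) / q| ≤ 1 := by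
  have h1 : ((range H).filter fun t => t ≡ c [MOD q]).card = Nat.count (· ≡ c [MOD q]) H := by
    rw [Nat.count_eq_card_filter_range]
  rw [h1, Nat.count_modEq_card _ hq]
  have h2 : (H : ℝ) = q * (H / q : ℕ) + (H % q : ℕ) := by
    exact_mod_cast (Nat.div_add_mod H q).symm
  have hq' : (0 : ℝ) < q := by exact_mod_cast hq
  have h3 : (H : ℝ) / q = ((H / q : ℕ) : ℝ) + ((H % q : ℕ) : ℝ) / q := by
    conv_lhs => rw [h2]
    field_simp
  have h4 : ((H % q : ℕ) : ℝ) / q ≤ 1 := by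
    rw [div_le_one hq']
    exact_mod_cast (Nat.mod_lt H hq).le
  have h5 : 0 ≤ ((H % q : ℕ) : ℝ) / q := by positivity
  rw [h3]
  push_cast
  split_ifs with h
  · rw [abs_le]
    constructor <;> linarith
  · rw [abs_le]
    constructor <;> linarith

theorem sieve (H : ℕ) (r : ℕ → ℕ) (P : Finset ℕ) (hP : ∀ l ∈ P, l.Prime) :
    ∀ q c : ℕ, 0 < q → (∀ l ∈ P, Nat.Coprime q l) →
      |((S H r P q c).card : ℝ) - (H : ℝ) / q * ∏ l ∈ P, (1 - 1 / (l : ℝ))| ≤ 2 ^ P.card := by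
  classical
  induction P using Finset.induction_on with
  | empty =>
    intro q c hq _
    have h1 : S H r ∅ q c = (range H).filter fun t => t ≡ c [MOD q] := by
      unfold S
      simp
    rw [h1]
    simpa using base_count H q c hq
  | insert l P hl ih =>
    intro q c hq hcop
    have hlp : l.Prime := hP l (Finset.mem_insert_self _ _)
    have hP' : ∀ l ∈ P, l.Prime := fun l' hl' => hP l' (Finset.mem_insert_of_mem hl')
    obtain ⟨d, hd1, hd2⟩ := Nat.chineseRemainder (hcop l (Finset.mem_insert_self _ _)) c (r l)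
    have h1 : S H r P q c = S H r (insert l P) q c ∪ S H r P (q * l) d := by
      ext t
      unfold S
      simp only [Finset.mem_union, Finset.mem_filter, Finset.forall_mem_insert]
      constructor
      · rintro ⟨ht, h1, h2⟩
        by_cases h3 : t ≡ r l [MOD l]
        · right
          refine ⟨ht, ?_, h2⟩
          exact (Nat.modEq_and_modEq_iff_modEq_mul (hcop l (Finset.mem_insert_self _ _))).1
            ⟨h1.trans hd1.symm, h3.trans hd2.symm⟩
        · left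
          exact ⟨ht, h1, h3, h2⟩
      · rintro (⟨ht, h1, _, h2⟩ | ⟨ht, h1, h2⟩)
        · exact ⟨ht, h1, h2⟩
        · exact ⟨ht, (h1.of_mul_right l).trans hd1, h2⟩
    have h2 : Disjoint (S H r (insert l P) q c) (S H r P (q * l) d) := by
      rw [Finset.disjoint_left]
      intro t ht ht'
      unfold S at ht ht'
      rw [Finset.mem_filter] at ht ht'
      exact ht.2.2 l (Finset.mem_insert_self _ _) ((ht'.2.1.of_mul_left q).trans hd2)
    have h3 := Finset.card_union_of_disjoint h2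
    rw [← h1] at h3
    have h4 := ih hP' q c hq (fun l' hl' => hcop l' (Finset.mem_insert_of_mem hl'))
    have h5 := ih hP' (q * l) d (Nat.mul_pos hq hlp.pos) (fun l' hl' =>
      Nat.Coprime.mul_left (hcop l' (Finset.mem_insert_of_mem hl'))
        ((Nat.coprime_primes hlp (hP' l' hl')).2 fun h => hl (h ▸ hl')))
    rw [Finset.prod_insert hl, Finset.card_insert_of_notMem hl]
    have h6 : ((S H r P q c).card : ℝ) = (S H r (insert l P) q c).card +
        (S H r P (q * l) d).card := by exact_mod_cast h3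
    have hl0 : (0 : ℝ) < l := by exact_mod_cast hlp.pos
    have hq0 : (0 : ℝ) < q := by exact_mod_cast hq
    have h7 : ((S H r (insert l P) q c).card : ℝ) -
        (H : ℝ) / q * ((1 - 1 / (l : ℝ)) * ∏ l ∈ P, (1 - 1 / (l : ℝ))) =
        (((S H r P q c).card : ℝ) - (H : ℝ) / q * ∏ l ∈ P, (1 - 1 / (l : ℝ))) -
        (((S H r P (q * l) d).card : ℝ) -
          (H : ℝ) / ((q * l : ℕ) : ℝ) * ∏ l ∈ P, (1 - 1 / (l : ℝ))) := by
      rw [h6]
      push_cast
      field_simp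
      ring
    rw [h7, pow_succ]
    rw [abs_le] at h4 h5 ⊢
    constructor <;> linarith [h4.1, h4.2, h5.1, h5.2]

theorem prod_ge (P : Finset ℕ) (hP : ∀ l ∈ P, l.Prime) :
    1 / (2 : ℝ) ^ P.card ≤ ∏ l ∈ P, (1 - 1 / (l : ℝ)) := by
  have h1 : ∏ l ∈ P, (1 / 2 : ℝ) ≤ ∏ l ∈ P, (1 - 1 / (l : ℝ)) := by
    refine Finset.prod_le_prod (fun _ _ => by norm_num) fun l hl => ?_
    have h2 : (2 : ℝ) ≤ l := by exact_mod_cast (hP l hl).two_le
    have h3 : 1 / (l : ℝ) ≤ 1 / 2 := one_div_le_one_div_of_le (by norm_num) h2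
    linarith
  rw [Finset.prod_const] at h1
  rwa [one_div_pow] at h1

theorem prod_nonneg' (P : Finset ℕ) (hP : ∀ l ∈ P, l.Prime) :
    0 ≤ ∏ l ∈ P, (1 - 1 / (l : ℝ)) :=
  le_trans (by positivity) (prod_ge P hP)

/-- the number of prime factors is small -/
theorem two_pow_card (N : ℕ) (hN : 0 < N) (P : Finset ℕ) (hP : ∀ l ∈ P, l.Prime)
    (hPN : ∀ l ∈ P, l ∣ N) : ((2 : ℕ) ^ P.card) ^ 8 ≤ (2 ^ 256) ^ 8 * N := by
  classical
  set A := P.filter fun l => l < 256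
  set B := P.filter fun l => ¬ l < 256
  have h1 : P.card = A.card + B.card := (Finset.card_filter_add_card_filter_not _).symm
  have h2 : A.card ≤ 256 := by
    have : A ⊆ range 256 := by
      intro l hl
      exact Finset.mem_range.2 (Finset.mem_filter.1 hl).2
    simpa using Finset.card_le_card this
  have h3 : 256 ^ B.card ≤ ∏ l ∈ B, l := by
    rw [← Finset.prod_const]
    refine Finset.prod_le_prod' fun l hl => ?_
    have := (Finset.mem_filter.1 hl).2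
    omega
  have h4 : ∏ l ∈ B, l ∣ N := by
    refine Finset.prod_primes_dvd N (fun l hl => ?_) (fun l hl => ?_)
    · exact (hP l (Finset.mem_filter.1 hl).1).prime
    · exact hPN l (Finset.mem_filter.1 hl).1
  have h5 : 256 ^ B.card ≤ N := h3.trans (Nat.le_of_dvd hN h4)
  calc ((2 : ℕ) ^ P.card) ^ 8 = (2 ^ A.card) ^ 8 * (2 ^ B.card) ^ 8 := by
        rw [h1, pow_add, mul_pow]
    _ = (2 ^ A.card) ^ 8 * 256 ^ B.card := by
        congr 1
        rw [← pow_mul, mul_comm, pow_mul]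
        norm_num
    _ ≤ (2 ^ 256) ^ 8 * N :=
        Nat.mul_le_mul (Nat.pow_le_pow_left (Nat.pow_le_pow_right (by norm_num) h2) 8) h5

/-- the sum of `1 / m ^ 2` over a set of integers which are at least 5 -/
theorem sum_sq (Q : Finset ℕ) (hQ : ∀ l ∈ Q, 5 ≤ l) : ∑ l ∈ Q, 1 / (l : ℝ) ^ 2 ≤ 1 / 4 := by
  have h1 : ∀ n : ℕ, ∑ l ∈ Finset.Ico 5 (n + 5), 1 / (l : ℝ) ^ 2 ≤ 1 / 4 - 1 / ((n : ℝ) + 4) := by
    intro n
    induction n with
    | zero => simp
    | succ n ih =>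
      rw [show n + 1 + 5 = (n + 5) + 1 by ring, Finset.sum_Ico_succ_top (by omega)]
      have h2 : (1 : ℝ) / ((n + 5 : ℕ) : ℝ) ^ 2 ≤ 1 / ((n : ℝ) + 4) - 1 / ((n + 1 : ℕ) + 4 : ℝ) := by
        push_cast
        have h3 : (0 : ℝ) ≤ n := Nat.cast_nonneg n
        rw [div_sub_div _ _ (by positivity) (by positivity), div_le_div_iff₀ (by positivity) (by positivity)]
        nlinarith
      linarith
  have h2 : Q ⊆ Finset.Ico 5 (Q.sup id + 5) := by
    intro l hl
    rw [Finset.mem_Ico]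
    have := Finset.le_sup (f := id) hl
    simp only [id] at this
    exact ⟨hQ l hl, by omega⟩
  have h3 := Finset.sum_le_sum_of_subset_of_nonneg (f := fun l : ℕ => 1 / (l : ℝ) ^ 2) h2
    (fun _ _ _ => by positivity)
  have h4 := h1 (Q.sup id)
  have h5 : (0 : ℝ) ≤ 1 / (((Q.sup id : ℕ) : ℝ) + 4) := by positivity
  linarith

/-- the residue which makes `c + 12 t` divisible by `m` -/
theorem residue (m c : ℕ) (hm : Nat.Coprime m 12) (hm1 : 0 < m) :
    ∃ r, ∀ t, m ∣ c + 12 * t ↔ t ≡ r [MOD m] := by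
  obtain ⟨r, hr⟩ : ∃ r, m ∣ c + 12 * r := by
    obtain ⟨u, -, hu⟩ := Nat.exists_mul_mod_eq_of_coprime (k := m) ((m - 1) * c) hm.symm hm1.ne'
    refine ⟨u, ?_⟩
    have h1 : 12 * u ≡ (m - 1) * c [MOD m] := hu
    have h2 : c + 12 * u ≡ c + (m - 1) * c [MOD m] := h1.add_left c
    have h3 : c + (m - 1) * c = m * c := by
      obtain ⟨k, rfl⟩ : ∃ k, m = k + 1 := ⟨m - 1, by omega⟩
      rw [Nat.add_sub_cancel]
      ring
    rw [h3] at h2
    rw [← Nat.modEq_zero_iff_dvd]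
    exact h2.trans (Nat.modEq_zero_iff_dvd.2 (dvd_mul_right m c))
  refine ⟨r, fun t => ?_⟩
  rw [← Nat.modEq_zero_iff_dvd] at hr ⊢
  constructor
  · intro h
    have h1 : c + 12 * t ≡ c + 12 * r [MOD m] := h.trans hr.symm
    have h2 := Nat.ModEq.add_left_cancel' c h1
    exact Nat.ModEq.cancel_left_of_coprime hm h2
  · intro h
    exact ((h.mul_left 12).add_left c).trans hr

/-- the final inequality -/
theorem final_ineq (N H K W C s : ℕ) (hN : 0 < N) (h1 : H ≤ 6 * W ^ 2 * s) (hs : s * s ≤ N)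
    (hW : W ^ 8 ≤ C * N) (hK : N ≤ K * H) : N ≤ 1296 * K ^ 4 * C := by
  have h2 : H ^ 4 ≤ 1296 * W ^ 8 * (s * s) ^ 2 := by
    calc H ^ 4 ≤ (6 * W ^ 2 * s) ^ 4 := Nat.pow_le_pow_left h1 4
      _ = 1296 * W ^ 8 * (s * s) ^ 2 := by ring
  have h3 : H ^ 4 ≤ 1296 * (C * N) * N ^ 2 := h2.trans
    (Nat.mul_le_mul (Nat.mul_le_mul_left _ hW) (Nat.pow_le_pow_left hs 2))
  have h4 : N ^ 3 * N ≤ N ^ 3 * (1296 * K ^ 4 * C) := by
    calc N ^ 3 * N = N ^ 4 := by ring
      _ ≤ (K * H) ^ 4 := Nat.pow_le_pow_left hK 4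
      _ = K ^ 4 * H ^ 4 := by ring
      _ ≤ K ^ 4 * (1296 * (C * N) * N ^ 2) := Nat.mul_le_mul_left _ h3
      _ = N ^ 3 * (1296 * K ^ 4 * C) := by ring
  exact Nat.le_of_mul_le_mul_left h4 (by positivity)

theorem nt (K : ℕ) : ∃ N0, ∀ N, N0 ≤ N → ∀ a0 H : ℕ, N ≤ K * H → 0 < a0 → a0 + 12 * H ≤ N →
    ¬ 4 ∣ a0 → ¬ 4 ∣ N - a0 → ¬ 3 ∣ a0 → ¬ 3 ∣ N - a0 → ¬ (2 ∣ a0 ∧ 2 ∣ N - a0) →
    ∃ t, t < H ∧ Squarefree (a0 + 12 * t) ∧ Squarefree (N - (a0 + 12 * t)) ∧
      Nat.Coprime (a0 + 12 * t) (N - (a0 + 12 * t)) := by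
  classical
  obtain ⟨C, hC⟩ : ∃ C : ℕ, ∀ (N : ℕ) (_ : 0 < N) (P : Finset ℕ) (_ : ∀ l ∈ P, l.Prime)
    (_ : ∀ l ∈ P, l ∣ N), ((2 : ℕ) ^ P.card) ^ 8 ≤ C * N := ⟨_, two_pow_card⟩
  refine ⟨1296 * K ^ 4 * C + 1, fun N hN0 a0 H hKH ha0 haH h4 h4' h3 h3' h2 => ?_⟩
  have hN : 0 < N := by omega
  by_contra hno
  push Not at hno
  set P := N.primeFactors.filter (5 ≤ ·) with hPdef
  have hP : ∀ l ∈ P, l.Prime := fun l hl => Nat.prime_of_mem_primeFactors (Finset.mem_filter.1 hl).1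
  have hPN : ∀ l ∈ P, l ∣ N := fun l hl => Nat.dvd_of_mem_primeFactors (Finset.mem_filter.1 hl).1
  have hPm : ∀ l, l.Prime → 5 ≤ l → l ∣ N → l ∈ P := fun l h1 h2 h3 =>
    Finset.mem_filter.2 ⟨Nat.mem_primeFactors.2 ⟨h1, h3, hN.ne'⟩, h2⟩
  set s := Nat.sqrt N with hs
  have hss : s * s ≤ N := Nat.sqrt_le N
  have hs1 : 1 ≤ s := Nat.sqrt_pos.2 hN
  set Q := (Finset.Icc 1 s).filter fun l => l.Prime ∧ 5 ≤ l ∧ ¬ l ∣ N with hQdef
  have hcop : ∀ l : ℕ, l.Prime → 5 ≤ l → Nat.Coprime l 12 := by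
    intro l hl hl5
    rw [Nat.Prime.coprime_iff_not_dvd hl]
    intro h
    have h12 : (12 : ℕ) = 2 * 2 * 3 := by norm_num
    rw [h12] at h
    rcases (hl.dvd_mul).1 h with h | h
    · rcases (hl.dvd_mul).1 h with h | h <;> exact absurd (Nat.le_of_dvd (by norm_num) h) (by omega)
    · exact absurd (Nat.le_of_dvd (by norm_num) h) (by omega)
  have hr' : ∀ l : ℕ, ∃ r, l.Prime → 5 ≤ l → ∀ t, l ∣ a0 + 12 * t ↔ t ≡ r [MOD l] := by
    intro l
    by_cases hl : l.Prime ∧ 5 ≤ l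
    · obtain ⟨r, hr⟩ := residue l a0 (hcop l hl.1 hl.2) hl.1.pos
      exact ⟨r, fun _ _ => hr⟩
    · exact ⟨0, fun h h' => absurd ⟨h, h'⟩ hl⟩
  choose r hr using hr'
  have hc1' : ∀ l : ℕ, ∃ r, l.Prime → 5 ≤ l → ∀ t, l ^ 2 ∣ a0 + 12 * t ↔ t ≡ r [MOD l ^ 2] := by
    intro l
    by_cases hl : l.Prime ∧ 5 ≤ l
    · obtain ⟨r, hr⟩ := residue (l ^ 2) a0 ((hcop l hl.1 hl.2).pow_left 2) (pow_pos hl.1.pos 2)
      exact ⟨r, fun _ _ => hr⟩
    · exact ⟨0, fun h h' => absurd ⟨h, h'⟩ hl⟩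
  choose c1 hc1 using hc1'
  have hc2' : ∀ l : ℕ, ∃ r, l.Prime → 5 ≤ l → ∀ t, l ^ 2 ∣ (a0 + (l ^ 2 - 1) * N) + 12 * t ↔
      t ≡ r [MOD l ^ 2] := by
    intro l
    by_cases hl : l.Prime ∧ 5 ≤ l
    · obtain ⟨r, hr⟩ := residue (l ^ 2) (a0 + (l ^ 2 - 1) * N) ((hcop l hl.1 hl.2).pow_left 2)
        (pow_pos hl.1.pos 2)
      exact ⟨r, fun _ _ => hr⟩
    · exact ⟨0, fun h h' => absurd ⟨h, h'⟩ hl⟩
  choose c2 hc2 using hc2'
  have hsub : S H r P 1 0 ⊆ Q.biUnion fun l => S H r P (l ^ 2) (c1 l) ∪ S H r P (l ^ 2) (c2 l) := by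
    intro t ht
    unfold S at ht
    rw [Finset.mem_filter, Finset.mem_range] at ht
    obtain ⟨htH, -, htP⟩ := ht
    set b := a0 + 12 * t with hb
    have hbN : b < N := by omega
    have hPb : ∀ l, l.Prime → 5 ≤ l → l ∣ N → ¬ l ∣ b := fun l h1 h2 h3 h =>
      htP l (hPm l h1 h2 h3) ((hr l h1 h2 t).1 h)
    have e4 : ¬ 4 ∣ b := by omega
    have e3 : ¬ 3 ∣ b := by omega
    have e4' : ¬ 4 ∣ N - b := by omega
    have e3' : ¬ 3 ∣ N - b := by omega
    have e2 : ¬ (2 ∣ b ∧ 2 ∣ N - b) := by omega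
    have hp5 : ∀ l : ℕ, l.Prime → l ≠ 2 → l ≠ 3 → 5 ≤ l := by
      intro l hl hl2 hl3
      have h1 := hl.two_le
      have h4 : l ≠ 4 := by rintro rfl; revert hl; decide
      omega
    have hcp : Nat.Coprime b (N - b) := by
      by_contra hnc
      obtain ⟨l, hl, hl1, hl2⟩ := Nat.Prime.not_coprime_iff_dvd.1 hnc
      have hlN : l ∣ N := by
        have := dvd_add hl1 hl2
        rwa [Nat.add_sub_cancel' hbN.le] at this
      by_cases hl2' : l = 2
      · subst hl2'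
        exact e2 ⟨hl1, hl2⟩
      by_cases hl3' : l = 3
      · subst hl3'
        exact e3 hl1
      exact hPb l hl (hp5 l hl hl2' hl3') hlN hl1
    have hmem : ∃ l, l ∈ Q ∧ (l ^ 2 ∣ b ∨ l ^ 2 ∣ N - b) := by
      have hno' := hno t htH
      by_cases hsq : Squarefree b
      · have hnsq : ¬ Squarefree (N - b) := fun h => hno' hsq h hcp
        rw [Nat.squarefree_iff_prime_squarefree] at hnsq
        push Not at hnsq
        obtain ⟨l, hl, hll⟩ := hnsq
        have hld : l ∣ N - b := (dvd_mul_right l l).trans hll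
        have hl2' : l ≠ 2 := by
          rintro rfl
          exact e4' hll
        have hl3' : l ≠ 3 := by
          rintro rfl
          exact e3' hld
        have hl5 := hp5 l hl hl2' hl3'
        refine ⟨l, ?_, Or.inr (by rw [pow_two]; exact hll)⟩
        rw [hQdef, Finset.mem_filter, Finset.mem_Icc]
        refine ⟨⟨by omega, ?_⟩, hl, hl5, ?_⟩
        · rw [hs, Nat.le_sqrt]
          exact (Nat.le_of_dvd (by omega) hll).trans (Nat.sub_le _ _)
        · intro hlN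
          apply hPb l hl hl5 hlN
          have := Nat.dvd_sub hlN hld
          rwa [Nat.sub_sub_self hbN.le] at this
      · rw [Nat.squarefree_iff_prime_squarefree] at hsq
        push Not at hsq
        obtain ⟨l, hl, hll⟩ := hsq
        have hld : l ∣ b := (dvd_mul_right l l).trans hll
        have hl2' : l ≠ 2 := by
          rintro rfl
          exact e4 hll
        have hl3' : l ≠ 3 := by
          rintro rfl
          exact e3 hld
        have hl5 := hp5 l hl hl2' hl3'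
        refine ⟨l, ?_, Or.inl (by rw [pow_two]; exact hll)⟩
        rw [hQdef, Finset.mem_filter, Finset.mem_Icc]
        refine ⟨⟨by omega, ?_⟩, hl, hl5, fun hlN => hPb l hl hl5 hlN hld⟩
        rw [hs, Nat.le_sqrt]
        exact (Nat.le_of_dvd (by omega) hll).trans hbN.le
    obtain ⟨l, hlQ, hl⟩ := hmem
    rw [Finset.mem_biUnion]
    refine ⟨l, hlQ, ?_⟩
    rw [hQdef, Finset.mem_filter] at hlQ
    obtain ⟨-, hlp, hl5, -⟩ := hlQ
    rw [Finset.mem_union]
    rcases hl with hl | hl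
    · left
      unfold S
      rw [Finset.mem_filter, Finset.mem_range]
      exact ⟨htH, (hc1 l hlp hl5 t).1 hl, htP⟩
    · right
      unfold S
      rw [Finset.mem_filter, Finset.mem_range]
      refine ⟨htH, (hc2 l hlp hl5 t).1 ?_, htP⟩
      have h5 : (a0 + (l ^ 2 - 1) * N) + 12 * t + (N - b) = l ^ 2 * N := by
        obtain ⟨k, hk⟩ : ∃ k, l ^ 2 = k + 1 := ⟨l ^ 2 - 1, by
          have := pow_pos hlp.pos 2; omega⟩
        rw [hk, Nat.add_sub_cancel, Nat.add_mul]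
        omega
      have h6 : l ^ 2 ∣ (a0 + (l ^ 2 - 1) * N) + 12 * t + (N - b) := by
        rw [h5]
        exact dvd_mul_right _ _
      exact (Nat.dvd_add_left hl).1 h6
  have hcard := (Finset.card_le_card hsub).trans Finset.card_biUnion_le
  set W : ℝ := (2 : ℝ) ^ P.card with hW
  set Φ : ℝ := ∏ l ∈ P, (1 - 1 / (l : ℝ)) with hΦ
  have hW1 : 1 ≤ W := one_le_pow₀ (by norm_num)
  have hΦ0 : 1 / W ≤ Φ := prod_ge P hP
  have hΦ1 : 0 ≤ Φ := prod_nonneg' P hP
  have hlow := sieve H r P hP 1 0 one_pos (fun l _ => Nat.coprime_one_left l)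
  rw [abs_le] at hlow
  have hup : ∀ l ∈ Q, ∀ c, ((S H r P (l ^ 2) c).card : ℝ) ≤ H * Φ * (1 / (l : ℝ) ^ 2) + W := by
    intro l hl c
    rw [hQdef, Finset.mem_filter] at hl
    obtain ⟨-, hlp, hl5, hlN⟩ := hl
    have h1 := sieve H r P hP (l ^ 2) c (pow_pos hlp.pos 2) (fun l' hl' =>
      Nat.Coprime.pow_left 2 ((Nat.coprime_primes hlp (hP l' hl')).2 fun h => hlN (h ▸ hPN l' hl')))
    rw [abs_le] at h1
    have h2 : (H : ℝ) / ((l ^ 2 : ℕ) : ℝ) * Φ = H * Φ * (1 / (l : ℝ) ^ 2) := by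
      push_cast
      ring
    linarith [h1.2]
  have hsum : ((∑ l ∈ Q, (S H r P (l ^ 2) (c1 l) ∪ S H r P (l ^ 2) (c2 l)).card : ℕ) : ℝ) ≤
      H * Φ * (1 / 2) + 2 * s * W := by
    push_cast
    calc ∑ l ∈ Q, (((S H r P (l ^ 2) (c1 l) ∪ S H r P (l ^ 2) (c2 l)).card : ℕ) : ℝ)
        ≤ ∑ l ∈ Q, (2 * (H * Φ) * (1 / (l : ℝ) ^ 2) + 2 * W) := by
          refine Finset.sum_le_sum fun l hl => ?_
          have h1 : (((S H r P (l ^ 2) (c1 l) ∪ S H r P (l ^ 2) (c2 l)).card : ℕ) : ℝ) ≤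
              (S H r P (l ^ 2) (c1 l)).card + (S H r P (l ^ 2) (c2 l)).card := by
            exact_mod_cast Finset.card_union_le _ _
          have h2 := hup l hl (c1 l)
          have h3 := hup l hl (c2 l)
          linarith
      _ = 2 * (H * Φ) * ∑ l ∈ Q, 1 / (l : ℝ) ^ 2 + Q.card * (2 * W) := by
          rw [Finset.sum_add_distrib, Finset.mul_sum, Finset.sum_const, nsmul_eq_mul]
      _ ≤ 2 * (H * Φ) * (1 / 4) + s * (2 * W) := by
          have h1 : ∑ l ∈ Q, 1 / (l : ℝ) ^ 2 ≤ 1 / 4 := sum_sq Q fun l hl =>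
            (Finset.mem_filter.1 hl).2.2.1
          have h2 : (Q.card : ℝ) ≤ s := by
            have h3 : Q.card ≤ (Finset.Icc 1 s).card := Finset.card_le_card (Finset.filter_subset _ _)
            rw [Nat.card_Icc, Nat.add_sub_cancel] at h3
            exact_mod_cast h3
          have h4 : (0 : ℝ) ≤ 2 * (H * Φ) := by positivity
          have h5 : (0 : ℝ) ≤ 2 * W := by positivity
          exact add_le_add (mul_le_mul_of_nonneg_left h1 h4) (mul_le_mul_of_nonneg_right h2 h5)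
      _ = H * Φ * (1 / 2) + 2 * s * W := by ring
  have hcard' : ((S H r P 1 0).card : ℝ) ≤ H * Φ * (1 / 2) + 2 * s * W :=
    le_trans (by exact_mod_cast hcard) hsum
  have hs1' : (1 : ℝ) ≤ s := by exact_mod_cast hs1
  have h1 : (H : ℝ) * Φ ≤ 6 * W * s := by
    have h2 := hlow.1
    push_cast at h2
    rw [div_one] at h2
    nlinarith
  have h2 : (H : ℝ) ≤ 6 * W ^ 2 * s := by
    have h3 : (H : ℝ) * (1 / W) ≤ 6 * W * s :=
      (mul_le_mul_of_nonneg_left hΦ0 (Nat.cast_nonneg H)).trans h1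
    have h4 : (0 : ℝ) < W := by linarith
    rw [mul_one_div, div_le_iff₀ h4] at h3
    linarith
  have h3 : H ≤ 6 * (2 ^ P.card) ^ 2 * s := by
    rw [hW] at h2
    exact_mod_cast h2
  have h5 := final_ineq N H K (2 ^ P.card) C s hN h3 hss (hC N hN P hP hPN) hKH
  omega

end Pool.Agent.TH669.KP.NT
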