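import Pool.Agent.TH669.KP.Eval4
import Pool.Agent.TH669.KP.NT
import Pool.Agent.H119R2.Kp.NT

set_option autoImplicit false

/-!
# Choice of the parameters
-/

namespace Pool.Agent.TH669.KP

open Finset
open Pool.Agent.H119R2.Kp (GP PV)

/-- the number in the class `r` modulo 12 for general `N` -/
theorem res_any (N : ℕ) : ∃ r, r < 12 ∧ ∀ q, 12 * q + r ≤ N →
    ¬ 4 ∣ 12 * q + r ∧ ¬ 4 ∣ N - (12 * q + r) ∧ ¬ 3 ∣ 12 * q + r ∧ ¬ 3 ∣ N - (12 * q + r) ∧
    ¬ (2 ∣ 12 * q + r ∧ 2 ∣ N - (12 * q + r)) := by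
  have h : ∀ m : Fin 12, ∃ r : Fin 12, ¬ r.val % 4 = 0 ∧ ¬ (m.val + 12 - r.val) % 4 = 0 ∧
      ¬ r.val % 3 = 0 ∧ ¬ (m.val + 12 - r.val) % 3 = 0 ∧
      ¬ (r.val % 2 = 0 ∧ (m.val + 12 - r.val) % 2 = 0) := by decide
  obtain ⟨r, h1, h2, h3, h4, h5⟩ := h ⟨N % 12, Nat.mod_lt _ (by norm_num)⟩
  refine ⟨r.val, r.2, fun q hq => ?_⟩
  simp only at h2 h4 h5
  have hr := r.2
  refine ⟨by omega, by omega, by omega, by omega, by omega⟩

/-- the number in the class `r` modulo 12 for even `N` -/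
theorem res_even (N : ℕ) (hN : N % 2 = 0) : ∃ r, r < 12 ∧ ∀ q, 12 * q + r ≤ N →
    ¬ 2 ∣ 12 * q + r ∧ ¬ 2 ∣ N - (12 * q + r) ∧ ¬ 3 ∣ 12 * q + r ∧ ¬ 3 ∣ N - (12 * q + r) := by
  have h : ∀ m : Fin 12, m.val % 2 = 0 → ∃ r : Fin 12, ¬ r.val % 2 = 0 ∧
      ¬ (m.val + 12 - r.val) % 2 = 0 ∧
      ¬ r.val % 3 = 0 ∧ ¬ (m.val + 12 - r.val) % 3 = 0 := by decide
  obtain ⟨r, h1, h2, h3, h4⟩ := h ⟨N % 12, Nat.mod_lt _ (by norm_num)⟩ (by simp only; omega)
  refine ⟨r.val, r.2, fun q hq => ?_⟩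
  simp only at h2 h4
  have hr := r.2
  refine ⟨by omega, by omega, by omega, by omega⟩

/-- `s ≤ n < 1.05 s` -/
theorem caseA : ∃ s0 : ℕ, ∀ s n q : ℕ, s0 ≤ s → s ≤ n → 20 * n < 21 * s → q < n.choose 2 →
    ¬ GP n q (fun G : SimpleGraph (Fin n) => HasPath G s) := by
  obtain ⟨N0, hN0⟩ := NT.nt 800
  refine ⟨max N0 2000 + 1, fun s n q hs hsn h20 hq => ?_⟩
  have hs1 : N0 + 1 ≤ s := (Nat.succ_le_succ (le_max_left _ _)).trans hs
  have hs2 : 2001 ≤ s := (Nat.succ_le_succ (le_max_right _ _)).trans hs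
  obtain ⟨N, rfl⟩ : ∃ N, n = N + 1 := ⟨n - 1, by omega⟩
  obtain ⟨r, hr, hr'⟩ := res_any N
  obtain ⟨e1, e2, e3, e4, e5⟩ := hr' (N / 30) (by omega)
  obtain ⟨t, ht, hsq, hsq', hcop⟩ := hN0 N (by omega) (12 * (N / 30) + r) (N / 400) (by omega)
    (by omega) (by omega) e1 e2 e3 e4 e5
  set b0 := 12 * (N / 30) + r + 12 * t with hb0
  have hb1 : b0 ≤ 12 * (N / 30) + 11 + 12 * (N / 400) := by omega
  have hb2 : 12 * (N / 30) ≤ b0 := by omega
  have : Fact (Nat.Prime 2) := ⟨Nat.prime_two⟩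
  let b : Bool → ℕ := fun c => if c then b0 else N - b0
  have hbt : b true = b0 := rfl
  have hbf : b false = N - b0 := rfl
  have hbl : ∀ c, 2 ≤ b c := by
    intro c
    cases c
    · rw [hbf]; omega
    · rw [hbt]; omega
  have hbu : ∀ c, 10 * b c ≤ 6 * N + 120 := by
    intro c
    cases c
    · rw [hbf]; omega
    · rw [hbt]; omega
  refine block_one (k := 0) (p := 2) b (fun c => b c / 2) hbl ?_ ?_ ?_ ?_ hq ?_ ?_ ?_ ?_ (by omega)
  · intro c
    cases c
    · exact hsq'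
    · exact hsq
  · exact hcop
  · intro c g hg hg1
    have hg0 : g ≠ 0 := by
      rintro rfl
      have := hbl c
      have h0 := Nat.eq_zero_of_zero_dvd hg
      omega
    exact Nat.div_le_div_left (by omega) (by norm_num)
  · rw [hbt, hbf]
    omega
  · rintro (i | c) (j | d) hij
    · exact i.elim0
    · exact i.elim0
    · exact j.elim0
    · have hcd : c ≠ d := fun h => hij (by rw [h])
      show s ≤ b c + b d + 1
      cases c <;> cases d
      · exact absurd rfl hcd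
      · rw [hbt, hbf]; omega
      · rw [hbt, hbf]; omega
      · exact absurd rfl hcd
  · rintro (i | c) (j | d)
    · exact i.elim0
    · exact i.elim0
    · exact j.elim0
    · show b c / 2 + b d + 1 < s
      have h1 := hbu c
      have h2 := hbu d
      omega
  · rintro (i | c)
    · exact i.elim0
    · show b c + 1 < s
      have h1 := hbu c
      omega
  · rintro (i | c) (j | d)
    · exact i.elim0
    · exact i.elim0
    · exact j.elim0
    · show b c / 2 + b d / 2 + 1 < s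
      have h1 := hbu c
      have h2 := hbu d
      omega

/-- `1.05 s ≤ n` -/
theorem caseB : ∃ s0 : ℕ, ∀ s n q : ℕ, s0 ≤ s → 21 * s ≤ 20 * n → q < n.choose 2 →
    ¬ GP n q (fun G : SimpleGraph (Fin n) => HasPath G s) := by
  obtain ⟨N0, hN0⟩ := NT.nt 3000
  obtain ⟨X0, hX0⟩ := Pool.Agent.H119R2.Kp.prime_between (1 / 25) (by norm_num)
  refine ⟨max (max N0 5000) (2 * X0) + 2, fun s n q hs h20 hq => ?_⟩
  have hs0 := le_max_left (max N0 5000) (2 * X0)
  have hs1 : N0 ≤ max N0 5000 := le_max_left _ _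
  have hs2 : 5000 ≤ max N0 5000 := le_max_right _ _
  have hs3 := le_max_right (max N0 5000) (2 * X0)
  obtain ⟨p, hp, hp1, hp2⟩ := hX0 ((s : ℝ) / 2) (by
    have : ((2 * X0 : ℕ) : ℝ) ≤ (s : ℕ) := by exact_mod_cast (by omega : 2 * X0 ≤ s)
    push_cast at this
    linarith)
  have hp1' : s < 2 * p := by
    have : (s : ℝ) < ((2 * p : ℕ) : ℝ) := by push_cast; linarith
    exact_mod_cast this
  have hp2' : 50 * p < 26 * s := by
    have : ((50 * p : ℕ) : ℝ) < ((26 * s : ℕ) : ℝ) := by push_cast; linarith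
    exact_mod_cast this
  have hpf : Fact p.Prime := ⟨hp⟩
  set k := (20 * n - 21 * s) / (20 * p) with hk
  have hk1 : k * (20 * p) ≤ 20 * n - 21 * s := Nat.div_mul_le_self _ _
  have hk2 : 20 * n - 21 * s < (k + 1) * (20 * p) := by
    calc 20 * n - 21 * s < 20 * p * (k + 1) :=
          Nat.lt_mul_div_succ (20 * n - 21 * s) (show 0 < 20 * p by have := hp.pos; omega)
      _ = (k + 1) * (20 * p) := mul_comm _ _
  have hk1' : 20 * (k * p) ≤ 20 * n - 21 * s := by
    calc 20 * (k * p) = k * (20 * p) := by ring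
      _ ≤ _ := hk1
  have hk2' : 20 * n - 21 * s < 20 * (k * p) + 20 * p := by
    calc 20 * n - 21 * s < (k + 1) * (20 * p) := hk2
      _ = _ := by ring
  obtain ⟨T, hT⟩ : ∃ T, n = k * p + T := ⟨n - k * p, by omega⟩
  have hT1 : 21 * s ≤ 20 * T := by omega
  have hT2 : 20 * T < 21 * s + 20 * p := by omega
  obtain ⟨ρ, N, hρ, hTN, hNe⟩ : ∃ ρ N, (ρ = 1 ∨ ρ = 2) ∧ T = N + ρ ∧ N % 2 = 0 := by
    rcases Nat.mod_two_eq_zero_or_one T with h | h
    · exact ⟨2, T - 2, Or.inr rfl, by omega, by omega⟩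
    · exact ⟨1, T - 1, Or.inl rfl, by omega, by omega⟩
  have hρ1 : 1 ≤ ρ := by omega
  have hρ2 : ρ ≤ 2 := by omega
  obtain ⟨r, hr, hr'⟩ := res_even N hNe
  obtain ⟨e1, e2, e3, e4⟩ := hr' (N / 25) (by omega)
  obtain ⟨t, ht, hsq, hsq', hcop⟩ := hN0 N (by omega) (12 * (N / 25) + r) (N / 1500) (by omega)
    (by omega) (by omega) (by omega) (by omega) e3 e4 (by omega)
  set b0 := 12 * (N / 25) + r + 12 * t with hb0
  have hb1 : b0 ≤ 12 * (N / 25) + 11 + 12 * (N / 1500) := by omega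
  have hb2 : 12 * (N / 25) ≤ b0 := by omega
  have f1 : ¬ 2 ∣ b0 := by omega
  have f2 : ¬ 3 ∣ b0 := by omega
  have hb0N : b0 ≤ N := by omega
  have f3 : ¬ 2 ∣ N - b0 := by omega
  have f4 : ¬ 3 ∣ N - b0 := by omega
  let b : Bool → ℕ := fun c => if c then b0 else N - b0
  have hbt : b true = b0 := rfl
  have hbf : b false = N - b0 := rfl
  have hN1 : 100 * N ≤ 157 * s := by omega
  have hN2 : 21 * s ≤ 20 * N + 40 := by omega
  have hbl : ∀ c, 25 * b c ≥ 12 * N - 300 := by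
    intro c
    cases c
    · rw [hbf]; omega
    · rw [hbt]; omega
  have hbu : ∀ c, 25 * b c ≤ 13 * N + 300 := by
    intro c
    cases c
    · rw [hbf]; omega
    · rw [hbt]; omega
  have hb2' : ∀ c, 2 ≤ b c := by
    intro c
    have := hbl c
    omega
  have hbs : ∀ c, s ≤ 2 * b c := by
    intro c
    have := hbl c
    omega
  have hbu' : ∀ c, 1000 * b c ≤ 820 * s := by
    intro c
    have := hbu c
    omega
  have hsqb : ∀ c, Squarefree (b c) := by
    intro c
    cases c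
    · exact hsq'
    · exact hsq
  have hg5 : ∀ c g, g ∣ b c → g ≠ 1 → b c / g ≤ b c / 5 := by
    intro c g hg hg1
    have h2 : ¬ 2 ∣ b c := by
      cases c
      · exact f3
      · exact f1
    have h3 : ¬ 3 ∣ b c := by
      cases c
      · exact f4
      · exact f2
    have hg0 : g ≠ 0 := by
      rintro rfl
      have := hb2' c
      have h0 := Nat.eq_zero_of_zero_dvd hg
      omega
    have hg2 : g ≠ 2 := by
      rintro rfl
      exact h2 hg
    have hg3 : g ≠ 3 := by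
      rintro rfl
      exact h3 hg
    have hg4 : g ≠ 4 := by
      rintro rfl
      exact h2 ((by norm_num : (2 : ℕ) ∣ 4).trans hg)
    exact Nat.div_le_div_left (by omega) (by norm_num)
  have hszl : ∀ i : Fin k ⊕ Bool, s ≤ 2 * sz p b i := by
    rintro (i | c)
    · show s ≤ 2 * p
      omega
    · exact hbs c
  have hszu : ∀ i : Fin k ⊕ Bool, 1000 * sz p b i ≤ 820 * s := by
    rintro (i | c)
    · show 1000 * p ≤ 820 * s
      omega
    · exact hbu' c
  have hcbu : ∀ i : Fin k ⊕ Bool, 1000 * cb (P := Fin k) (fun c => b c / 5) i ≤ 164 * s := by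
    rintro (i | c)
    · show 1000 * 1 ≤ 164 * s
      omega
    · show 1000 * (b c / 5) ≤ 164 * s
      have := hbu' c
      omega
  have n1 : ∀ i j : Fin k ⊕ Bool, i ≠ j → s ≤ sz p b i + sz p b j + 1 := by
    intro i j _
    have h1 := hszl i
    have h2 := hszl j
    omega
  have n2 : ∀ i j : Fin k ⊕ Bool, cb (P := Fin k) (fun c => b c / 5) i + sz p b j + 2 < s := by
    intro i j
    have h1 := hcbu i
    have h2 := hszu j
    omega
  have n3 : ∀ i : Fin k ⊕ Bool, sz p b i + 2 < s := by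
    intro i
    have h2 := hszu i
    omega
  have n5 : ∀ i : Fin k ⊕ Bool, s ≤ 2 * sz p b i + 1 := by
    intro i
    have h1 := hszl i
    omega
  have n6 : ∀ i j : Fin k ⊕ Bool, cb (P := Fin k) (fun c => b c / 5) i +
      cb (P := Fin k) (fun c => b c / 5) j + 2 < s := by
    intro i j
    have h1 := hcbu i
    have h2 := hcbu j
    omega
  rcases hρ with rfl | rfl
  · refine block_one (k := k) (p := p) b (fun c => b c / 5) hb2' hsqb hcop hg5 ?_ hq n1 ?_ ?_ ?_
      (by omega)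
    · rw [hbt, hbf]
      omega
    · intro i j
      have := n2 i j
      omega
    · intro i
      have := n3 i
      omega
    · intro i j
      have := n6 i j
      omega
  · refine block_two (k := k) (p := p) b (fun c => b c / 5) hb2' hsqb hcop hg5 ?_ hq n1 n2 n3 n5 n6
      (by omega)
    rw [hbt, hbf]
    omega

/-- large `s` -/
theorem big : ∃ s0 : ℕ, ∀ s n q : ℕ, s0 ≤ s → s ≤ n → q < n.choose 2 →
    ¬ GP n q (fun G : SimpleGraph (Fin n) => HasPath G s) := by
  obtain ⟨sA, hA⟩ := caseA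
  obtain ⟨sB, hB⟩ := caseB
  refine ⟨max sA sB, fun s n q hs hsn hq => ?_⟩
  rcases Nat.lt_or_ge (20 * n) (21 * s) with h | h
  · exact hA s n q ((le_max_left _ _).trans hs) hsn h hq
  · exact hB s n q ((le_max_right _ _).trans hs) h hq

end Pool.Agent.TH669.KP
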