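import Mathlib

set_option autoImplicit false

/-!
# Hamiltonian paths in Cayley graphs of finite abelian groups
-/

namespace Pool.Agent.TH669.KP

open List

section

variable {A : Type} [AddCommGroup A] [Finite A]

/-- steps of a Cayley graph -/
def Stp (T : Set A) (x y : A) : Prop := y - x ∈ T ∨ x - y ∈ T

omit [Finite A] in
/-- one more generator -/
theorem ham_step (T : Set A) (a : A) (H : AddSubgroup A) (L : List A) (hnd : L.Nodup)
    (hmem : ∀ x, x ∈ L ↔ x ∈ H) (hhead : L.head? = some 0) (hch : L.IsChain (Stp T)) (t : ℕ)
    (ht : ∀ i, 0 < i → i < t → i • a ∉ H) (j : ℕ) (hj : j < t) :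
    ∃ (M : List A) (e : A), M.Nodup ∧ M.head? = some 0 ∧
      (∀ x, x ∈ M ↔ ∃ i, i ≤ j ∧ x - i • a ∈ H) ∧ M.IsChain (Stp (insert a T)) ∧
      M.getLast? = some e ∧ e - j • a ∈ H := by
  have hsub : ∀ x y : A, Stp T x y → Stp (insert a T) x y := by
    intro x y h
    rcases h with h | h
    · exact Or.inl (Set.mem_insert_of_mem _ h)
    · exact Or.inr (Set.mem_insert_of_mem _ h)
  have hLne : L ≠ [] := by
    rintro rfl
    simp at hhead
  induction j with
  | zero =>
    refine ⟨L, L.getLast hLne, hnd, hhead, ?_, hch.imp hsub, List.getLast?_eq_getLast_of_ne_nil hLne,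
      ?_⟩
    · intro x
      rw [hmem]
      constructor
      · intro h
        exact ⟨0, le_rfl, by simpa using h⟩
      · rintro ⟨i, hi, h⟩
        have : i = 0 := by omega
        subst this
        simpa using h
    · rw [zero_smul, sub_zero, ← hmem]
      exact List.getLast_mem hLne
  | succ j ih =>
    obtain ⟨M, e, h1, h2, h3, h4, h5, h6⟩ := ih (by omega)
    have hcos : ∀ x, x ∈ L.map (fun z => z + (e + a)) ↔ x - (j + 1) • a ∈ H := by
      intro x
      rw [List.mem_map]
      constructor
      · rintro ⟨z, hz, rfl⟩
        rw [hmem] at hz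
        have : z + (e + a) - (j + 1) • a = z + (e - j • a) := by
          rw [succ_nsmul]
          abel
        rw [this]
        exact H.add_mem hz h6
      · intro h
        refine ⟨x - (e + a), ?_, by abel⟩
        rw [hmem]
        have : x - (e + a) = (x - (j + 1) • a) - (e - j • a) := by
          rw [succ_nsmul]
          abel
        rw [this]
        exact H.sub_mem h h6
    refine ⟨M ++ L.map (fun z => z + (e + a)), (L.map (fun z => z + (e + a))).getLast (by simpa using hLne),
      ?_, ?_, ?_, ?_, ?_, ?_⟩
    · rw [List.nodup_append]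
      refine ⟨h1, hnd.map (add_left_injective _), ?_⟩
      intro x hx y hy hxy
      subst hxy
      rw [h3] at hx
      rw [hcos] at hy
      obtain ⟨i, hi, hx⟩ := hx
      refine ht (j + 1 - i) (by omega) (by omega) ?_
      have h7 : (j + 1 - i) • a = (x - i • a) - (x - (j + 1) • a) := by
        have h8 : (j + 1) • a = (j + 1 - i) • a + i • a := by
          rw [← add_nsmul]
          congr 1
          omega
        rw [h8]
        abel
      rw [h7]
      exact H.sub_mem hx hy
    · rw [List.head?_append, h2]
      rfl
    · intro x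
      rw [List.mem_append, h3, hcos]
      constructor
      · rintro (⟨i, hi, h⟩ | h)
        · exact ⟨i, by omega, h⟩
        · exact ⟨j + 1, le_rfl, h⟩
      · rintro ⟨i, hi, h⟩
        rcases Nat.lt_or_ge j i with h' | h'
        · have : i = j + 1 := by omega
          subst this
          exact Or.inr h
        · exact Or.inl ⟨i, h', h⟩
    · rw [List.isChain_append]
      refine ⟨h4, ?_, ?_⟩
      · refine List.isChain_map_of_isChain _ ?_ (hch.imp hsub)
        intro x y h
        unfold Stp at h ⊢
        have e1 : y + (e + a) - (x + (e + a)) = y - x := by abel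
        have e2 : x + (e + a) - (y + (e + a)) = x - y := by abel
        rw [e1, e2]
        exact h
      · intro x hx y hy
        rw [h5] at hx
        rw [List.head?_map, hhead] at hy
        have hx' : e = x := by simpa using hx
        have hy' : e + a = y := by simpa using hy
        subst hx' hy'
        left
        rw [add_sub_cancel_left]
        exact Set.mem_insert _ _
    · rw [List.getLast?_append, List.getLast?_eq_getLast_of_ne_nil (by simpa using hLne)]
      rfl
    · rw [← hcos]
      exact List.getLast_mem _

/-- the subgroup generated by a finite set has a Hamiltonian path -/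
theorem ham_closure (T : Finset A) : ∃ L : List A, L.Nodup ∧ L.head? = some 0 ∧
    (∀ x, x ∈ L ↔ x ∈ AddSubgroup.closure (T : Set A)) ∧ L.IsChain (Stp (T : Set A)) := by
  classical
  induction T using Finset.induction_on with
  | empty =>
    refine ⟨[0], by simp, by simp, ?_, by simp⟩
    intro x
    simp
  | insert a T ha ih =>
    obtain ⟨L, h1, h2, h3, h4⟩ := ih
    set H := AddSubgroup.closure (T : Set A) with hH
    have hex : ∃ t : ℕ, 0 < t ∧ t • a ∈ H :=
      ⟨addOrderOf a, addOrderOf_pos a, by rw [addOrderOf_nsmul_eq_zero]; exact H.zero_mem⟩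
    set t := Nat.find hex with ht
    have ht1 := Nat.find_spec hex
    have ht2 : ∀ i, 0 < i → i < t → i • a ∉ H := by
      intro i hi hit hmem
      exact Nat.find_min hex hit ⟨hi, hmem⟩
    obtain ⟨M, e, m1, m2, m3, m4, m5, m6⟩ := ham_step (T : Set A) a H L h1 h3 h2 h4 t ht2 (t - 1)
      (by omega)
    refine ⟨M, m1, m2, ?_, by rw [Finset.coe_insert]; exact m4⟩
    intro x
    rw [m3, Finset.coe_insert]
    constructor
    · rintro ⟨i, _, h⟩
      have h5 : H ≤ AddSubgroup.closure (insert a (T : Set A)) :=
        AddSubgroup.closure_mono (Set.subset_insert _ _)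
      have h6 : x = (x - i • a) + i • a := by abel
      rw [h6]
      exact AddSubgroup.add_mem _ (h5 h)
        (AddSubgroup.nsmul_mem _ (AddSubgroup.subset_closure (Set.mem_insert _ _)) _)
    · intro hx
      have h5 : ∃ z : ℤ, x - z • a ∈ H := by
        rw [Set.insert_eq, AddSubgroup.closure_union, AddSubgroup.mem_sup] at hx
        obtain ⟨y, hy, z, hz, rfl⟩ := hx
        rw [AddSubgroup.mem_closure_singleton] at hy
        obtain ⟨n, rfl⟩ := hy
        refine ⟨n, ?_⟩
        rw [add_sub_cancel_left]
        exact hz
      obtain ⟨z, hz⟩ := h5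
      have htpos : (0 : ℤ) < t := by exact_mod_cast ht1.1
      have hm0 := Int.emod_nonneg z htpos.ne'
      have hm1 := Int.emod_lt_of_pos z htpos
      refine ⟨(z % t).toNat, by omega, ?_⟩
      have h6 : ((z % t).toNat : ℤ) = z % t := Int.toNat_of_nonneg hm0
      have h7 : (z % t).toNat • a = (z % t) • a := by
        rw [← natCast_zsmul, h6]
      rw [h7]
      have h8 : x - (z % t) • a = (x - z • a) + (z / t) • (t • a) := by
        have h9 : z • a = (z % t) • a + (z / t) • (t • a) := by
          conv_lhs => rw [← Int.emod_add_mul_ediv z t]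
          rw [add_zsmul, mul_comm, mul_zsmul, natCast_zsmul]
        rw [h9]
        abel
      rw [h8]
      exact H.add_mem hz (H.zsmul_mem ht1.2 _)

end

end Pool.Agent.TH669.KP
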