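import Pool.Agent.TH669.KP.Sign
import Pool.Agent.TH669.KP.HamPath

set_option autoImplicit false

/-!
# Circulant graphs: classes of differences, Hamiltonian paths, Moebius evaluation
-/

namespace Pool.Agent.TH669.KP

open Finset

section

variable {b : ℕ} [NeZero b]

/-- the class of a difference -/
def cl (z : ZMod b) : Option (Fin (b / 2)) :=
  if h : z.valMinAbs.natAbs = 0 then none
  else some ⟨z.valMinAbs.natAbs - 1, by have := ZMod.natAbs_valMinAbs_le z; omega⟩

theorem cl_zero : cl (0 : ZMod b) = none := by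
  unfold cl
  simp

theorem cl_ne_none {z : ZMod b} (hz : z ≠ 0) : cl z ≠ none := by
  unfold cl
  rw [dif_neg]
  · simp
  · rw [Int.natAbs_eq_zero, ZMod.valMinAbs_eq_zero]
    exact hz

theorem cl_neg (z : ZMod b) : cl (-z) = cl z := by
  unfold cl
  simp only [ZMod.natAbs_valMinAbs_neg]

theorem cl_some {z : ZMod b} {d : Fin (b / 2)} :
    cl z = some d ↔ z.valMinAbs.natAbs = d.val + 1 := by
  unfold cl
  split_ifs with h
  · simp only [false_iff]
    omega
  · rw [Option.some_inj, Fin.ext_iff]
    simp only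
    omega

theorem cl_inj {z z' : ZMod b} {d : Fin (b / 2)} (h : cl z = some d) (h' : cl z' = some d) :
    z = z' ∨ z = -z' := by
  rw [cl_some] at h h'
  exact ZMod.natAbs_valMinAbs_eq_natAbs_valMinAbs.1 (h.trans h'.symm)

theorem cl_natCast (d : Fin (b / 2)) : cl ((d.val + 1 : ℕ) : ZMod b) = some d := by
  rw [cl_some, ZMod.valMinAbs_natCast_of_le_half (by have := d.2; omega)]
  rfl

theorem cl_eq {z : ZMod b} {d : Fin (b / 2)} (h : cl z = some d) :
    z = ((d.val + 1 : ℕ) : ZMod b) ∨ z = -((d.val + 1 : ℕ) : ZMod b) :=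
  cl_inj h (cl_natCast d)

/-- the circulant graph of a set of classes -/
def circ (χ : Fin (b / 2) → Bool) : SimpleGraph (ZMod b) where
  Adj x y := ∃ d, cl (x - y) = some d ∧ χ d = true
  symm := ⟨fun x y h => by
    rw [← cl_neg, neg_sub]
    exact h⟩
  loopless := ⟨fun x h => by
    rw [sub_self, cl_zero] at h
    obtain ⟨d, hd, _⟩ := h
    cases hd⟩

theorem circ_adj (χ : Fin (b / 2) → Bool) (x y : ZMod b) :
    (circ χ).Adj x y ↔ ∃ d, cl (x - y) = some d ∧ χ d = true := Iff.rfl

/-- connectedness of the circulant graph, in terms of divisors -/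
def Wh (χ : Fin (b / 2) → Bool) : Prop :=
  ∀ g : ℕ, g ∣ b → (∀ d, χ d = true → g ∣ d.val + 1) → g = 1

/-- a connected circulant graph has a Hamiltonian path -/
theorem circ_ham (χ : Fin (b / 2) → Bool) (h : Wh χ) :
    ∃ l : List (ZMod b), l.Nodup ∧ (∀ x, x ∈ l) ∧ l.IsChain (circ χ).Adj := by
  classical
  obtain ⟨L, h1, h2, h3, h4⟩ := ham_closure (A := ZMod b)
    ((univ.filter fun d => χ d = true).image fun d : Fin (b / 2) => ((d.val + 1 : ℕ) : ZMod b))
  set T : Set (ZMod b) := (((univ.filter fun d => χ d = true).image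
    fun d : Fin (b / 2) => ((d.val + 1 : ℕ) : ZMod b) : Finset (ZMod b)) : Set (ZMod b)) with hT
  have hmemT : ∀ z : ZMod b, z ∈ T ↔ ∃ d, χ d = true ∧ ((d.val + 1 : ℕ) : ZMod b) = z := by
    intro z
    rw [hT, Finset.mem_coe, Finset.mem_image]
    simp
  -- the subgroup is everything
  have htop : AddSubgroup.closure T = ⊤ := by
    obtain ⟨m, hm⟩ := Int.subgroup_cyclic
      ((AddSubgroup.closure T).comap (Int.castAddHom (ZMod b)))
    have hmem : ∀ z : ℤ, ((z : ℤ) : ZMod b) ∈ AddSubgroup.closure T ↔ m ∣ z := by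
      intro z
      have h5 : z ∈ (AddSubgroup.closure T).comap (Int.castAddHom (ZMod b)) ↔
          ((z : ℤ) : ZMod b) ∈ AddSubgroup.closure T := Iff.rfl
      rw [← h5, hm, AddSubgroup.mem_closure_singleton]
      constructor
      · rintro ⟨n, rfl⟩
        exact ⟨n, by simp [mul_comm]⟩
      · rintro ⟨n, rfl⟩
        exact ⟨n, by simp [mul_comm]⟩
    have h6 : m.natAbs = 1 := by
      refine h m.natAbs ?_ ?_
      · have h7 := (hmem (b : ℤ)).1 (by
          have : (((b : ℕ) : ℤ) : ZMod b) = 0 := by simp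
          rw [this]
          exact AddSubgroup.zero_mem _)
        have h8 := Int.natAbs_dvd_natAbs.2 h7
        rwa [Int.natAbs_natCast] at h8
      · intro d hd
        have h7 := (hmem ((d.val + 1 : ℕ) : ℤ)).1 (by
          refine AddSubgroup.subset_closure ?_
          rw [hmemT]
          exact ⟨d, hd, by push_cast; ring⟩)
        have h8 := Int.natAbs_dvd_natAbs.2 h7
        rwa [Int.natAbs_natCast] at h8
    rw [eq_top_iff]
    intro z _
    have h9 := (hmem (z.val : ℤ)).2 (by
      rw [← Int.natAbs_dvd, h6]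
      simp)
    simpa using h9
  refine ⟨L, h1, fun x => (h3 x).2 (by rw [htop]; trivial), ?_⟩
  refine h4.imp fun x y hxy => ?_
  rw [circ_adj]
  rcases hxy with hxy | hxy
  · obtain ⟨d, hd, hd'⟩ := (hmemT _).1 hxy
    refine ⟨d, ?_, hd⟩
    rw [← cl_neg, neg_sub, ← hd']
    exact cl_natCast d
  · obtain ⟨d, hd, hd'⟩ := (hmemT _).1 hxy
    refine ⟨d, ?_, hd⟩
    rw [← hd']
    exact cl_natCast d

/-- a disconnected circulant graph has small components -/
theorem circ_label (χ : Fin (b / 2) → Bool) (h : ¬ Wh χ) :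
    ∃ g : ℕ, g ∣ b ∧ g ≠ 1 ∧ (∀ x y, (circ χ).Adj x y → x.val % g = y.val % g) ∧
      ∀ (r : ℕ) (l : List (ZMod b)), l.Nodup → (∀ x ∈ l, x.val % g = r) → l.length ≤ b / g := by
  classical
  unfold Wh at h
  push Not at h
  obtain ⟨g, hgb, hg, hg1⟩ := h
  have hb0 : 0 < b := Nat.pos_of_ne_zero (NeZero.ne b)
  have hg0 : 0 < g := Nat.pos_of_dvd_of_pos hgb hb0
  refine ⟨g, hgb, hg1, ?_, ?_⟩
  · intro x y hxy
    rw [circ_adj] at hxy
    obtain ⟨d, hd, hχ⟩ := hxy
    have h1 : ((x - y : ZMod b)).cast = (0 : ZMod g) := by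
      have h2 : ((d.val + 1 : ℕ) : ZMod g) = 0 := by
        rw [ZMod.natCast_eq_zero_iff]
        exact hg d hχ
      rcases cl_eq hd with h3 | h3
      · rw [h3, ZMod.cast_natCast hgb, h2]
      · rw [h3, ZMod.cast_neg hgb, ZMod.cast_natCast hgb, h2, neg_zero]
    rw [ZMod.cast_sub hgb, sub_eq_zero] at h1
    have h4 : ((x.val : ℕ) : ZMod g) = ((y.val : ℕ) : ZMod g) := by
      rw [ZMod.natCast_val, ZMod.natCast_val]
      exact h1
    exact (ZMod.natCast_eq_natCast_iff _ _ _).1 h4
  · intro r l hl hr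
    have h1 : l.length = (l.map fun x => x.val / g).length := by simp
    have h2 : (l.map fun x => x.val / g).Nodup := by
      refine List.Nodup.map_on ?_ hl
      intro x hx y hy hxy
      apply ZMod.val_injective b
      rw [← Nat.div_add_mod x.val g, ← Nat.div_add_mod y.val g, hxy, hr x hx, hr y hy]
    rw [h1, ← List.toFinset_card_of_nodup h2]
    have h3 : (l.map fun x => x.val / g).toFinset ⊆ Finset.range (b / g) := by
      intro z hz
      rw [List.mem_toFinset, List.mem_map] at hz
      obtain ⟨x, _, rfl⟩ := hz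
      rw [Finset.mem_range]
      rw [Nat.div_lt_iff_lt_mul hg0, Nat.div_mul_cancel hgb]
      exact ZMod.val_lt x
    simpa using Finset.card_le_card h3

/-- the signed number of connected circulant graphs -/
theorem sum_wh : ∑ χ : Fin (b / 2) → Bool, sgn χ * bit (Wh χ) =
    ArithmeticFunction.moebius b := by
  classical
  have hb0 : 0 < b := Nat.pos_of_ne_zero (NeZero.ne b)
  have h1 : ∀ χ : Fin (b / 2) → Bool, bit (Wh χ) = ∑ g ∈ b.divisors,
      ArithmeticFunction.moebius g * bit (∀ d, χ d = true → g ∣ d.val + 1) := by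
    intro χ
    set G := Nat.gcd b ((univ.filter fun d => χ d = true).gcd fun d : Fin (b / 2) => d.val + 1)
      with hG
    have hdv : ∀ g, g ∣ b → ((∀ d, χ d = true → g ∣ d.val + 1) ↔ g ∣ G) := by
      intro g hg
      rw [hG, Nat.dvd_gcd_iff, Finset.dvd_gcd_iff]
      simp [hg]
    have hG0 : 0 < G := Nat.gcd_pos_of_pos_left _ hb0
    have h2 : ∑ g ∈ b.divisors, ArithmeticFunction.moebius g *
        bit (∀ d, χ d = true → g ∣ d.val + 1) = ∑ g ∈ G.divisors, ArithmeticFunction.moebius g := by
      rw [← Finset.sum_filter_add_sum_filter_not b.divisors (fun g => g ∣ G)]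
      have h3 : ∑ g ∈ b.divisors.filter (fun g => ¬ g ∣ G), ArithmeticFunction.moebius g *
          bit (∀ d, χ d = true → g ∣ d.val + 1) = 0 := by
        refine Finset.sum_eq_zero fun g hg => ?_
        rw [Finset.mem_filter, Nat.mem_divisors] at hg
        rw [bit_neg, mul_zero]
        rw [hdv g hg.1.1]
        exact hg.2
      have h4 : b.divisors.filter (fun g => g ∣ G) = G.divisors := by
        ext g
        rw [Finset.mem_filter, Nat.mem_divisors, Nat.mem_divisors]
        constructor
        · rintro ⟨_, h⟩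
          exact ⟨h, hG0.ne'⟩
        · rintro ⟨h, _⟩
          exact ⟨⟨h.trans (Nat.gcd_dvd_left _ _), hb0.ne'⟩, h⟩
      rw [h3, add_zero, h4]
      refine Finset.sum_congr rfl fun g hg => ?_
      rw [Nat.mem_divisors] at hg
      rw [bit_pos, mul_one]
      rw [hdv g (hg.1.trans (Nat.gcd_dvd_left _ _))]
      exact hg.1
    rw [h2, ← ArithmeticFunction.coe_mul_zeta_apply, ArithmeticFunction.moebius_mul_coe_zeta,
      ArithmeticFunction.one_apply]
    by_cases hG1 : G = 1
    · rw [if_pos hG1, bit_pos]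
      intro g hg hg'
      have := (hdv g hg).1 hg'
      rw [hG1] at this
      exact Nat.dvd_one.1 this
    · rw [if_neg hG1, bit_neg]
      intro hW
      exact hG1 (hW G (Nat.gcd_dvd_left _ _) ((hdv G (Nat.gcd_dvd_left _ _)).2 dvd_rfl))
  have h2 : ∑ χ : Fin (b / 2) → Bool, sgn χ * bit (Wh χ) = ∑ g ∈ b.divisors,
      ArithmeticFunction.moebius g * ∑ χ : Fin (b / 2) → Bool,
        sgn χ * bit (∀ d, χ d = true → g ∣ d.val + 1) := by
    simp_rw [h1, Finset.mul_sum]
    rw [Finset.sum_comm]
    refine Finset.sum_congr rfl fun g _ => Finset.sum_congr rfl fun χ _ => ?_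
    ring
  rw [h2, Finset.sum_eq_single b]
  · have h3 : ∑ χ : Fin (b / 2) → Bool, sgn χ * bit (∀ d, χ d = true → b ∣ d.val + 1) = 1 := by
      rw [Finset.sum_eq_single (fun _ => false)]
      · rw [bit_pos (by simp)]
        simp [sgn]
      · intro χ _ hχ
        rw [bit_neg, mul_zero]
        intro hd
        apply hχ
        funext d
        by_contra hne
        have h4 := Nat.le_of_dvd (by omega) (hd d (by simpa using hne))
        have h5 := d.2
        omega
      · intro h
        exact absurd (Finset.mem_univ _) h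
    rw [h3, mul_one]
  · intro g hg hgb
    rw [Nat.mem_divisors] at hg
    have hg0 : 0 < g := Nat.pos_of_dvd_of_pos hg.1 hb0
    have hg2 : g ≤ b / 2 := by
      obtain ⟨k, hk⟩ := hg.1
      have hk2 : 2 ≤ k := by
        rcases k with _ | _ | k
        · omega
        · omega
        · omega
      rw [Nat.le_div_iff_mul_le (by norm_num), hk]
      exact Nat.mul_le_mul_left g hk2
    rw [toggle_zero _ (⟨g - 1, by omega⟩ : Fin (b / 2)), mul_zero]
    intro χ
    refine bit_congr ?_
    constructor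
    · intro hd d hχ
      by_cases hdg : d = ⟨g - 1, by omega⟩
      · subst hdg
        show g ∣ g - 1 + 1
        rw [Nat.sub_add_cancel hg0]
      · exact hd d (by rw [Function.update_of_ne hdg]; exact hχ)
    · intro hd d hχ
      by_cases hdg : d = ⟨g - 1, by omega⟩
      · subst hdg
        show g ∣ g - 1 + 1
        rw [Nat.sub_add_cancel hg0]
      · exact hd d (by rw [Function.update_of_ne hdg] at hχ; exact hχ)
  · intro h
    exact absurd (Nat.mem_divisors.2 ⟨dvd_rfl, hb0.ne'⟩) h

end

end Pool.Agent.TH669.KP
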