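import Mathlib

set_option autoImplicit false

/-!
# Long paths in a graph with few cut vertices
-/

namespace Pool.Agent.TH669.KP

open List

section

variable {F U C : Type}

theorem decomp (l : List (F ⊕ U)) :
    (∃ A : List U, l = A.map Sum.inr) ∨
      ∃ (A : List U) (w : F) (B : List (F ⊕ U)), l = A.map Sum.inr ++ Sum.inl w :: B := by
  induction l with
  | nil => exact Or.inl ⟨[], rfl⟩
  | cons a l ih =>
    rcases a with w | u
    · exact Or.inr ⟨[], w, l, rfl⟩
    · rcases ih with ⟨A, rfl⟩ | ⟨A, w, B, rfl⟩
      · exact Or.inl ⟨u :: A, rfl⟩
      · exact Or.inr ⟨u :: A, w, B, rfl⟩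

theorem seg (G : SimpleGraph (F ⊕ U)) (c : U → C)
    (hc : ∀ u v : U, G.Adj (Sum.inr u) (Sum.inr v) → c u = c v) (a : U) (A : List U)
    (h : (((a :: A).map Sum.inr : List (F ⊕ U))).IsChain G.Adj) : ∀ u ∈ a :: A, c u = c a := by
  induction A generalizing a with
  | nil =>
    intro u hu
    rw [List.mem_singleton] at hu
    rw [hu]
  | cons b A ih =>
    rw [List.map_cons, List.map_cons, List.isChain_cons_cons] at h
    have h1 := hc a b h.1
    have h2 := ih b (by rw [List.map_cons]; exact h.2)
    intro u hu
    rw [List.mem_cons] at hu
    rcases hu with rfl | hu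
    · rfl
    · rw [h2 u hu, h1]

/-- A path in a graph on `F ⊕ U` in which the vertices of `U` have labels, adjacent vertices of `U`
have the same label, the vertices of `U` with the label `x` are adjacent only to the vertex `φ x` of
`F`, and `F` has at most two elements. -/
theorem path_bound (G : SimpleGraph (F ⊕ U)) (c : U → C) (σ : C → ℕ) (φ : C → F)
    (hc : ∀ u v : U, G.Adj (Sum.inr u) (Sum.inr v) → c u = c v)
    (hσ : ∀ x : C, ∀ l : List U, l.Nodup → (∀ u ∈ l, c u = x) → l.length ≤ σ x)
    (hφ : ∀ w u, G.Adj (Sum.inl w) (Sum.inr u) → φ (c u) = w)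
    (hF : ∀ w1 w2 w3 : F, w1 = w2 ∨ w1 = w3 ∨ w2 = w3) (ρ : ℕ) (hρ1 : 1 ≤ ρ)
    (hρ2 : ∀ w w' : F, w ≠ w' → 2 ≤ ρ)
    (l : List (F ⊕ U)) (hnd : l.Nodup) (hch : l.IsChain G.Adj) :
    l.length ≤ ρ ∨ (∃ x : C, l.length ≤ σ x + ρ) ∨
      ∃ x y : C, x ≠ y ∧ l.length ≤ σ x + σ y + ρ ∧
        (φ x = φ y ∨ G.Adj (Sum.inl (φ x)) (Sum.inl (φ y))) := by
  have hndU : ∀ A : List U, ((A.map Sum.inr : List (F ⊕ U))).Nodup → A.Nodup := by
    intro A h
    exact List.Nodup.of_map _ h
  -- the end of a segment before `w`
  have hlast : ∀ (A : List U) (w : F), A ≠ [] →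
      ((A.map Sum.inr ++ [Sum.inl w] : List (F ⊕ U))).IsChain G.Adj →
      ∃ x, φ x = w ∧ ∀ u ∈ A, c u = x := by
    intro A w hA h
    obtain ⟨a, A', rfl⟩ := List.exists_cons_of_ne_nil hA
    have h1 := seg G c hc a A' h.left_of_append
    refine ⟨c a, ?_, h1⟩
    rw [List.isChain_append] at h
    have h2 := h.2.2
    have h3 : ∃ b, b ∈ ((a :: A').map Sum.inr : List (F ⊕ U)).getLast? := by
      rw [List.getLast?_map]
      cases h4 : (a :: A').getLast? with
      | none => simp at h4
      | some v => exact ⟨Sum.inr v, by simp⟩
    obtain ⟨b, hb⟩ := h3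
    have hb' : b ∈ ((a :: A').map Sum.inr : List (F ⊕ U)) := List.mem_of_getLast? hb
    rw [List.mem_map] at hb'
    obtain ⟨v, hv, rfl⟩ := hb'
    have h5 := h2 _ hb (Sum.inl w) (by simp)
    rw [← h1 v hv]
    exact hφ w v h5.symm
  -- the start of a segment after `w`
  have hfirst : ∀ (B : List U) (w : F), B ≠ [] →
      ((Sum.inl w :: B.map Sum.inr : List (F ⊕ U))).IsChain G.Adj →
      ∃ x, φ x = w ∧ ∀ u ∈ B, c u = x := by
    intro B w hB h
    obtain ⟨b, B', rfl⟩ := List.exists_cons_of_ne_nil hB
    rw [List.map_cons, List.isChain_cons_cons] at h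
    have h1 := seg G c hc b B' (by rw [List.map_cons]; exact h.2)
    exact ⟨c b, hφ w b h.1, h1⟩
  rcases decomp l with ⟨A, rfl⟩ | ⟨A, w, B', rfl⟩
  · -- no vertex of `F`
    rcases A with _ | ⟨a, A⟩
    · left
      simp
    · right; left
      refine ⟨c a, ?_⟩
      have := hσ (c a) (a :: A) (hndU _ hnd) (seg G c hc a A hch)
      rw [List.length_map]
      omega
  · have hchA : (A.map Sum.inr ++ [Sum.inl w] : List (F ⊕ U)).IsChain G.Adj := by
      have := (List.isChain_split (c := Sum.inl w)).1 hch
      exact this.1
    have hchB : (Sum.inl w :: B').IsChain G.Adj := by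
      have := (List.isChain_split (c := Sum.inl w)).1 hch
      exact this.2
    have hndA : A.Nodup := hndU A (List.Nodup.of_append_left hnd)
    rcases decomp B' with ⟨B, rfl⟩ | ⟨M, w', B'', rfl⟩
    · -- one vertex of `F`
      have hndB : B.Nodup := hndU B (List.Nodup.of_cons (List.Nodup.of_append_right hnd))
      by_cases hA : A = []
      · by_cases hB : B = []
        · left
          subst hA hB
          simpa using hρ1
        · right; left
          obtain ⟨x, _, hx⟩ := hfirst B w hB hchB
          refine ⟨x, ?_⟩
          have := hσ x B hndB hx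
          subst hA
          simp
          omega
      · obtain ⟨x, hxw, hx⟩ := hlast A w hA hchA
        by_cases hB : B = []
        · right; left
          refine ⟨x, ?_⟩
          have := hσ x A hndA hx
          subst hB
          simp
          omega
        · obtain ⟨y, hyw, hy⟩ := hfirst B w hB hchB
          right
          by_cases hxy : x = y
          · left
            subst hxy
            refine ⟨x, ?_⟩
            have h1 : (A ++ B).Nodup := by
              apply hndU
              rw [List.map_append]
              refine hnd.sublist ?_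
              exact List.Sublist.append_left (List.sublist_cons_self _ _) _
            have := hσ x (A ++ B) h1 (by
              intro u hu
              rw [List.mem_append] at hu
              rcases hu with h | h
              · exact hx u h
              · exact hy u h)
            simp at this ⊢
            omega
          · right
            refine ⟨x, y, hxy, ?_, Or.inl (hxw.trans hyw.symm)⟩
            have h1 := hσ x A hndA hx
            have h2 := hσ y B hndB hy
            simp
            omega
    · -- two vertices of `F`
      have hww : w ≠ w' := by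
        rintro rfl
        have h1 := List.Nodup.of_append_right hnd
        rw [List.nodup_cons] at h1
        exact h1.1 (by simp)
      have hρ := hρ2 w w' hww
      have hB'' : ∃ B : List U, B'' = B.map Sum.inr := by
        rcases decomp B'' with h | ⟨B, w'', B3, rfl⟩
        · exact h
        · exfalso
          have h1 := List.Nodup.of_append_right hnd
          rw [List.nodup_cons] at h1
          have h2 := List.Nodup.of_append_right h1.2
          rw [List.nodup_cons] at h2
          rcases hF w w' w'' with rfl | rfl | rfl
          · exact hww rfl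
          · exact h1.1 (by simp)
          · exact h2.1 (by simp)
      obtain ⟨B, rfl⟩ := hB''
      have hM : M = [] := by
        by_contra hM
        obtain ⟨x, hx, hx'⟩ := hlast M w' hM (by
          have h1 : (Sum.inl w :: (M.map Sum.inr ++ Sum.inl w' :: B.map Sum.inr) : List (F ⊕ U)) =
            (Sum.inl w :: M.map Sum.inr) ++ Sum.inl w' :: B.map Sum.inr := by simp
          rw [h1] at hchB
          have h2 := ((List.isChain_split (c := Sum.inl w')).1 hchB).1
          rw [List.cons_append] at h2
          exact h2.of_cons)
        obtain ⟨y, hy, hy'⟩ := hfirst M w hM (by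
          have h1 : (Sum.inl w :: (M.map Sum.inr ++ Sum.inl w' :: B.map Sum.inr) : List (F ⊕ U)) =
            (Sum.inl w :: M.map Sum.inr) ++ Sum.inl w' :: B.map Sum.inr := by simp
          rw [h1] at hchB
          exact hchB.left_of_append)
        obtain ⟨m, M', rfl⟩ := List.exists_cons_of_ne_nil hM
        have h1 := hx' m (by simp)
        have h2 := hy' m (by simp)
        apply hww
        rw [← hx, ← hy, ← h1, ← h2]
      subst hM
      have hadj : G.Adj (Sum.inl w) (Sum.inl w') := by
        simp only [List.map_nil, List.nil_append, List.isChain_cons_cons] at hchB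
        exact hchB.1
      have hchB2 : (Sum.inl w' :: B.map Sum.inr : List (F ⊕ U)).IsChain G.Adj := by
        simp only [List.map_nil, List.nil_append, List.isChain_cons_cons] at hchB
        exact hchB.2
      have hndB : B.Nodup := by
        apply hndU
        have h1 := List.Nodup.of_cons (List.Nodup.of_append_right hnd)
        have h2 := List.Nodup.of_append_right h1
        exact List.Nodup.of_cons h2
      by_cases hA : A = []
      · by_cases hB : B = []
        · left
          subst hA hB
          simpa using hρ
        · right; left
          obtain ⟨x, _, hx⟩ := hfirst B w' hB hchB2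
          refine ⟨x, ?_⟩
          have := hσ x B hndB hx
          subst hA
          simp
          omega
      · obtain ⟨x, hxw, hx⟩ := hlast A w hA hchA
        by_cases hB : B = []
        · right; left
          refine ⟨x, ?_⟩
          have := hσ x A hndA hx
          subst hB
          simp
          omega
        · obtain ⟨y, hyw, hy⟩ := hfirst B w' hB hchB2
          right; right
          refine ⟨x, y, ?_, ?_, ?_⟩
          · rintro rfl
            exact hww (hxw.symm.trans hyw)
          · have h1 := hσ x A hndA hx
            have h2 := hσ y B hndB hy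
            simp
            omega
          · right
            rw [hxw, hyw]
            exact hadj

end

end Pool.Agent.TH669.KP
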