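import Mathlib

set_option autoImplicit false

/-!
# Paths on `s` vertices: monotonicity, invariance, stability under common neighbours
-/

namespace Pool.Agent.TH669.KP

open List

/-- `G` contains a path on `s` vertices: there is a list of `s` distinct vertices in which
consecutive vertices are adjacent -/
def HasPath {V : Type} (G : SimpleGraph V) (s : ℕ) : Prop :=
  ∃ l : List V, l.Nodup ∧ l.length = s ∧ l.IsChain G.Adj

theorem HasPath.mono {V : Type} {G H : SimpleGraph V} (h : G ≤ H) {s : ℕ} (hG : HasPath G s) :
    HasPath H s := by
  obtain ⟨l, h1, h2, h3⟩ := hG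
  exact ⟨l, h1, h2, h3.imp fun a b hab => h hab⟩

/-- a longer list suffices -/
theorem hasPath_of_le {V : Type} {G : SimpleGraph V} {s : ℕ} (l : List V) (h1 : l.Nodup)
    (h2 : s ≤ l.length) (h3 : l.IsChain G.Adj) : HasPath G s := by
  refine ⟨l.take s, h1.sublist (List.take_sublist _ _), ?_, h3.take s⟩
  rw [List.length_take]
  omega

theorem hasPath_map {V W : Type} {G : SimpleGraph V} {H : SimpleGraph W} (f : V → W)
    (hf : Function.Injective f) (hadj : ∀ u v, G.Adj u v → H.Adj (f u) (f v)) {s : ℕ}
    (hG : HasPath G s) : HasPath H s := by
  obtain ⟨l, h1, h2, h3⟩ := hG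
  refine ⟨l.map f, h1.map hf, by rw [List.length_map, h2], ?_⟩
  exact List.isChain_map_of_isChain f hadj h3

theorem hasPath_iso {V W : Type} {G : SimpleGraph V} (σ : V ≃ W) {s : ℕ} :
    HasPath (G.map σ.toEmbedding) s ↔ HasPath G s := by
  constructor
  · refine hasPath_map σ.symm σ.symm.injective fun u v h => ?_
    rw [SimpleGraph.map_adj] at h
    obtain ⟨u', v', h', rfl, rfl⟩ := h
    simpa using h'
  · refine hasPath_map σ σ.injective fun u v h => ?_
    rw [SimpleGraph.map_adj]
    exact ⟨u, v, h, rfl, rfl⟩

/-- in a list without two consecutive elements of `S`, whose head is not in `S`, at most half of the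
elements are in `S` -/
theorem countP_le {V : Type} (S : V → Bool) : ∀ A : List V, (∀ a ∈ A.head?, S a = false) →
    A.IsChain (fun u v => ¬ (S u = true ∧ S v = true)) → 2 * A.countP S ≤ A.length
  | [], _, _ => by simp
  | [a], h, _ => by
    have := h a (by simp)
    simp [this]
  | a :: b :: A, h, hc => by
    have ha := h a (by simp)
    rw [List.isChain_cons_cons] at hc
    by_cases hb : S b = true
    · have h1 := List.isChain_cons.1 hc.2
      have hA : ∀ c ∈ A.head?, S c = false := by
        intro c hc'
        have := h1.1 c hc'
        simpa [hb] using this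
      have h2 := countP_le S A hA h1.2
      simp [ha, hb]
      omega
    · have hb' : S b = false := by simpa using hb
      have h2 := countP_le S (b :: A) (by simpa using hb') hc.2
      simp [ha, hb'] at h2 ⊢
      omega

/-- the case of the stability lemma in which the list is known -/
theorem stab_aux {V : Type} [DecidableEq V] (G : SimpleGraph V) (x y : V) (S : Finset V)
    (hS : ∀ z ∈ S, G.Adj x z ∧ G.Adj y z) (s : ℕ) (hs : s ≤ 2 * S.card + 1) (A B : List V)
    (hnd : (A ++ x :: y :: B).Nodup) (hlen : (A ++ x :: y :: B).length = s)
    (hA : (A ++ [x]).IsChain G.Adj) (hB : (y :: B).IsChain G.Adj) : HasPath G s := by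
  -- a common neighbour off the path
  by_cases h1 : ∃ z ∈ S, z ∉ A ++ x :: y :: B
  · obtain ⟨z, hz, hzl⟩ := h1
    refine hasPath_of_le (A ++ x :: z :: y :: B) ?_ ?_ ?_
    · have hp : (A ++ x :: z :: y :: B).Perm (z :: (A ++ x :: y :: B)) := by
        have : A ++ x :: z :: y :: B = (A ++ [x]) ++ z :: (y :: B) := by simp
        rw [this]
        refine List.perm_middle.trans ?_
        simp
      rw [hp.nodup_iff, List.nodup_cons]
      exact ⟨hzl, hnd⟩
    · simp at hlen ⊢
      omega
    · rw [List.isChain_split, List.isChain_cons_cons, List.isChain_cons_cons]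
      exact ⟨hA, (hS z hz).1, (hS z hz).2.symm, hB⟩
  · push Not at h1
    have hmem : ∀ z ∈ S, z ∈ A ∨ z ∈ B := by
      intro z hz
      have h2 := h1 z hz
      have hzx : z ≠ x := (hS z hz).1.ne'
      have hzy : z ≠ y := (hS z hz).2.ne'
      simp only [List.mem_append, List.mem_cons] at h2
      rcases h2 with h2 | h2 | h2 | h2
      · exact Or.inl h2
      · exact absurd h2 hzx
      · exact absurd h2 hzy
      · exact Or.inr h2
    have hrev : (A ++ [x]).reverse.IsChain G.Adj := by
      rw [List.isChain_reverse]
      exact hA.imp fun a b hab => hab.symm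
    have hrevB : (y :: B).reverse.IsChain G.Adj := by
      rw [List.isChain_reverse]
      exact hB.imp fun a b hab => hab.symm
    -- the head of `A`
    by_cases h2 : ∃ a ∈ A.head?, a ∈ S
    · obtain ⟨a, ha, haS⟩ := h2
      refine hasPath_of_le ((A ++ [x]).reverse ++ y :: B) ?_ ?_ ?_
      · have hp : ((A ++ [x]).reverse ++ y :: B).Perm ((A ++ [x]) ++ y :: B) :=
          (List.reverse_perm _).append_right _
        rw [hp.nodup_iff]
        simpa using hnd
      · simp at hlen ⊢
        omega
      · rw [List.isChain_append]
        refine ⟨hrev, hB, ?_⟩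
        intro u hu v hv
        simp only [List.head?_cons, Option.mem_def, Option.some.injEq] at hv
        subst hv
        rw [List.getLast?_reverse, List.head?_append] at hu
        have : u = a := by
          rw [Option.mem_def] at ha
          rw [ha] at hu
          simpa using hu.symm
        subst this
        exact (hS u haS).2.symm
    -- the last element of `B`
    by_cases h3 : ∃ b ∈ B.getLast?, b ∈ S
    · obtain ⟨b, hb, hbS⟩ := h3
      refine hasPath_of_le ((A ++ [x]) ++ (y :: B).reverse) ?_ ?_ ?_
      · have hp : ((A ++ [x]) ++ (y :: B).reverse).Perm ((A ++ [x]) ++ y :: B) :=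
          (List.reverse_perm _).append_left _
        rw [hp.nodup_iff]
        simpa using hnd
      · simp at hlen ⊢
        omega
      · rw [List.isChain_append]
        refine ⟨hA, hrevB, ?_⟩
        intro u hu v hv
        rw [List.head?_reverse] at hv
        have hu' : u = x := by simpa using hu.symm
        have hv' : v = b := by
          rw [List.getLast?_cons] at hv
          rw [Option.mem_def] at hb
          rw [hb] at hv
          simpa using hv.symm
        subst hu' hv'
        exact (hS v hbS).1
    -- two consecutive elements of `A`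
    by_cases h4 : A.IsChain (fun u v => ¬ (decide (u ∈ S) = true ∧ decide (v ∈ S) = true))
    swap
    · rw [List.isChain_iff_forall_rel_of_append_cons_cons] at h4
      push Not at h4
      obtain ⟨u, v, A1, A2, rfl, huS, hvS⟩ := h4
      have huS' : u ∈ S := by simpa using huS
      have hvS' : v ∈ S := by simpa using hvS
      have e1 : (A1 ++ u :: v :: A2) ++ [x] = (A1 ++ [u]) ++ (v :: (A2 ++ [x])) := by simp
      rw [e1] at hA
      have hA1 := hA.left_of_append
      have hA2 : (v :: (A2 ++ [x])).reverse.IsChain G.Adj := by
        rw [List.isChain_reverse]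
        exact hA.right_of_append.imp fun a b hab => hab.symm
      refine hasPath_of_le ((A1 ++ [u]) ++ ((v :: (A2 ++ [x])).reverse ++ y :: B)) ?_ ?_ ?_
      · have hp : ((A1 ++ [u]) ++ ((v :: (A2 ++ [x])).reverse ++ y :: B)).Perm
            ((A1 ++ [u]) ++ ((v :: (A2 ++ [x])) ++ y :: B)) :=
          ((List.reverse_perm _).append_right _).append_left _
        rw [hp.nodup_iff]
        simpa using hnd
      · simp at hlen ⊢
        omega
      · rw [List.isChain_append]
        refine ⟨hA1, ?_, ?_⟩
        · rw [List.isChain_append]
          refine ⟨hA2, hB, ?_⟩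
          intro a ha b hb
          have ha' : a = v := by
            rw [List.getLast?_reverse] at ha
            simpa using ha.symm
          have hb' : b = y := by simpa using hb.symm
          subst ha' hb'
          exact (hS a hvS').2.symm
        · intro a ha b hb
          have ha' : a = u := by simpa using ha.symm
          have hb' : b = x := by
            rw [List.head?_append, List.head?_reverse, List.getLast?_cons,
              List.getLast?_append] at hb
            simpa using hb.symm
          subst ha' hb'
          exact (hS a huS').1.symm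
    -- two consecutive elements of `B`
    by_cases h5 : B.IsChain (fun u v => ¬ (decide (u ∈ S) = true ∧ decide (v ∈ S) = true))
    swap
    · rw [List.isChain_iff_forall_rel_of_append_cons_cons] at h5
      push Not at h5
      obtain ⟨u, v, B1, B2, rfl, huS, hvS⟩ := h5
      have huS' : u ∈ S := by simpa using huS
      have hvS' : v ∈ S := by simpa using hvS
      have e1 : y :: (B1 ++ u :: v :: B2) = (y :: (B1 ++ [u])) ++ (v :: B2) := by simp
      rw [e1] at hB
      have hB1 : (y :: (B1 ++ [u])).reverse.IsChain G.Adj := by
        rw [List.isChain_reverse]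
        exact hB.left_of_append.imp fun a b hab => hab.symm
      have hB2 := hB.right_of_append
      refine hasPath_of_le ((A ++ [x]) ++ ((y :: (B1 ++ [u])).reverse ++ v :: B2)) ?_ ?_ ?_
      · have hp : ((A ++ [x]) ++ ((y :: (B1 ++ [u])).reverse ++ v :: B2)).Perm
            ((A ++ [x]) ++ ((y :: (B1 ++ [u])) ++ v :: B2)) :=
          ((List.reverse_perm _).append_right _).append_left _
        rw [hp.nodup_iff]
        simpa using hnd
      · simp at hlen ⊢
        omega
      · rw [List.isChain_append]
        refine ⟨hA, ?_, ?_⟩
        · rw [List.isChain_append]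
          refine ⟨hB1, hB2, ?_⟩
          intro a ha b hb
          have ha' : a = y := by
            rw [List.getLast?_reverse] at ha
            simpa using ha.symm
          have hb' : b = v := by simpa using hb.symm
          subst ha' hb'
          exact (hS b hvS').2
        · intro a ha b hb
          have ha' : a = x := by simpa using ha.symm
          have hb' : b = u := by
            rw [List.head?_append, List.head?_reverse, List.getLast?_cons,
              List.getLast?_append] at hb
            simpa using hb.symm
          subst ha' hb'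
          exact (hS b huS').1
    -- counting
    exfalso
    have c1 := countP_le (fun v => decide (v ∈ S)) A (by
      intro a ha
      by_contra hc
      exact h2 ⟨a, ha, by simpa using hc⟩) h4
    have c2 := countP_le (fun v => decide (v ∈ S)) B.reverse (by
      intro a ha
      rw [List.head?_reverse] at ha
      by_contra hc
      exact h3 ⟨a, ha, by simpa using hc⟩) (by
      rw [List.isChain_reverse]
      exact h5.imp fun a b hab hc => hab ⟨hc.2, hc.1⟩)
    rw [List.countP_reverse, List.length_reverse] at c2
    have hcard : S.card ≤ A.countP (fun v => decide (v ∈ S)) + B.countP (fun v => decide (v ∈ S)) := by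
      have h6 : S ⊆ (A.filter (fun v => decide (v ∈ S))).toFinset ∪
          (B.filter (fun v => decide (v ∈ S))).toFinset := by
        intro z hz
        rw [Finset.mem_union, List.mem_toFinset, List.mem_toFinset, List.mem_filter, List.mem_filter]
        rcases hmem z hz with h | h
        · exact Or.inl ⟨h, by simpa using hz⟩
        · exact Or.inr ⟨h, by simpa using hz⟩
      have h7 := Finset.card_le_card h6
      have h8 := Finset.card_union_le (A.filter (fun v => decide (v ∈ S))).toFinset
        (B.filter (fun v => decide (v ∈ S))).toFinset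
      have h9 := List.toFinset_card_le (A.filter (fun v => decide (v ∈ S)))
      have h10 := List.toFinset_card_le (B.filter (fun v => decide (v ∈ S)))
      rw [List.countP_eq_length_filter, List.countP_eq_length_filter]
      omega
    simp at hlen
    omega

/-- stability: if `x` and `y` have at least `(s - 1) / 2` common neighbours in `G` and all edges of
`G'` which are not in `G` join `x` and `y`, then a path on `s` vertices in `G'` gives one in `G` -/
theorem stab_one {V : Type} [DecidableEq V] (G G' : SimpleGraph V) (x y : V) (hxy : x ≠ y)
    (S : Finset V) (hS : ∀ z ∈ S, G.Adj x z ∧ G.Adj y z) (s : ℕ) (hs : s ≤ 2 * S.card + 1)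
    (hG : ∀ u v, G'.Adj u v → G.Adj u v ∨ (u = x ∧ v = y) ∨ (u = y ∧ v = x))
    (h : HasPath G' s) : HasPath G s := by
  obtain ⟨l, h1, h2, h3⟩ := h
  by_cases h4 : l.IsChain G.Adj
  · exact ⟨l, h1, h2, h4⟩
  · rw [List.isChain_iff_forall_rel_of_append_cons_cons] at h4
    push Not at h4
    obtain ⟨u, v, A, B, rfl, huv⟩ := h4
    have h5 : G'.Adj u v := by
      rw [List.isChain_iff_forall_rel_of_append_cons_cons] at h3
      exact h3 rfl
    have hnd' := h1
    rw [List.nodup_append, List.nodup_cons, List.nodup_cons] at h1
    obtain ⟨hA, ⟨hu, hv, hB⟩, hd⟩ := h1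
    -- chains on the two sides
    have hcA : (A ++ [u]).IsChain G'.Adj := by
      have : A ++ u :: v :: B = (A ++ [u]) ++ (v :: B) := by simp
      rw [this] at h3
      exact h3.left_of_append
    have hcB : (v :: B).IsChain G'.Adj := by
      have : A ++ u :: v :: B = (A ++ [u]) ++ (v :: B) := by simp
      rw [this] at h3
      exact h3.right_of_append
    have hvA : v ∉ A := fun h => hd v h v (by simp) rfl
    have huB : u ∉ B := fun h => hu (by simp [h])
    rcases hG u v h5 with h6 | ⟨rfl, rfl⟩ | ⟨rfl, rfl⟩
    · exact absurd h6 huv
    · refine stab_aux G u v S hS s hs A B hnd' h2 ?_ ?_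
      · refine hcA.imp_of_mem_imp fun a b ha hb hab => ?_
        rcases hG a b hab with h | ⟨rfl, rfl⟩ | ⟨rfl, rfl⟩
        · exact h
        · exact absurd hb (by simp [hvA, hxy.symm])
        · exact absurd ha (by simp [hvA, hxy.symm])
      · refine hcB.imp_of_mem_imp fun a b ha hb hab => ?_
        rcases hG a b hab with h | ⟨rfl, rfl⟩ | ⟨rfl, rfl⟩
        · exact h
        · exact absurd ha (by simp [huB, hxy])
        · exact absurd hb (by simp [huB, hxy])
    · refine stab_aux G u v S (fun z hz => ⟨(hS z hz).2, (hS z hz).1⟩) s hs A B hnd' h2 ?_ ?_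
      · refine hcA.imp_of_mem_imp fun a b ha hb hab => ?_
        rcases hG a b hab with h | ⟨rfl, rfl⟩ | ⟨rfl, rfl⟩
        · exact h
        · exact absurd ha (by simp [hvA, hxy])
        · exact absurd hb (by simp [hvA, hxy])
      · refine hcB.imp_of_mem_imp fun a b ha hb hab => ?_
        rcases hG a b hab with h | ⟨rfl, rfl⟩ | ⟨rfl, rfl⟩
        · exact h
        · exact absurd hb (by simp [huB, hxy.symm])
        · exact absurd ha (by simp [huB, hxy.symm])

/-- stability for several edges -/
theorem stab {V : Type} [Fintype V] [DecidableEq V] (G G' : SimpleGraph V) (s : ℕ)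
    (hG : ∀ u v, G'.Adj u v → ¬ G.Adj u v →
      ∃ S : Finset V, (∀ z ∈ S, G.Adj u z ∧ G.Adj v z) ∧ s ≤ 2 * S.card + 1)
    (h : HasPath G' s) : HasPath G s := by
  classical
  have key : ∀ T : Finset (Sym2 V), (∀ e ∈ T, e ∈ G'.edgeSet ∧ e ∉ G.edgeSet) →
      HasPath (G ⊔ SimpleGraph.fromEdgeSet (T : Set (Sym2 V))) s → HasPath G s := by
    intro T
    induction T using Finset.induction_on with
    | empty =>
      intro _ h
      refine h.mono ?_
      intro u v huv
      simpa using huv
    | insert e T he ih =>
      intro hT h
      refine ih (fun e' he' => hT e' (Finset.mem_insert_of_mem he')) ?_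
      have heT := hT e (Finset.mem_insert_self e T)
      revert heT h he
      refine Sym2.ind (fun x y => ?_) e
      intro he h heT
      rw [SimpleGraph.mem_edgeSet, SimpleGraph.mem_edgeSet] at heT
      obtain ⟨S, hS1, hS2⟩ := hG x y heT.1 heT.2
      refine stab_one _ _ x y heT.1.ne S ?_ s hS2 ?_ h
      · intro z hz
        exact ⟨Or.inl (hS1 z hz).1, Or.inl (hS1 z hz).2⟩
      · intro u v huv
        rw [SimpleGraph.sup_adj, SimpleGraph.fromEdgeSet_adj] at huv
        rw [SimpleGraph.sup_adj, SimpleGraph.fromEdgeSet_adj]
        rcases huv with huv | ⟨huv, hne⟩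
        · exact Or.inl (Or.inl huv)
        · rw [Finset.coe_insert, Set.mem_insert_iff] at huv
          rcases huv with huv | huv
          · right
            rwa [Sym2.eq_iff] at huv
          · exact Or.inl (Or.inr ⟨huv, hne⟩)
  refine key (Finset.univ.filter fun e => e ∈ G'.edgeSet ∧ e ∉ G.edgeSet) ?_ ?_
  · intro e he
    exact (Finset.mem_filter.1 he).2
  · refine h.mono ?_
    intro u v huv
    rw [SimpleGraph.sup_adj, SimpleGraph.fromEdgeSet_adj]
    by_cases h' : G.Adj u v
    · exact Or.inl h'
    · right
      refine ⟨?_, huv.ne⟩
      simp [huv, h']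

end Pool.Agent.TH669.KP
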