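import Pool.Agent.TH669.KP.Model2
import Pool.Agent.TH669.KP.Paths
import Pool.Agent.TH669.KP.PathBlocks

set_option autoImplicit false
set_option linter.unusedSectionVars false

/-!
# The invariant graphs: adjacency, whole blocks, toggling
-/

namespace Pool.Agent.TH669.KP

open Finset

section

variable (p : ℕ) {P R : Type} (b : R → ℕ) {F : Type}
variable [DecidableEq F] [DecidableEq P] [DecidableEq R] [∀ j, NeZero (b j)]

/-- the keys: orbits of pairs in different parts -/
abbrev Ky (F P R : Type) : Type := (F × (P ⊕ R)) ⊕ Pr (P ⊕ R)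

/-- the other orbits -/
abbrev Et (F P : Type) : Type := Pr F ⊕ (Σ i : P ⊕ R, Fin (nx b i))

/-- the graph of a configuration -/
def G (κ : Ky F P R → Bool) (η : Et b F P → Bool) : SimpleGraph (Vx p b F P) :=
  GR (orb p b) (orb_symm p b) (orb_self p b) (Sum.elim κ η)

/-- adjacency inside a block -/
def IA (i : P ⊕ R) (χ : Fin (nx b i) → Bool) (x y : ZMod (sz p b i)) : Prop :=
  ∃ d, cls p b i (x - y) = some d ∧ χ d = true

variable {p b} (κ : Ky F P R → Bool) (η : Et b F P → Bool)

theorem G_FF {w w' : F} (h : w ≠ w') : (G p b κ η).Adj (.inl w) (.inl w') ↔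
    η (.inl ⟨s(w, w'), by rw [Sym2.mk_isDiag_iff]; exact h⟩) = true := by
  rw [G, GR_adj, orb_FF p b h]
  simp

theorem G_FI (w : F) (i : P ⊕ R) (x : ZMod (sz p b i)) :
    (G p b κ η).Adj (.inl w) (.inr ⟨i, x⟩) ↔ κ (.inl (w, i)) = true := by
  rw [G, GR_adj, orb_FI]
  simp

theorem G_II {i j : P ⊕ R} (h : i ≠ j) (x : ZMod (sz p b i)) (y : ZMod (sz p b j)) :
    (G p b κ η).Adj (.inr ⟨i, x⟩) (.inr ⟨j, y⟩) ↔
      κ (.inr ⟨s(i, j), by rw [Sym2.mk_isDiag_iff]; exact h⟩) = true := by
  rw [G, GR_adj, orb_diff p b h]
  simp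

theorem G_same (i : P ⊕ R) (x y : ZMod (sz p b i)) :
    (G p b κ η).Adj (.inr ⟨i, x⟩) (.inr ⟨i, y⟩) ↔
      IA p b i (fun d => η (.inr ⟨i, d⟩)) x y := by
  rw [G, GR_adj, orb_same, IA]
  constructor
  · rintro ⟨j, h1, h2⟩
    rw [Option.map_eq_some_iff] at h1
    obtain ⟨d, hd, rfl⟩ := h1
    exact ⟨d, hd, h2⟩
  · rintro ⟨d, hd, h2⟩
    exact ⟨.inr (.inr ⟨i, d⟩), by rw [hd]; rfl, h2⟩

theorem G_mono (η' : Et b F P → Bool) (h : ∀ e, η e = true → η' e = true) :
    G p b κ η ≤ G p b κ η' := by
  intro u v huv
  rw [G, GR_adj] at huv ⊢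
  obtain ⟨j, hj, hχ⟩ := huv
  refine ⟨j, hj, ?_⟩
  rcases j with j | j
  · exact hχ
  · exact h j hχ

/-- to be whole -/
def wh (b : R → ℕ) : (i : P ⊕ R) → (Fin (nx b i) → Bool) → Prop
  | .inl _, χ => (show Fin 1 → Bool from χ) 0 = true
  | .inr j, χ => Wh (b := b j) χ

/-- sizes of the components of a block that is not whole -/
def cb (cR : R → ℕ) : P ⊕ R → ℕ := Sum.elim (fun _ => 1) cR

/-- a whole block has a Hamiltonian path -/
theorem inn_ham [Fact p.Prime] (i : P ⊕ R) (χ : Fin (nx b i) → Bool) (h : wh b i χ) :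
    ∃ l : List (ZMod (sz p b i)), l.Nodup ∧ l.length = sz p b i ∧ l.IsChain (IA p b i χ) := by
  classical
  rcases i with i | j
  · refine ⟨(Finset.univ : Finset (ZMod (sz p b (.inl i)))).toList, Finset.nodup_toList _, ?_, ?_⟩
    · rw [Finset.length_toList, Finset.card_univ, ZMod.card]
    · refine List.Pairwise.isChain ?_
      refine (Finset.nodup_toList _).imp fun {x y} hxy => ?_
      refine ⟨(0 : Fin 1), ?_, h⟩
      unfold cls
      simp only
      rw [if_neg]
      intro h0
      exact hxy (sub_eq_zero.1 h0)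
  · obtain ⟨l, h1, h2, h3⟩ := circ_ham (b := b j) χ h
    have this : l.toFinset = (Finset.univ : Finset (ZMod (b j))) := by
      ext x
      simp [h2 x]
    have h4 := congrArg Finset.card this
    rw [Finset.card_univ, ZMod.card, List.toFinset_card_of_nodup h1] at h4
    exact ⟨l, h1, h4, h3⟩

/-- a block that is not whole has small components -/
theorem inn_label [Fact p.Prime] (cR : R → ℕ) (hcR : ∀ j g, g ∣ b j → g ≠ 1 → b j / g ≤ cR j)
    (i : P ⊕ R) (χ : Fin (nx b i) → Bool) (h : ¬ wh b i χ) :
    ∃ lab : ZMod (sz p b i) → ℕ, (∀ x y, IA p b i χ x y → lab x = lab y) ∧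
      ∀ (r : ℕ) (l : List (ZMod (sz p b i))), l.Nodup → (∀ x ∈ l, lab x = r) →
        l.length ≤ cb (P := P) cR i := by
  classical
  rcases i with i | j
  · refine ⟨fun x => x.val, ?_, ?_⟩
    · rintro x y ⟨d, _, hd⟩
      exfalso
      apply h
      have : d = (0 : Fin 1) := Subsingleton.elim (α := Fin 1) d 0
      rw [this] at hd
      exact hd
    · intro r l hl hr
      rcases l with _ | ⟨x, l⟩
      · simp
      · rcases l with _ | ⟨y, l⟩
        · simp [cb]
        · exfalso
          have h1 : x = y := by
            apply ZMod.val_injective _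
            exact (hr x (by simp)).trans (hr y (by simp)).symm
          subst h1
          simp at hl
  · obtain ⟨g, hgb, hg1, h1, h2⟩ := circ_label (b := b j) χ h
    refine ⟨fun x => x.val % g, h1, ?_⟩
    intro r l hl hr
    exact (h2 r l hl hr).trans (hcR j g hgb hg1)

/-! ### toggling -/

theorem toggle_iff {X : Type} [DecidableEq X] (h : (X → Bool) → ℤ) (x : X)
    (hx : ∀ χ, h (Function.update χ x true) = h (Function.update χ x false)) :
    ∀ χ, h (Function.update χ x (!χ x)) = h χ := by
  intro χ
  have h1 : Function.update χ x (χ x) = χ := Function.update_eq_self x χ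
  cases hb : χ x with
  | true =>
    rw [hb] at h1
    conv_rhs => rw [← h1]
    exact (hx χ).symm
  | false =>
    rw [hb] at h1
    conv_rhs => rw [← h1]
    exact hx χ

/-- vertices of a block -/
def blkF [Fact p.Prime] (i : P ⊕ R) : Finset (Vx p b F P) :=
  (Finset.univ : Finset (ZMod (sz p b i))).map
    ⟨fun x => .inr ⟨i, x⟩, fun x y h => by simpa using h⟩

theorem card_blkF [Fact p.Prime] (i : P ⊕ R) : (blkF (F := F) (p := p) (b := b) i).card = sz p b i := by
  unfold blkF
  rw [Finset.card_map, Finset.card_univ, ZMod.card]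

theorem mem_blkF [Fact p.Prime] (i : P ⊕ R) (z : Vx p b F P) :
    z ∈ blkF (F := F) (p := p) (b := b) i ↔ ∃ x, z = .inr ⟨i, x⟩ := by
  unfold blkF
  rw [Finset.mem_map]
  constructor
  · rintro ⟨x, _, rfl⟩
    exact ⟨x, rfl⟩
  · rintro ⟨x, rfl⟩
    exact ⟨x, Finset.mem_univ _, rfl⟩

variable [Fact p.Prime] [Fintype F] [Fintype P] [Fintype R]

/-- an edge which disappears when one orbit is removed is in this orbit -/
theorem G_update (e : Et b F P) (u v : Vx p b F P)
    (h : (G p b κ (Function.update η e true)).Adj u v)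
    (h' : ¬ (G p b κ (Function.update η e false)).Adj u v) : orb p b u v = some (.inr e) := by
  rw [G, GR_adj] at h h'
  obtain ⟨j, hj, hχ⟩ := h
  rcases j with j | j
  · exact absurd ⟨.inl j, hj, hχ⟩ h'
  · by_cases hje : j = e
    · rw [hj, hje]
    · exfalso
      refine h' ⟨.inr j, hj, ?_⟩
      simp only [Sum.elim_inr] at hχ ⊢
      rw [Function.update_of_ne hje] at hχ ⊢
      exact hχ

/-- toggling an orbit the pairs of which have many common neighbours -/
theorem toggle_stab (s : ℕ) (e : Et b F P)
    (h : ∀ η : Et b F P → Bool, ∀ u v, orb p b u v = some (.inr e) →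
      ∃ S : Finset (Vx p b F P), (∀ z ∈ S, (G p b κ η).Adj u z ∧ (G p b κ η).Adj v z) ∧
        s ≤ 2 * S.card + 1) :
    ∑ η : Et b F P → Bool, sgn η * bit (HasPath (G p b κ η) s) = 0 := by
  refine toggle_zero _ e (toggle_iff (fun η => bit (HasPath (G p b κ η) s)) e
    fun η => bit_congr ⟨fun hp => ?_, fun hp => ?_⟩)
  · refine stab _ _ s ?_ hp
    intro u v huv huv'
    exact h _ u v (G_update κ η e u v huv huv')
  · refine hp.mono (G_mono κ _ _ fun e' he' => ?_)
    by_cases hee : e' = e
    · subst hee
      rw [Function.update_self]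
    · rw [Function.update_of_ne hee] at he' ⊢
      exact he'

/-- two joined blocks -/
theorem zero_joined (s : ℕ) (i j : P ⊕ R) (hij : i ≠ j) (hnx : 0 < nx b i)
    (hκ : κ (.inr ⟨s(i, j), by rw [Sym2.mk_isDiag_iff]; exact hij⟩) = true)
    (hs : s ≤ 2 * sz p b j + 1) :
    ∑ η : Et b F P → Bool, sgn η * bit (HasPath (G p b κ η) s) = 0 := by
  refine toggle_stab κ s (.inr ⟨i, ⟨0, hnx⟩⟩) ?_
  intro η u v huv
  refine ⟨blkF (F := F) (p := p) (b := b) j, ?_, by rw [card_blkF]; exact hs⟩
  have key : ∀ u v : Vx p b F P, orb p b u v = some (.inr (.inr ⟨i, ⟨0, hnx⟩⟩)) →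
      ∃ x, u = .inr ⟨i, x⟩ := by
    intro u v h
    rcases u with w | ⟨i', x⟩
    · exfalso
      rcases v with w' | ⟨k, y⟩
      · by_cases hw : w = w'
        · subst hw
          rw [orb_FF_self] at h
          cases h
        · rw [orb_FF p b hw] at h
          simp at h
      · rw [orb_FI] at h
        simp at h
    · rcases v with w' | ⟨k, y⟩
      · rw [orb_IF] at h
        simp at h
      · by_cases hik : i' = k
        · subst hik
          rw [orb_same, Option.map_eq_some_iff] at h
          obtain ⟨d, _, hd⟩ := h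
          simp only [Sum.inr.injEq, Sigma.mk.injEq] at hd
          obtain ⟨rfl, _⟩ := hd
          exact ⟨x, rfl⟩
        · rw [orb_diff p b hik] at h
          simp at h
  obtain ⟨x, rfl⟩ := key u v huv
  obtain ⟨y, rfl⟩ := key v _ (by rw [orb_symm]; exact huv)
  intro z hz
  obtain ⟨z', rfl⟩ := (mem_blkF j z).1 hz
  exact ⟨(G_II κ η hij x z').2 hκ, (G_II κ η hij y z').2 hκ⟩

/-- a block attached to two fixed points -/
theorem zero_double (s : ℕ) (w w' : F) (hw : w ≠ w') (i : P ⊕ R) (h1 : κ (.inl (w, i)) = true)
    (h2 : κ (.inl (w', i)) = true) (hs : s ≤ 2 * sz p b i + 1) :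
    ∑ η : Et b F P → Bool, sgn η * bit (HasPath (G p b κ η) s) = 0 := by
  refine toggle_stab κ s (.inl ⟨s(w, w'), by rw [Sym2.mk_isDiag_iff]; exact hw⟩) ?_
  intro η u v huv
  refine ⟨blkF (F := F) (p := p) (b := b) i, ?_, by rw [card_blkF]; exact hs⟩
  have key : ∀ u v : Vx p b F P, orb p b u v =
      some (.inr (.inl ⟨s(w, w'), by rw [Sym2.mk_isDiag_iff]; exact hw⟩)) →
      u = .inl w ∨ u = .inl w' := by
    intro u v h
    rcases u with w1 | ⟨i', x⟩
    · rcases v with w2 | ⟨k, y⟩
      · by_cases hw : w1 = w2
        · subst hw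
          rw [orb_FF_self] at h
          cases h
        · rw [orb_FF p b hw] at h
          simp only [Option.some.injEq, Sum.inr.injEq, Sum.inl.injEq, Subtype.mk.injEq,
            Sym2.eq_iff] at h
          rcases h with ⟨rfl, _⟩ | ⟨rfl, _⟩
          · exact Or.inl rfl
          · exact Or.inr rfl
      · rw [orb_FI] at h
        simp at h
    · rcases v with w' | ⟨k, y⟩
      · rw [orb_IF] at h
        simp at h
      · by_cases hik : i' = k
        · subst hik
          rw [orb_same, Option.map_eq_some_iff] at h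
          obtain ⟨d, _, hd⟩ := h
          simp at hd
        · rw [orb_diff p b hik] at h
          simp at h
  have hall : ∀ u : Vx p b F P, (u = .inl w ∨ u = .inl w') → ∀ z ∈ blkF (F := F) (p := p) (b := b) i,
      (G p b κ η).Adj u z := by
    intro u hu z hz
    obtain ⟨z', rfl⟩ := (mem_blkF i z).1 hz
    rcases hu with rfl | rfl
    · exact (G_FI κ η w i z').2 h1
    · exact (G_FI κ η w' i z').2 h2
  intro z hz
  exact ⟨hall u (key u v huv) z hz, hall v (key v u (by rw [orb_symm]; exact huv)) z hz⟩

/-- a block which is attached to nothing -/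
theorem zero_free (s : ℕ) (i : P ⊕ R) (hnx : 0 < nx b i) (h1 : ∀ w, κ (.inl (w, i)) = false)
    (h2 : ∀ j (h : i ≠ j), κ (.inr ⟨s(i, j), by rw [Sym2.mk_isDiag_iff]; exact h⟩) = false)
    (hs : sz p b i < s) :
    ∑ η : Et b F P → Bool, sgn η * bit (HasPath (G p b κ η) s) = 0 := by
  classical
  refine toggle_zero _ (.inr ⟨i, ⟨0, hnx⟩⟩) (toggle_iff (fun η => bit (HasPath (G p b κ η) s)) _
    fun η => bit_congr ⟨fun hp => ?_, fun hp => ?_⟩)
  · obtain ⟨l, hl1, hl2, hl3⟩ := hp
    refine ⟨l, hl1, hl2, ?_⟩
    -- the list avoids the block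
    set e : Et b F P := .inr ⟨i, ⟨0, hnx⟩⟩ with he
    set η' := Function.update η e true with hη'
    have hcl : ∀ u v : Vx p b F P, (G p b κ η').Adj u v →
        (u ∈ blkF (F := F) (p := p) (b := b) i ↔ v ∈ blkF (F := F) (p := p) (b := b) i) := by
      have hone : ∀ u v : Vx p b F P, (G p b κ η').Adj u v →
          u ∈ blkF (F := F) (p := p) (b := b) i → v ∈ blkF (F := F) (p := p) (b := b) i := by
        intro u v huv hu
        obtain ⟨x, rfl⟩ := (mem_blkF i u).1 hu
        rcases v with w | ⟨k, y⟩
        · have := (G_FI κ η' w i x).1 huv.symm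
          rw [h1 w] at this
          cases this
        · by_cases hik : i = k
          · subst hik
            exact (mem_blkF i _).2 ⟨y, rfl⟩
          · have := (G_II κ η' hik x y).1 huv
            rw [h2 k hik] at this
            cases this
      exact fun u v huv => ⟨hone u v huv, hone v u huv.symm⟩
    have hall : ∀ (l : List (Vx p b F P)), l.IsChain (G p b κ η').Adj →
        (∀ u ∈ l, u ∈ blkF (F := F) (p := p) (b := b) i) ∨
        (∀ u ∈ l, u ∉ blkF (F := F) (p := p) (b := b) i) := by
      intro l
      induction l with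
      | nil => intro _; left; simp
      | cons a l ih =>
        intro h
        rcases l with _ | ⟨c, l⟩
        · by_cases ha : a ∈ blkF (F := F) (p := p) (b := b) i
          · left
            intro u hu
            rw [List.mem_singleton] at hu
            rw [hu]
            exact ha
          · right
            intro u hu
            rw [List.mem_singleton] at hu
            rw [hu]
            exact ha
        · rw [List.isChain_cons_cons] at h
          have h3 := hcl a c h.1
          rcases ih h.2 with h4 | h4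
          · left
            intro u hu
            rw [List.mem_cons] at hu
            rcases hu with rfl | hu
            · exact h3.2 (h4 c (by simp))
            · exact h4 u hu
          · right
            intro u hu
            rw [List.mem_cons] at hu
            rcases hu with rfl | hu
            · exact fun h5 => h4 c (by simp) (h3.1 h5)
            · exact h4 u hu
    rcases hall l hl3 with h3 | h3
    · exfalso
      have h4 : l.toFinset ⊆ blkF (F := F) (p := p) (b := b) i := by
        intro u hu
        exact h3 u (List.mem_toFinset.1 hu)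
      have h5 := Finset.card_le_card h4
      rw [card_blkF, List.toFinset_card_of_nodup hl1, hl2] at h5
      omega
    · refine hl3.imp_of_mem_imp fun u v hu hv huv => ?_
      by_contra hno
      have h4 := G_update κ η e u v huv hno
      have h5 : u ∈ blkF (F := F) (p := p) (b := b) i := by
        rw [mem_blkF]
        rcases u with w | ⟨i', x⟩
        · exfalso
          rcases v with w' | ⟨k, y⟩
          · by_cases hw : w = w'
            · subst hw
              rw [orb_FF_self] at h4
              cases h4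
            · rw [orb_FF p b hw] at h4
              simp [he] at h4
          · rw [orb_FI] at h4
            simp at h4
        · rcases v with w' | ⟨k, y⟩
          · rw [orb_IF] at h4
            simp at h4
          · by_cases hik : i' = k
            · subst hik
              rw [orb_same, Option.map_eq_some_iff] at h4
              obtain ⟨d, _, hd⟩ := h4
              simp only [he, Sum.inr.injEq, Sigma.mk.injEq] at hd
              obtain ⟨rfl, _⟩ := hd
              exact ⟨x, rfl⟩
            · rw [orb_diff p b hik] at h4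
              simp at h4
      exact h3 u hu h5
  · refine hp.mono (G_mono κ _ _ fun e' he' => ?_)
    by_cases hee : e' = .inr ⟨i, ⟨0, hnx⟩⟩
    · subst hee
      rw [Function.update_self]
    · rw [Function.update_of_ne hee] at he' ⊢
      exact he'

end

end Pool.Agent.TH669.KP
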