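import Pool.Agent.TH669.KP.Eval1

set_option autoImplicit false
set_option linter.unusedSectionVars false

/-!
# Good keys
-/

namespace Pool.Agent.TH669.KP

open Finset
open Pool.Agent.H119R2.Kp (GP PV)

section good

variable {p : ℕ} {P R : Type} {b : R → ℕ} {F : Type}
variable [DecidableEq F] [DecidableEq P] [DecidableEq R] [∀ j, NeZero (b j)]

/-- the good key of a function: every block `i` is attached to the fixed point `φ i` only -/
def kf (φ : P ⊕ R → F) : Ky F P R → Bool :=
  Sum.elim (fun x => decide (φ x.2 = x.1)) (fun _ => false)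

theorem kf_inl (φ : P ⊕ R → F) (w : F) (i : P ⊕ R) : kf φ (.inl (w, i)) = true ↔ φ i = w := by
  unfold kf
  simp

theorem kf_inr (φ : P ⊕ R → F) (e : Pr (P ⊕ R)) : kf φ (.inr e) = false := rfl

theorem kf_inj : Function.Injective (kf : (P ⊕ R → F) → (Ky F P R → Bool)) := by
  intro φ ψ h
  funext i
  have h1 := congrFun h (.inl (φ i, i))
  have h2 : kf φ (.inl (φ i, i)) = true := (kf_inl φ _ i).2 rfl
  rw [h2] at h1
  exact ((kf_inl ψ _ i).1 h1.symm).symm

/-- the condition for a path -/
def Cond (φ : P ⊕ R → F) (ε : Pr F → Bool) (W : P ⊕ R → Prop) : Prop :=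
  ∃ i j, i ≠ j ∧ W i ∧ W j ∧ (φ i = φ j ∨ ∃ h : φ i ≠ φ j,
    ε ⟨s(φ i, φ j), by rw [Sym2.mk_isDiag_iff]; exact h⟩ = true)

theorem list_sigma {I : Type} {X : I → Type} (i : I) (l : List (Σ i, X i))
    (h : ∀ u ∈ l, u.1 = i) : ∃ l' : List (X i), l = l'.map (Sigma.mk i) := by
  induction l with
  | nil => exact ⟨[], rfl⟩
  | cons a l ih =>
    obtain ⟨l', rfl⟩ := ih fun u hu => h u (List.mem_cons_of_mem _ hu)
    have h1 := h a (by simp)
    obtain ⟨j, x⟩ := a
    simp only at h1
    subst h1
    exact ⟨x :: l', rfl⟩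

variable [Fact p.Prime]

theorem good_of_path (φ : P ⊕ R → F) (cR : R → ℕ)
    (hcR : ∀ j g, g ∣ b j → g ≠ 1 → b j / g ≤ cR j) (s ρ : ℕ)
    (hF : ∀ w1 w2 w3 : F, w1 = w2 ∨ w1 = w3 ∨ w2 = w3) (hρ1 : 1 ≤ ρ)
    (hρ2 : ∀ w w' : F, w ≠ w' → 2 ≤ ρ)
    (n2 : ∀ i j : P ⊕ R, cb cR i + sz p b j + ρ < s) (n3 : ∀ i : P ⊕ R, sz p b i + ρ < s)
    (n6 : ∀ i j : P ⊕ R, cb cR i + cb cR j + ρ < s) (n8 : ρ < s)
    (η : Et b F P → Bool) (h : HasPath (G p b (kf φ) η) s) :
    Cond φ (fun e => η (.inl e)) (fun i => wh b i (fun d => η (.inr ⟨i, d⟩))) := by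
  classical
  have hlab : ∀ i : P ⊕ R, ∃ lab : ZMod (sz p b i) → ℕ,
      (∀ x y, IA p b i (fun d => η (.inr ⟨i, d⟩)) x y → lab x = lab y) ∧
      ∀ (r : ℕ) (l : List (ZMod (sz p b i))), l.Nodup → (∀ x ∈ l, lab x = r) →
        l.length ≤ if wh b i (fun d => η (.inr ⟨i, d⟩)) then (if r = 0 then sz p b i else 0)
          else cb (P := P) cR i := by
    intro i
    by_cases hw : wh b i (fun d => η (.inr ⟨i, d⟩))
    · refine ⟨fun _ => 0, fun _ _ _ => rfl, ?_⟩
      intro r l hl hr
      rw [if_pos hw]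
      by_cases hr0 : r = 0
      · rw [if_pos hr0]
        have := hl.length_le_card
        rwa [ZMod.card] at this
      · rw [if_neg hr0]
        rcases l with _ | ⟨a, l⟩
        · simp
        · exact absurd (hr a (by simp)).symm hr0
    · obtain ⟨lab, h1, h2⟩ := inn_label (p := p) (b := b) cR hcR i _ hw
      refine ⟨lab, h1, ?_⟩
      intro r l hl hr
      rw [if_neg hw]
      exact h2 r l hl hr
  choose lab hl1 hl2 using hlab
  obtain ⟨l, hnd, hlen, hch⟩ := h
  have hb := path_bound (G p b (kf φ) η)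
    (fun u : (Σ i : P ⊕ R, ZMod (sz p b i)) => ((u.1, lab u.1 u.2) : (P ⊕ R) × ℕ))
    (fun x => if wh b x.1 (fun d => η (.inr ⟨x.1, d⟩)) then (if x.2 = 0 then sz p b x.1 else 0)
      else cb (P := P) cR x.1)
    (fun x => φ x.1) ?_ ?_ ?_ hF ρ hρ1 hρ2 l hnd hch
  · rw [hlen] at hb
    rcases hb with hb | ⟨⟨i, r⟩, hb⟩ | ⟨⟨i, r⟩, ⟨j, r'⟩, hne, hb, hφ⟩
    · omega
    · exfalso
      simp only at hb
      have h3 := n3 i
      have h7 := n6 i i
      split_ifs at hb <;> omega
    · simp only at hb hφ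
      by_cases hi : wh b i (fun d => η (.inr ⟨i, d⟩))
      · by_cases hj : wh b j (fun d => η (.inr ⟨j, d⟩))
        · by_cases hij : i = j
          · -- the same whole block
            exfalso
            subst hij
            have hrr : r ≠ r' := fun h => hne (by rw [h])
            rw [if_pos hi] at hb
            have h3 := n3 i
            by_cases hr : r = 0
            · have hr' : r' ≠ 0 := fun h => hrr (hr.trans h.symm)
              rw [if_pos hr, if_pos hi, if_neg hr'] at hb
              omega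
            · rw [if_neg hr, if_pos hi] at hb
              split_ifs at hb <;> omega
          · refine ⟨i, j, hij, hi, hj, ?_⟩
            rcases hφ with hφ | hφ
            · exact Or.inl hφ
            · by_cases hφ' : φ i = φ j
              · exact Or.inl hφ'
              · exact Or.inr ⟨hφ', (G_FF (kf φ) η hφ').1 hφ⟩
        · exfalso
          rw [if_pos hi, if_neg hj] at hb
          have := n2 j i
          split_ifs at hb <;> omega
      · exfalso
        by_cases hj : wh b j (fun d => η (.inr ⟨j, d⟩))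
        · rw [if_neg hi, if_pos hj] at hb
          have := n2 i j
          split_ifs at hb <;> omega
        · rw [if_neg hi, if_neg hj] at hb
          have := n6 i j
          omega
  · rintro ⟨i, x⟩ ⟨j, y⟩ hadj
    by_cases hij : i = j
    · subst hij
      rw [G_same] at hadj
      simp only [Prod.mk.injEq, true_and]
      exact hl1 i x y hadj
    · rw [G_II _ _ hij] at hadj
      rw [kf_inr] at hadj
      cases hadj
  · rintro ⟨i, r⟩ l hl hc
    obtain ⟨l', rfl⟩ := list_sigma i l fun u hu => congrArg Prod.fst (hc u hu)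
    rw [List.length_map]
    refine hl2 i r l' (List.Nodup.of_map _ hl) ?_
    intro x hx
    have := hc ⟨i, x⟩ (List.mem_map.2 ⟨x, hx, rfl⟩)
    simpa using this
  · rintro w ⟨i, x⟩ hadj
    rw [G_FI, kf_inl] at hadj
    exact hadj

theorem path_of_good (φ : P ⊕ R → F) (s : ℕ)
    (n1 : ∀ i j : P ⊕ R, i ≠ j → s ≤ sz p b i + sz p b j + 1)
    (η : Et b F P → Bool)
    (h : Cond φ (fun e => η (.inl e)) (fun i => wh b i (fun d => η (.inr ⟨i, d⟩)))) :
    HasPath (G p b (kf φ) η) s := by
  classical
  obtain ⟨i, j, hij, hi, hj, h⟩ := h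
  obtain ⟨li, i1, i2, i3⟩ := inn_ham (p := p) (b := b) i _ hi
  obtain ⟨lj, j1, j2, j3⟩ := inn_ham (p := p) (b := b) j _ hj
  let fi : ZMod (sz p b i) → Vx p b F P := fun x => .inr ⟨i, x⟩
  let fj : ZMod (sz p b j) → Vx p b F P := fun x => .inr ⟨j, x⟩
  have hfi : Function.Injective fi := fun x y h => by simpa [fi] using h
  have hfj : Function.Injective fj := fun x y h => by simpa [fj] using h
  have hci : (li.map fi).IsChain (G p b (kf φ) η).Adj :=
    List.isChain_map_of_isChain fi (fun x y hxy => (G_same (kf φ) η i x y).2 hxy) i3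
  have hcj : (lj.map fj).IsChain (G p b (kf φ) η).Adj :=
    List.isChain_map_of_isChain fj (fun x y hxy => (G_same (kf φ) η j x y).2 hxy) j3
  have hadi : ∀ x, (G p b (kf φ) η).Adj (fi x) (.inl (φ i)) := fun x =>
    ((G_FI (kf φ) η (φ i) i x).2 ((kf_inl φ _ i).2 rfl)).symm
  have hadj : ∀ x, (G p b (kf φ) η).Adj (.inl (φ j)) (fj x) := fun x =>
    (G_FI (kf φ) η (φ j) j x).2 ((kf_inl φ _ j).2 rfl)
  have hdis : ∀ x y, fi x ≠ fj y := by
    intro x y h
    simp only [fi, fj, Sum.inr.injEq, Sigma.mk.injEq] at h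
    exact hij h.1
  have hall : ∀ M : List F, M.Nodup → M ≠ [] →
      (M.map (Sum.inl : F → Vx p b F P)).IsChain (G p b (kf φ) η).Adj →
      (∀ a ∈ M.head?, a = φ i) → (∀ a ∈ M.getLast?, a = φ j) → HasPath (G p b (kf φ) η) s := by
    intro M hM hM0 hMc hM1 hM2
    refine hasPath_of_le (li.map fi ++ (M.map Sum.inl ++ lj.map fj)) ?_ ?_ ?_
    · rw [List.nodup_append]
      refine ⟨i1.map hfi, ?_, ?_⟩
      · rw [List.nodup_append]
        refine ⟨hM.map Sum.inl_injective, j1.map hfj, ?_⟩
        intro a ha c hc hac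
        rw [List.mem_map] at ha hc
        obtain ⟨a', _, rfl⟩ := ha
        obtain ⟨c', _, rfl⟩ := hc
        cases hac
      · intro a ha c hc hac
        rw [List.mem_map] at ha
        rw [List.mem_append, List.mem_map, List.mem_map] at hc
        obtain ⟨a', _, rfl⟩ := ha
        rcases hc with ⟨c', _, rfl⟩ | ⟨c', _, rfl⟩
        · cases hac
        · exact hdis a' c' hac
    · rw [List.length_append, List.length_append, List.length_map, List.length_map,
        List.length_map, i2, j2]
      have h1 := n1 i j hij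
      have h2 : 0 < M.length := List.length_pos_iff.2 hM0
      omega
    · rw [List.isChain_append]
      refine ⟨hci, ?_, ?_⟩
      · rw [List.isChain_append]
        refine ⟨hMc, hcj, ?_⟩
        intro a ha c hc
        rw [List.getLast?_map, Option.mem_def, Option.map_eq_some_iff] at ha
        rw [List.head?_map, Option.mem_def, Option.map_eq_some_iff] at hc
        obtain ⟨a', ha, rfl⟩ := ha
        obtain ⟨c', hc, rfl⟩ := hc
        rw [hM2 a' ha]
        exact hadj c'
      · intro a ha c hc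
        rw [List.getLast?_map, Option.mem_def, Option.map_eq_some_iff] at ha
        obtain ⟨a', ha, rfl⟩ := ha
        obtain ⟨m, M', rfl⟩ := List.exists_cons_of_ne_nil hM0
        have h1 : m = φ i := hM1 m (by simp)
        simp only [List.map_cons, List.cons_append, List.head?_cons, Option.mem_def,
          Option.some.injEq] at hc
        rw [← hc, h1]
        exact hadi a'
  rcases h with h | ⟨h, hε⟩
  · exact hall [φ i] (by simp) (by simp) (by simp) (by simp) (by simp [h])
  · refine hall [φ i, φ j] (by simp [h]) (by simp) ?_ (by simp) (by simp)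
    simp only [List.map_cons, List.map_nil]
    rw [List.isChain_cons_cons]
    refine ⟨(G_FF (kf φ) η h).2 hε, by simp⟩

end good

end Pool.Agent.TH669.KP
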