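import Pool.Agent.TH669.KP.Eval2

set_option autoImplicit false
set_option linter.unusedSectionVars false

/-!
# Evaluation of the relation
-/

namespace Pool.Agent.TH669.KP

open Finset
open Pool.Agent.H119R2.Kp (GP PV)

section small

theorem sum_unique_fun {X : Type} [Fintype X] [DecidableEq X] [Unique X] (h : (X → Bool) → ℤ) :
    ∑ χ : X → Bool, sgn χ * h χ = h (fun _ => false) - h (fun _ => true) := by
  have h1 : ∑ χ : X → Bool, sgn χ * h χ = ∑ c : Bool, sgn (fun _ : X => c) * h (fun _ => c) := by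
    refine Fintype.sum_equiv (Equiv.funUnique X Bool) _ _ fun χ => ?_
    have : χ = fun _ => (Equiv.funUnique X Bool) χ := by
      funext x
      rw [Equiv.funUnique_apply]
      congr 1
      exact Subsingleton.elim _ _
    rw [← this]
  rw [h1, Fintype.sum_bool]
  have h2 : sgn (fun _ : X => true) = -1 := by
    unfold sgn
    simp
  have h3 : sgn (fun _ : X => false) = 1 := by
    unfold sgn
    simp
  rw [h2, h3]
  ring

theorem sum_empty_fun {X : Type} [Fintype X] [DecidableEq X] [IsEmpty X] (h : (X → Bool) → ℤ) :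
    ∑ χ : X → Bool, sgn χ * h χ = h (fun _ => false) := by
  rw [Finset.sum_eq_single (fun _ => false)]
  · have h2 : sgn (fun _ : X => false) = 1 := by
      unfold sgn
      simp
    rw [h2, one_mul]
  · intro χ _ hχ
    exact absurd (Subsingleton.elim _ _) hχ
  · intro h
    exact absurd (Finset.mem_univ _) h

theorem card_compl' {I : Type} [Fintype I] [DecidableEq I] (W : Finset I) :
    (-1 : ℤ) ^ (Wᶜ).card = (-1) ^ (Fintype.card I) * (-1) ^ W.card := by
  have h1 := Finset.card_compl_add_card W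
  have h2 : (-1 : ℤ) ^ W.card * (-1) ^ W.card = 1 := by
    rw [← mul_pow]; simp
  rw [← h1, pow_add, mul_assoc, h2, mul_one]

theorem sum_neg_card {I : Type} [Fintype I] [DecidableEq I] [Nonempty I] :
    ∑ W : Finset I, (-1 : ℤ) ^ (Wᶜ).card = 0 := by
  simp_rw [card_compl']
  rw [← Finset.mul_sum]
  have h1 : ∑ W : Finset I, (-1 : ℤ) ^ W.card = 0 := by
    rw [← Finset.powerset_univ]
    rw [Finset.sum_powerset_neg_one_pow_card]
    rw [if_neg (Finset.univ_nonempty.ne_empty)]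
  rw [h1, mul_zero]

/-- the signed number of sets with at least two elements -/
theorem sum_two {I : Type} [Fintype I] [DecidableEq I] [Nonempty I] :
    ∑ W : Finset I, (-1 : ℤ) ^ (Wᶜ).card * bit (∃ i j, i ≠ j ∧ i ∈ W ∧ j ∈ W) =
      (-1) ^ (Fintype.card I) * ((Fintype.card I : ℤ) - 1) := by
  classical
  have h1 : ∀ W : Finset I, bit (∃ i j, i ≠ j ∧ i ∈ W ∧ j ∈ W) =
      1 - (if W = ∅ then 1 else 0) - ∑ i : I, (if W = {i} then 1 else 0) := by
    intro W
    by_cases h2 : ∃ i j, i ≠ j ∧ i ∈ W ∧ j ∈ W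
    · rw [bit_pos h2]
      obtain ⟨i, j, hij, hi, hj⟩ := h2
      rw [if_neg (by rintro rfl; simp at hi), Finset.sum_eq_zero]
      · norm_num
      · intro k _
        rw [if_neg]
        rintro rfl
        rw [Finset.mem_singleton] at hi hj
        exact hij (hi.trans hj.symm)
    · rw [bit_neg h2]
      push Not at h2
      by_cases h0 : W = ∅
      · rw [if_pos h0, Finset.sum_eq_zero]
        · norm_num
        · intro k _
          rw [if_neg]
          rintro rfl
          exact Finset.singleton_ne_empty k h0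
      · obtain ⟨i, hi⟩ := Finset.nonempty_iff_ne_empty.2 h0
        have h3 : W = {i} := by
          ext j
          rw [Finset.mem_singleton]
          constructor
          · intro hj
            by_contra hne
            exact h2 j i hne hj hi
          · rintro rfl
            exact hi
        rw [if_neg h0, Finset.sum_eq_single i, if_pos h3]
        · norm_num
        · intro k _ hk
          rw [if_neg]
          rw [h3]
          intro h4
          exact hk (Finset.singleton_injective h4).symm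
        · intro h
          exact absurd (Finset.mem_univ _) h
  simp_rw [h1, mul_sub, mul_one, Finset.sum_sub_distrib]
  rw [sum_neg_card]
  have h2 : ∑ W : Finset I, (-1 : ℤ) ^ (Wᶜ).card * (if W = ∅ then 1 else 0) =
      (-1) ^ (Fintype.card I) := by
    rw [Finset.sum_eq_single ∅]
    · simp
    · intro W _ hW
      rw [if_neg hW, mul_zero]
    · intro h
      exact absurd (Finset.mem_univ _) h
  have h3 : ∑ W : Finset I, (-1 : ℤ) ^ (Wᶜ).card * ∑ i : I, (if W = {i} then 1 else 0) =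
      -((-1) ^ (Fintype.card I) * (Fintype.card I : ℤ)) := by
    simp_rw [Finset.mul_sum]
    rw [Finset.sum_comm]
    have h4 : ∀ i : I, ∑ W : Finset I, (-1 : ℤ) ^ (Wᶜ).card * (if W = {i} then 1 else 0) =
        -(-1) ^ (Fintype.card I) := by
      intro i
      rw [Finset.sum_eq_single {i}]
      · rw [if_pos rfl, card_compl']
        simp
      · intro W _ hW
        rw [if_neg hW, mul_zero]
      · intro h
        exact absurd (Finset.mem_univ _) h
    rw [Finset.sum_congr rfl fun i _ => h4 i, Finset.sum_const, Finset.card_univ]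
    rw [nsmul_eq_mul]
    ring
  rw [h2, h3]
  ring

end small

section good

variable {p : ℕ} {P R : Type} {b : R → ℕ} {F : Type}
variable [DecidableEq F] [DecidableEq P] [DecidableEq R] [∀ j, NeZero (b j)]
variable [Fintype F] [Fintype P] [Fintype R]

/-- sign of a good key -/
theorem sgn_kf (φ : P ⊕ R → F) : sgn (kf φ) = (-1) ^ Fintype.card (P ⊕ R) := by
  unfold sgn
  rw [Fintype.prod_sum_type]
  have h2 : ∏ e : Pr (P ⊕ R), (if kf φ (.inr e) = true then (-1 : ℤ) else 1) = 1 := by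
    refine Finset.prod_eq_one fun e _ => ?_
    rw [kf_inr]
    simp
  rw [h2, mul_one, Fintype.prod_prod_type_right]
  have h3 : ∀ i : P ⊕ R, ∏ w : F, (if kf φ (.inl (w, i)) = true then (-1 : ℤ) else 1) = -1 := by
    intro i
    have h4 : ∀ w : F, (if kf φ (.inl (w, i)) = true then (-1 : ℤ) else 1) =
        if φ i = w then -1 else 1 := by
      intro w
      by_cases h : φ i = w
      · rw [if_pos h, if_pos ((kf_inl φ w i).2 h)]
      · rw [if_neg h, if_neg (fun h' => h ((kf_inl φ w i).1 h'))]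
    rw [Finset.prod_congr rfl fun w _ => h4 w, Finset.prod_ite_eq, if_pos (Finset.mem_univ _)]
  rw [Finset.prod_congr rfl fun i _ => h3 i, Finset.prod_const, Finset.card_univ]

variable (p b) in
/-- the inner sum -/
noncomputable def SS (s : ℕ) (κ : Ky F P R → Bool) : ℤ :=
  ∑ η : Et b F P → Bool, sgn η * bit (HasPath (G p b κ η) s)

theorem sum_keys (f : (Ky F P R → Bool) → ℤ) (h : ∀ κ, (∀ φ, κ ≠ kf φ) → f κ = 0) :
    ∑ κ : Ky F P R → Bool, sgn κ * f κ =
      (-1) ^ Fintype.card (P ⊕ R) * ∑ φ : P ⊕ R → F, f (kf φ) := by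
  have h1 : ∑ φ : P ⊕ R → F, sgn (kf φ) * f (kf φ) =
      ∑ κ ∈ (Finset.univ : Finset (P ⊕ R → F)).image kf, sgn κ * f κ := by
    rw [Finset.sum_image (fun _ _ _ _ h => kf_inj h)]
  rw [Finset.mul_sum]
  simp_rw [sgn_kf] at h1
  rw [h1]
  symm
  refine Finset.sum_subset (Finset.subset_univ _) fun κ _ hκ => ?_
  rw [h κ, mul_zero]
  intro φ hφ
  exact hκ (Finset.mem_image.2 ⟨φ, Finset.mem_univ _, hφ.symm⟩)

variable [Fact p.Prime]

theorem SS_zero (s : ℕ) (n1 : ∀ i j : P ⊕ R, i ≠ j → s ≤ sz p b i + sz p b j + 1)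
    (n3 : ∀ i : P ⊕ R, sz p b i < s)
    (n5 : ∀ w w' : F, w ≠ w' → ∀ i : P ⊕ R, s ≤ 2 * sz p b i + 1)
    (hnx : ∀ i : P ⊕ R, 0 < nx b i) (κ : Ky F P R → Bool) (h : ∀ φ, κ ≠ kf φ) :
    SS p b s κ = 0 := by
  classical
  unfold SS
  by_cases hJ : ∃ i j : P ⊕ R, ∃ h : i ≠ j,
      κ (.inr ⟨s(i, j), by rw [Sym2.mk_isDiag_iff]; exact h⟩) = true
  · obtain ⟨i, j, hij, hκ⟩ := hJ
    have h1 := n1 i j hij
    rcases le_total (sz p b i) (sz p b j) with h2 | h2
    · exact zero_joined κ s i j hij (hnx i) hκ (by omega)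
    · refine zero_joined κ s j i hij.symm (hnx j) ?_ (by omega)
      rw [← hκ]
      congr 3
      exact Sym2.eq_swap
  push Not at hJ
  by_cases hD : ∃ w w' : F, w ≠ w' ∧ ∃ i : P ⊕ R, κ (.inl (w, i)) = true ∧ κ (.inl (w', i)) = true
  · obtain ⟨w, w', hw, i, h1, h2⟩ := hD
    exact zero_double κ s w w' hw i h1 h2 (n5 w w' hw i)
  push Not at hD
  by_cases hf : ∃ i : P ⊕ R, ∀ w, κ (.inl (w, i)) = false
  · obtain ⟨i, hi⟩ := hf
    exact zero_free κ s i (hnx i) hi (fun j hij => by simpa using hJ i j hij) (n3 i)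
  push Not at hf
  choose φ hφ using hf
  exfalso
  refine h φ ?_
  funext x
  rcases x with ⟨w, i⟩ | ⟨e, he⟩
  · by_cases hw : φ i = w
    · rw [(kf_inl φ w i).2 hw, ← hw]
      simpa using hφ i
    · have h1 : kf φ (.inl (w, i)) = false := by
        rw [← Bool.not_eq_true, kf_inl]
        exact hw
      rw [h1]
      have h2 : κ (.inl (φ i, i)) = true := by simpa using hφ i
      have h3 := hD (φ i) w hw i h2
      simpa using h3
  · rw [kf_inr]
    induction e using Sym2.ind with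
    | _ i j =>
    have hij : i ≠ j := by rwa [Sym2.mk_isDiag_iff] at he
    simpa using hJ i j hij

variable (b) in
/-- the value of one block -/
def om : P ⊕ R → ℤ := Sum.elim (fun _ => -1) (fun j => ArithmeticFunction.moebius (b j))

theorem sum_om (i : P ⊕ R) : ∑ χ : Fin (nx b i) → Bool, sgn χ * bit (wh b i χ) = om b i := by
  rcases i with i | j
  · have h1 := sum_unique_fun (X := Fin 1) (fun χ => bit (χ 0 = true))
    rw [bit_neg (by simp), bit_pos rfl] at h1
    exact h1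
  · exact sum_wh (b := b j)

theorem SS_kf (φ : P ⊕ R → F) (cR : R → ℕ)
    (hcR : ∀ j g, g ∣ b j → g ≠ 1 → b j / g ≤ cR j) (s ρ : ℕ)
    (hF : ∀ w1 w2 w3 : F, w1 = w2 ∨ w1 = w3 ∨ w2 = w3) (hρ1 : 1 ≤ ρ)
    (hρ2 : ∀ w w' : F, w ≠ w' → 2 ≤ ρ)
    (n1 : ∀ i j : P ⊕ R, i ≠ j → s ≤ sz p b i + sz p b j + 1)
    (n2 : ∀ i j : P ⊕ R, cb cR i + sz p b j + ρ < s) (n3 : ∀ i : P ⊕ R, sz p b i + ρ < s)
    (n6 : ∀ i j : P ⊕ R, cb cR i + cb cR j + ρ < s) (n8 : ρ < s)
    (hnx : ∀ i : P ⊕ R, 0 < nx b i) :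
    SS p b s (kf φ) = (∏ i : P ⊕ R, om b i) * ∑ ε : Pr F → Bool, sgn ε *
      ∑ W : Finset (P ⊕ R), (-1) ^ (Wᶜ).card * bit (Cond φ ε (fun i => i ∈ W)) := by
  classical
  unfold SS
  have : ∀ i : P ⊕ R, Nonempty (Fin (nx b i)) := fun i => ⟨⟨0, hnx i⟩⟩
  have h1 : ∀ η : Et b F P → Bool, sgn η * bit (HasPath (G p b (kf φ) η) s) = sgn η *
      bit (Cond φ (fun e => η (.inl e)) (fun i => wh b i (fun d => η (.inr ⟨i, d⟩)))) := by
    intro η
    congr 1
    exact bit_congr ⟨good_of_path φ cR hcR s ρ hF hρ1 hρ2 n2 n3 n6 n8 η,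
      path_of_good φ s n1 η⟩
  rw [Finset.sum_congr rfl fun η _ => h1 η]
  rw [show (∑ η : Et b F P → Bool, sgn η *
      bit (Cond φ (fun e => η (.inl e)) (fun i => wh b i (fun d => η (.inr ⟨i, d⟩))))) =
      ∑ η : Et b F P → Bool, (fun η : Et b F P → Bool => sgn η *
      bit (Cond φ (fun e => η (.inl e)) (fun i => wh b i (fun d => η (.inr ⟨i, d⟩))))) η from rfl]
  rw [sum_split, Finset.mul_sum]
  refine Finset.sum_congr rfl fun ε _ => ?_
  have h2 : ∀ ι : (Σ i : P ⊕ R, Fin (nx b i)) → Bool,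
      sgn (Sum.elim ε ι) * bit (Cond φ (fun e => Sum.elim ε ι (.inl e))
        (fun i => wh b i (fun d => Sum.elim ε ι (.inr ⟨i, d⟩)))) =
      sgn ε * (sgn ι * bit (Cond φ ε (fun i => wh b i (fun d => ι ⟨i, d⟩)))) := by
    intro ι
    rw [sgn_sum]
    simp only [Sum.elim_inl, Sum.elim_inr]
    ring
  rw [Finset.sum_congr rfl fun ι _ => h2 ι, ← Finset.mul_sum]
  have h3 := sum_whole (I := P ⊕ R) (X := fun i => Fin (nx b i)) (fun i => wh b i) (om b)
    (fun i => sum_om i) (fun W => bit (Cond φ ε W))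
  rw [h3]
  ring

/-- the relation, evaluated -/
theorem no_tree {n q s : ℕ} (hQ : GP n q (fun G : SimpleGraph (Fin n) => HasPath G s))
    (hV : Fintype.card (Vx p b F P) = n)
    (hcop : ∀ j j' : R, j ≠ j' → Nat.Coprime (b j) (b j')) (hq : q < n.choose 2)
    (cR : R → ℕ) (hcR : ∀ j g, g ∣ b j → g ≠ 1 → b j / g ≤ cR j) (ρ : ℕ)
    (hF : ∀ w1 w2 w3 : F, w1 = w2 ∨ w1 = w3 ∨ w2 = w3) (hρ1 : 1 ≤ ρ)
    (hρ2 : ∀ w w' : F, w ≠ w' → 2 ≤ ρ)
    (n1 : ∀ i j : P ⊕ R, i ≠ j → s ≤ sz p b i + sz p b j + 1)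
    (n2 : ∀ i j : P ⊕ R, cb cR i + sz p b j + ρ < s) (n3 : ∀ i : P ⊕ R, sz p b i + ρ < s)
    (n5 : ∀ w w' : F, w ≠ w' → ∀ i : P ⊕ R, s ≤ 2 * sz p b i + 1)
    (n6 : ∀ i j : P ⊕ R, cb cR i + cb cR j + ρ < s) (n8 : ρ < s)
    (hnx : ∀ i : P ⊕ R, 0 < nx b i) (hsq : ∀ j, Squarefree (b j)) :
    ∑ φ : P ⊕ R → F, ∑ ε : Pr F → Bool, sgn ε *
      ∑ W : Finset (P ⊕ R), (-1) ^ (Wᶜ).card * bit (Cond φ ε (fun i => i ∈ W)) = 0 := by
  classical
  have h1 := relation (F := F) p b hQ hV hcop hq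
  have h2 : ∑ χ : Jx b F P → Bool, sgn χ * bit (PV (fun G : SimpleGraph (Fin n) => HasPath G s) (Vx p b F P)
      (GR (orb p b) (orb_symm p b) (orb_self p b) χ)) =
      ∑ κ : Ky F P R → Bool, sgn κ * SS p b s κ := by
    have h3 : ∀ χ : Jx b F P → Bool, sgn χ * bit (PV (fun G : SimpleGraph (Fin n) => HasPath G s) (Vx p b F P)
        (GR (orb p b) (orb_symm p b) (orb_self p b) χ)) = sgn χ * bit (HasPath
          (GR (orb p b) (orb_symm p b) (orb_self p b) χ) s) := by
      intro χ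
      congr 1
      refine bit_congr ⟨?_, ?_⟩
      · rintro ⟨e, he⟩
        exact (hasPath_iso e).1 he
      · intro h
        obtain ⟨e⟩ : Nonempty (Vx p b F P ≃ Fin n) := Fintype.card_eq.1 (by
          rw [hV, Fintype.card_fin])
        exact ⟨e, (hasPath_iso e).2 h⟩
    rw [Finset.sum_congr rfl fun χ _ => h3 χ]
    have h4 := sum_split (A := Ky F P R) (B := Et b F P) (fun χ : Jx b F P → Bool =>
      sgn χ * bit (HasPath (GR (orb p b) (orb_symm p b) (orb_self p b) χ) s))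
    have h5 : ∑ χ : Jx b F P → Bool, sgn χ * bit (HasPath
          (GR (orb p b) (orb_symm p b) (orb_self p b) χ) s) =
        ∑ κ : Ky F P R → Bool, ∑ η : Et b F P → Bool, sgn (Sum.elim κ η) * bit (HasPath
          (GR (orb p b) (orb_symm p b) (orb_self p b) (Sum.elim κ η)) s) := by
      rw [← h4]
    rw [h5]
    refine Finset.sum_congr rfl fun κ _ => ?_
    rw [SS, Finset.mul_sum]
    refine Finset.sum_congr rfl fun η _ => ?_
    rw [sgn_sum]
    simp only [Sum.elim_inl, Sum.elim_inr]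
    rw [mul_assoc]
    rfl
  rw [h2, sum_keys (SS p b s) (fun κ hκ => SS_zero s n1 (fun i => by have := n3 i; omega) n5 hnx κ hκ)]
    at h1
  have h6 : ∀ φ : P ⊕ R → F, SS p b s (kf φ) = (∏ i : P ⊕ R, om b i) * ∑ ε : Pr F → Bool, sgn ε *
      ∑ W : Finset (P ⊕ R), (-1) ^ (Wᶜ).card * bit (Cond φ ε (fun i => i ∈ W)) := fun φ =>
    SS_kf φ cR hcR s ρ hF hρ1 hρ2 n1 n2 n3 n6 n8 hnx
  rw [Finset.sum_congr rfl fun φ _ => h6 φ, ← Finset.mul_sum] at h1
  rcases mul_eq_zero.1 h1 with h7 | h7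
  · exact absurd h7 (pow_ne_zero _ (by norm_num))
  · rcases mul_eq_zero.1 h7 with h8 | h8
    · exfalso
      rw [Finset.prod_eq_zero_iff] at h8
      obtain ⟨i, _, hi⟩ := h8
      rcases i with i | j
      · revert hi
        unfold om
        simp
      · have : ArithmeticFunction.moebius (b j) = 0 := hi
        exact (ArithmeticFunction.moebius_ne_zero_iff_squarefree.2 (hsq j)) this
    · exact h8

end good

end Pool.Agent.TH669.KP
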