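import Pool.Agent.TH669.KP.Eval3

set_option autoImplicit false
set_option linter.unusedSectionVars false

/-!
# The block theorem
-/

namespace Pool.Agent.TH669.KP

open Finset
open Pool.Agent.H119R2.Kp (GP PV)

section

variable {P R : Type} [DecidableEq P] [DecidableEq R] [Fintype P] [Fintype R]

theorem eval_one (hK : 2 ≤ Fintype.card (P ⊕ R)) :
    ∑ φ : P ⊕ R → Unit, ∑ ε : Pr Unit → Bool, sgn ε *
      ∑ W : Finset (P ⊕ R), (-1) ^ (Wᶜ).card * bit (Cond φ ε (fun i => i ∈ W)) ≠ 0 := by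
  classical
  have : IsEmpty (Pr Unit) := by
    refine ⟨fun ⟨e, he⟩ => ?_⟩
    induction e using Sym2.ind with
    | _ i j =>
    apply he
    rw [Sym2.mk_isDiag_iff]
  have : Nonempty (P ⊕ R) := Fintype.card_pos_iff.1 (by omega)
  have h1 : ∀ φ : P ⊕ R → Unit, ∑ ε : Pr Unit → Bool, sgn ε *
      ∑ W : Finset (P ⊕ R), (-1) ^ (Wᶜ).card * bit (Cond φ ε (fun i => i ∈ W)) =
      (-1) ^ (Fintype.card (P ⊕ R)) * ((Fintype.card (P ⊕ R) : ℤ) - 1) := by
    intro φ
    rw [sum_empty_fun (fun ε : Pr Unit → Bool =>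
      ∑ W : Finset (P ⊕ R), (-1) ^ (Wᶜ).card * bit (Cond φ ε (fun i => i ∈ W))), ← sum_two]
    refine Finset.sum_congr rfl fun W _ => ?_
    congr 1
    refine bit_congr ⟨?_, ?_⟩
    · rintro ⟨i, j, hij, hi, hj, _⟩
      exact ⟨i, j, hij, hi, hj⟩
    · rintro ⟨i, j, hij, hi, hj⟩
      exact ⟨i, j, hij, hi, hj, Or.inl rfl⟩
  rw [Finset.sum_congr rfl fun φ _ => h1 φ, Finset.sum_const, nsmul_eq_mul]
  refine mul_ne_zero ?_ (mul_ne_zero (pow_ne_zero _ (by norm_num)) ?_)
  · simp
  · omega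

theorem eval_two (hK : 2 ≤ Fintype.card (P ⊕ R)) :
    ∑ φ : P ⊕ R → Bool, ∑ ε : Pr Bool → Bool, sgn ε *
      ∑ W : Finset (P ⊕ R), (-1) ^ (Wᶜ).card * bit (Cond φ ε (fun i => i ∈ W)) ≠ 0 := by
  classical
  let e0 : Pr Bool := ⟨s(false, true), by rw [Sym2.mk_isDiag_iff]; simp⟩
  let _i : Unique (Pr Bool) := ⟨⟨e0⟩, by
    rintro ⟨e, he⟩
    induction e using Sym2.ind with
    | _ i j =>
    rw [Sym2.mk_isDiag_iff] at he
    apply Subtype.ext
    show s(i, j) = s(false, true)
    cases i <;> cases j <;> simp at he ⊢⟩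
  have hbad : ∀ (φ : P ⊕ R → Bool) (W : Finset (P ⊕ R)),
      (-1 : ℤ) ^ (Wᶜ).card * bit (Cond φ (fun _ => false) (fun i => i ∈ W)) -
      (-1 : ℤ) ^ (Wᶜ).card * bit (Cond φ (fun _ => true) (fun i => i ∈ W)) =
      -((-1) ^ (Fintype.card (P ⊕ R)) * bit (Cond φ (fun _ => true) (fun i => i ∈ W) ∧
        ¬ Cond φ (fun _ => false) (fun i => i ∈ W))) := by
    intro φ W
    by_cases h1 : Cond φ (fun _ => true) (fun i => i ∈ W)
    · by_cases h2 : Cond φ (fun _ => false) (fun i => i ∈ W)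
      · rw [bit_pos h1, bit_pos h2, bit_neg (fun h => h.2 h2)]
        ring
      · rw [bit_pos h1, bit_neg h2, bit_pos ⟨h1, h2⟩]
        have h3 : W.card = 2 := by
          obtain ⟨i, j, hij, hi, hj, h⟩ := h1
          have h4 : W = {i, j} := by
            ext x
            rw [Finset.mem_insert, Finset.mem_singleton]
            constructor
            · intro hx
              by_contra hne
              push Not at hne
              have h5 : φ i ≠ φ j := fun h => h2 ⟨i, j, hij, hi, hj, Or.inl h⟩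
              have h6 : φ x ≠ φ i := fun h => h2 ⟨x, i, hne.1, hx, hi, Or.inl h⟩
              have h7 : φ x ≠ φ j := fun h => h2 ⟨x, j, hne.2, hx, hj, Or.inl h⟩
              revert h5 h6 h7
              cases φ x <;> cases φ i <;> cases φ j <;> simp
            · rintro (rfl | rfl)
              · exact hi
              · exact hj
          rw [h4, Finset.card_pair hij]
        rw [card_compl', h3]
        ring
    · have h2 : ¬ Cond φ (fun _ => false) (fun i => i ∈ W) := by
        rintro ⟨i, j, hij, hi, hj, h⟩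
        rcases h with h | ⟨_, h⟩
        · exact h1 ⟨i, j, hij, hi, hj, Or.inl h⟩
        · simp at h
      rw [bit_neg h1, bit_neg h2, bit_neg (fun h => h1 h.1)]
      ring
  have h1 : ∀ φ : P ⊕ R → Bool, ∑ ε : Pr Bool → Bool, sgn ε *
      ∑ W : Finset (P ⊕ R), (-1) ^ (Wᶜ).card * bit (Cond φ ε (fun i => i ∈ W)) =
      -((-1) ^ (Fintype.card (P ⊕ R)) *
        ∑ W : Finset (P ⊕ R), bit (Cond φ (fun _ => true) (fun i => i ∈ W) ∧
        ¬ Cond φ (fun _ => false) (fun i => i ∈ W))) := by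
    intro φ
    have h2 := sum_unique_fun (X := Pr Bool) (fun ε : Pr Bool → Bool =>
      ∑ W : Finset (P ⊕ R), (-1) ^ (Wᶜ).card * bit (Cond φ ε (fun i => i ∈ W)))
    rw [h2, ← Finset.sum_sub_distrib, Finset.mul_sum, ← Finset.sum_neg_distrib]
    exact Finset.sum_congr rfl fun W _ => hbad φ W
  rw [Finset.sum_congr rfl fun φ _ => h1 φ, Finset.sum_neg_distrib, ← Finset.mul_sum]
  rw [neg_ne_zero]
  refine mul_ne_zero (pow_ne_zero _ (by norm_num)) ?_
  have hbit : ∀ q : Prop, 0 ≤ bit q := by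
    intro q
    by_cases hq : q
    · rw [bit_pos hq]; norm_num
    · rw [bit_neg hq]
  apply ne_of_gt
  obtain ⟨i, j, hij⟩ : ∃ i j : P ⊕ R, i ≠ j := by
    obtain ⟨i, j, h⟩ := Fintype.one_lt_card_iff.1 (show 1 < Fintype.card (P ⊕ R) by omega)
    exact ⟨i, j, h⟩
  refine Finset.sum_pos' (fun φ _ => Finset.sum_nonneg fun W _ => hbit _)
    ⟨fun x => decide (x = i), Finset.mem_univ _, ?_⟩
  refine Finset.sum_pos' (fun W _ => hbit _) ⟨{i, j}, Finset.mem_univ _, ?_⟩
  rw [bit_pos]
  · norm_num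
  · have hne : decide (i = i) ≠ decide (j = i) := by
      simp [hij.symm]
    refine ⟨⟨i, j, hij, by simp, by simp, Or.inr ⟨hne, rfl⟩⟩, ?_⟩
    rintro ⟨x, y, hxy, hx, hy, h⟩
    rcases h with h | ⟨_, h⟩
    · simp only [Finset.mem_insert, Finset.mem_singleton] at hx hy
      simp only [decide_eq_decide] at h
      rcases hx with rfl | rfl
      · rcases hy with rfl | rfl
        · exact hxy rfl
        · exact hij.symm (h.1 rfl)
      · rcases hy with rfl | rfl
        · exact hij.symm (h.2 rfl)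
        · exact hxy rfl
    · simp at h

end

/-- the block theorem: one fixed point -/
theorem block_one {n q s k p : ℕ} [Fact p.Prime] (b cR : Bool → ℕ) (hb : ∀ j, 2 ≤ b j)
    (hsq : ∀ j, Squarefree (b j)) (hcop : Nat.Coprime (b true) (b false))
    (hcR : ∀ j g, g ∣ b j → g ≠ 1 → b j / g ≤ cR j)
    (hn : n = k * p + b true + b false + 1) (hq : q < n.choose 2)
    (n1 : ∀ i j : Fin k ⊕ Bool, i ≠ j → s ≤ sz p b i + sz p b j + 1)
    (n2 : ∀ i j : Fin k ⊕ Bool, cb cR i + sz p b j + 1 < s)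
    (n3 : ∀ i : Fin k ⊕ Bool, sz p b i + 1 < s)
    (n6 : ∀ i j : Fin k ⊕ Bool, cb cR i + cb cR j + 1 < s) (n8 : 1 < s) :
    ¬ GP n q (fun G : SimpleGraph (Fin n) => HasPath G s) := by
  intro hQ
  have : ∀ j, NeZero (b j) := fun j => ⟨by have := hb j; omega⟩
  have hcard : Fintype.card (Vx p b Unit (Fin k)) = n := by
    rw [Fintype.card_sum, Fintype.card_sigma, Fintype.sum_sum_type, Fintype.sum_bool]
    have h1 : ∀ i : Fin k, Fintype.card (ZMod (sz p b (.inl i : Fin k ⊕ Bool))) = p := by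
      intro i
      rw [ZMod.card]
      rfl
    have h2 : ∀ j : Bool, Fintype.card (ZMod (sz p b (.inr j : Fin k ⊕ Bool))) = b j := by
      intro j
      rw [ZMod.card]
      rfl
    rw [Finset.sum_congr rfl fun i _ => h1 i, h2, h2, Finset.sum_const, Finset.card_univ,
      Fintype.card_fin, Fintype.card_unit, hn]
    simp only [smul_eq_mul]
    ring
  have hK : 2 ≤ Fintype.card (Fin k ⊕ Bool) := by
    rw [Fintype.card_sum, Fintype.card_bool]
    omega
  refine eval_one (P := Fin k) (R := Bool) hK ?_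
  refine no_tree (p := p) (P := Fin k) (R := Bool) (b := b) (F := Unit) hQ hcard ?_ hq cR hcR 1
    (fun _ _ _ => Or.inl rfl) le_rfl (fun w w' h => absurd rfl h) n1 n2 n3
    (fun w w' h => absurd rfl h) n6 n8 ?_ hsq
  · intro j j' hj
    cases j <;> cases j'
    · exact absurd rfl hj
    · exact hcop.symm
    · exact hcop
    · exact absurd rfl hj
  · rintro (i | j)
    · exact one_pos
    · have := hb j
      show 0 < b j / 2
      omega

/-- the block theorem: two fixed points -/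
theorem block_two {n q s k p : ℕ} [Fact p.Prime] (b cR : Bool → ℕ) (hb : ∀ j, 2 ≤ b j)
    (hsq : ∀ j, Squarefree (b j)) (hcop : Nat.Coprime (b true) (b false))
    (hcR : ∀ j g, g ∣ b j → g ≠ 1 → b j / g ≤ cR j)
    (hn : n = k * p + b true + b false + 2) (hq : q < n.choose 2)
    (n1 : ∀ i j : Fin k ⊕ Bool, i ≠ j → s ≤ sz p b i + sz p b j + 1)
    (n2 : ∀ i j : Fin k ⊕ Bool, cb cR i + sz p b j + 2 < s)
    (n3 : ∀ i : Fin k ⊕ Bool, sz p b i + 2 < s)
    (n5 : ∀ i : Fin k ⊕ Bool, s ≤ 2 * sz p b i + 1)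
    (n6 : ∀ i j : Fin k ⊕ Bool, cb cR i + cb cR j + 2 < s) (n8 : 2 < s) :
    ¬ GP n q (fun G : SimpleGraph (Fin n) => HasPath G s) := by
  intro hQ
  have : ∀ j, NeZero (b j) := fun j => ⟨by have := hb j; omega⟩
  have hcard : Fintype.card (Vx p b Bool (Fin k)) = n := by
    rw [Fintype.card_sum, Fintype.card_sigma, Fintype.sum_sum_type, Fintype.sum_bool]
    have h1 : ∀ i : Fin k, Fintype.card (ZMod (sz p b (.inl i : Fin k ⊕ Bool))) = p := by
      intro i
      rw [ZMod.card]
      rfl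
    have h2 : ∀ j : Bool, Fintype.card (ZMod (sz p b (.inr j : Fin k ⊕ Bool))) = b j := by
      intro j
      rw [ZMod.card]
      rfl
    rw [Finset.sum_congr rfl fun i _ => h1 i, h2, h2, Finset.sum_const, Finset.card_univ,
      Fintype.card_fin, Fintype.card_bool, hn]
    simp only [smul_eq_mul]
    ring
  have hK : 2 ≤ Fintype.card (Fin k ⊕ Bool) := by
    rw [Fintype.card_sum, Fintype.card_bool]
    omega
  refine eval_two (P := Fin k) (R := Bool) hK ?_
  refine no_tree (p := p) (P := Fin k) (R := Bool) (b := b) (F := Bool) hQ hcard ?_ hq cR hcR 2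
    ?_ (by norm_num) (fun _ _ _ => le_rfl) n1 n2 n3 (fun _ _ _ => n5) n6 n8 ?_ hsq
  · intro j j' hj
    cases j <;> cases j'
    · exact absurd rfl hj
    · exact hcop.symm
    · exact hcop
    · exact absurd rfl hj
  · intro w1 w2 w3
    cases w1 <;> cases w2 <;> cases w3 <;> simp
  · rintro (i | j)
    · exact one_pos
    · have := hb j
      show 0 < b j / 2
      omega

end Pool.Agent.TH669.KP
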