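import Pool.Agent.TH669.KP.Orb
import Pool.Agent.TH669.KP.Circ

set_option autoImplicit false
set_option linter.unusedSectionVars false

/-!
# The group and its orbits

Vertices: a set `F` of fixed points, blocks `ZMod p` indexed by `P`, rotation blocks `ZMod (b j)`
indexed by `R`, with pairwise coprime sizes.
-/

namespace Pool.Agent.TH669.KP

open Finset

section

variable (p : ℕ) {P R : Type} (b : R → ℕ)

/-- block sizes -/
def sz : P ⊕ R → ℕ := Sum.elim (fun _ => p) b

/-- number of inner orbits -/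
def nx : P ⊕ R → ℕ := Sum.elim (fun _ => 1) (fun j => b j / 2)

instance instNZ [Fact p.Prime] [∀ j, NeZero (b j)] (i : P ⊕ R) : NeZero (sz p b i) := by
  rcases i with i | j
  · exact ⟨(Fact.out : p.Prime).ne_zero⟩
  · exact ⟨NeZero.ne (b j)⟩

/-- unordered pairs of distinct elements -/
abbrev Pr (X : Type) : Type := {e : Sym2 X // ¬ e.IsDiag}

/-- classes of inner differences -/
def cls [∀ j, NeZero (b j)] : (i : P ⊕ R) → ZMod (sz p b i) → Option (Fin (nx b i))
  | .inl _, z => if (show ZMod p from z) = 0 then none else some (0 : Fin 1)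
  | .inr j, z => cl (show ZMod (b j) from z)

variable (F : Type)

/-- the vertices -/
abbrev Vx (P : Type) : Type := F ⊕ (Σ i : P ⊕ R, ZMod (sz p b i))

/-- the orbits -/
abbrev Jx (P : Type) : Type :=
  ((F × (P ⊕ R)) ⊕ Pr (P ⊕ R)) ⊕ (Pr F ⊕ (Σ i : P ⊕ R, Fin (nx b i)))

variable {F}

section orb

variable [DecidableEq F] [DecidableEq P] [DecidableEq R] [∀ j, NeZero (b j)]

/-- the orbit of a pair -/
def orb : Vx p b F P → Vx p b F P → Option (Jx b F P)
  | .inl w, .inl w' => if h : w = w' then none else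
      some (.inr (.inl ⟨s(w, w'), by rw [Sym2.mk_isDiag_iff]; exact h⟩))
  | .inl w, .inr u => some (.inl (.inl (w, u.1)))
  | .inr u, .inl w => some (.inl (.inl (w, u.1)))
  | .inr u, .inr v => if h : u.1 = v.1 then
      (cls p b u.1 (u.2 - (h ▸ v.2))).map fun d => .inr (.inr ⟨u.1, d⟩)
      else some (.inl (.inr ⟨s(u.1, v.1), by rw [Sym2.mk_isDiag_iff]; exact h⟩))

theorem orb_FF {w w' : F} (h : w ≠ w') : orb (P := P) p b (.inl w) (.inl w') =
    some (.inr (.inl ⟨s(w, w'), by rw [Sym2.mk_isDiag_iff]; exact h⟩)) := by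
  simp only [orb]
  rw [dif_neg h]

theorem orb_FF_self (w : F) : orb (P := P) p b (.inl w) (.inl w) = none := by
  simp only [orb]
  rw [dif_pos trivial]

theorem orb_FI (w : F) (i : P ⊕ R) (x : ZMod (sz p b i)) :
    orb p b (.inl w) (.inr ⟨i, x⟩) = some (.inl (.inl (w, i))) := rfl

theorem orb_IF (w : F) (i : P ⊕ R) (x : ZMod (sz p b i)) :
    orb p b (.inr ⟨i, x⟩) (.inl w) = some (.inl (.inl (w, i))) := rfl

theorem orb_same (i : P ⊕ R) (x y : ZMod (sz p b i)) :
    orb (F := F) p b (.inr ⟨i, x⟩) (.inr ⟨i, y⟩) =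
      (cls p b i (x - y)).map fun d => .inr (.inr ⟨i, d⟩) := by
  unfold orb
  simp

theorem orb_diff {i j : P ⊕ R} (h : i ≠ j) (x : ZMod (sz p b i)) (y : ZMod (sz p b j)) :
    orb (F := F) p b (.inr ⟨i, x⟩) (.inr ⟨j, y⟩) =
      some (.inl (.inr ⟨s(i, j), by rw [Sym2.mk_isDiag_iff]; exact h⟩)) := by
  simp only [orb]
  rw [dif_neg h]

theorem cls_neg (i : P ⊕ R) (z : ZMod (sz p b i)) : cls p b i (-z) = cls p b i z := by
  rcases i with i | j
  · unfold cls
    simp only
    have : (show ZMod p from -z) = 0 ↔ (show ZMod p from z) = 0 := neg_eq_zero (α := ZMod p)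
    by_cases h : (show ZMod p from z) = 0
    · rw [if_pos h, if_pos (this.2 h)]
    · rw [if_neg h, if_neg (fun h' => h (this.1 h'))]
  · exact cl_neg (b := b j) z

theorem cls_zero (i : P ⊕ R) : cls p b i 0 = none := by
  rcases i with i | j
  · unfold cls
    exact if_pos rfl
  · exact cl_zero (b := b j)

theorem cls_ne_none (i : P ⊕ R) {z : ZMod (sz p b i)} (hz : z ≠ 0) : cls p b i z ≠ none := by
  rcases i with i | j
  · unfold cls
    simp only
    rw [if_neg (show ¬ (show ZMod p from z) = 0 from hz)]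
    simp
  · exact cl_ne_none (b := b j) hz

theorem orb_symm (u v : Vx p b F P) : orb p b u v = orb p b v u := by
  rcases u with w | ⟨i, x⟩
  · rcases v with w' | ⟨j, y⟩
    · by_cases h : w = w'
      · subst h
        rfl
      · rw [orb_FF p b h, orb_FF p b (Ne.symm h)]
        simp [Sym2.eq_swap]
    · rfl
  · rcases v with w' | ⟨j, y⟩
    · rfl
    · by_cases h : i = j
      · subst h
        rw [orb_same, orb_same, ← cls_neg, neg_sub]
      · rw [orb_diff p b h, orb_diff p b (Ne.symm h)]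
        simp [Sym2.eq_swap]

theorem orb_self (u : Vx p b F P) : orb p b u u = none := by
  rcases u with w | ⟨i, x⟩
  · exact orb_FF_self p b w
  · rw [orb_same, sub_self, cls_zero]
    rfl

theorem orb_ne_none (u v : Vx p b F P) (huv : u ≠ v) : orb p b u v ≠ none := by
  rcases u with w | ⟨i, x⟩
  · rcases v with w' | ⟨j, y⟩
    · rw [orb_FF p b (fun h => huv (by rw [h]))]
      simp
    · rw [orb_FI]
      simp
  · rcases v with w' | ⟨j, y⟩
    · rw [orb_IF]
      simp
    · by_cases h : i = j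
      · subst h
        rw [orb_same]
        have h1 : x - y ≠ 0 := sub_ne_zero.2 fun h => huv (by rw [h])
        have := cls_ne_none p b i h1
        rw [Ne, Option.map_eq_none_iff]
        exact this
      · rw [orb_diff p b h]
        simp

end orb

/-! ### the group -/

section group

variable [Fact p.Prime] (ζ : (ZMod p)ˣ)

/-- the cyclic generator on the blocks -/
def cB : (i : P ⊕ R) → Equiv.Perm (ZMod (sz p b i))
  | .inl _ => (Units.mulLeft ζ : Equiv.Perm (ZMod p))
  | .inr j => (Equiv.addRight (1 : ZMod (b j)) : Equiv.Perm (ZMod (b j)))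

/-- the cyclic generator -/
def cG : Equiv.Perm (Vx p b F P) :=
  Equiv.sumCongr (Equiv.refl F) (Equiv.sigmaCongrRight (cB p b ζ))

variable [DecidableEq P] [DecidableEq R]

/-- translation of one block -/
def aG (i0 : P) : Equiv.Perm (Vx p b F P) :=
  Equiv.sumCongr (Equiv.refl F) (Equiv.sigmaCongrRight fun i =>
    if i = Sum.inl i0 then (Equiv.addRight (1 : ZMod (sz p b i))) else 1)

theorem cG_F (w : F) : cG (P := P) p b ζ (.inl w) = .inl w := rfl

theorem cG_P (i : P) (x : ZMod (sz p b (.inl i))) :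
    cG (F := F) p b ζ (.inr ⟨.inl i, x⟩) =
      .inr ⟨.inl i, (show ZMod (sz p b (.inl i)) from (ζ : ZMod p) * (show ZMod p from x))⟩ := rfl

theorem cG_R (j : R) (x : ZMod (sz p b (.inr j))) :
    cG (F := F) (P := P) p b ζ (.inr ⟨.inr j, x⟩) = .inr ⟨.inr j, x + 1⟩ := rfl

theorem aG_F (i0 : P) (w : F) : aG p b i0 (.inl w) = .inl w := rfl

theorem aG_same (i0 : P) (x : ZMod (sz p b (.inl i0))) :
    aG (F := F) p b i0 (.inr ⟨.inl i0, x⟩) = .inr ⟨.inl i0, x + 1⟩ := by
  unfold aG
  simp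

theorem aG_diff (i0 : P) (i : P ⊕ R) (h : i ≠ .inl i0) (x : ZMod (sz p b i)) :
    aG (F := F) p b i0 (.inr ⟨i, x⟩) = .inr ⟨i, x⟩ := by
  unfold aG
  simp [h]

theorem cG_pow_F (t : ℕ) (w : F) : (cG (P := P) p b ζ ^ t) (.inl w) = .inl w := by
  induction t with
  | zero => rfl
  | succ t ih => rw [pow_succ, Equiv.Perm.mul_apply, cG_F, ih]

theorem cG_pow_P (t : ℕ) (i : P) (x : ZMod p) :
    (cG (F := F) p b ζ ^ t) (.inr ⟨.inl i, (show ZMod (sz p b (.inl i)) from x)⟩) =
      .inr ⟨.inl i, (show ZMod (sz p b (.inl i)) from (ζ : ZMod p) ^ t * x)⟩ := by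
  induction t generalizing x with
  | zero => simp
  | succ t ih =>
    rw [pow_succ, Equiv.Perm.mul_apply, cG_P]
    have := ih ((ζ : ZMod p) * x)
    rw [← mul_assoc, ← pow_succ] at this
    exact this

theorem cG_pow_R (t : ℕ) (j : R) (x : ZMod (sz p b (.inr j))) :
    (cG (F := F) (P := P) p b ζ ^ t) (.inr ⟨.inr j, x⟩) = .inr ⟨.inr j, x + (t : ZMod (sz p b (.inr j)))⟩ := by
  induction t generalizing x with
  | zero => simp
  | succ t ih =>
    rw [pow_succ, Equiv.Perm.mul_apply, cG_R, ih]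
    push_cast
    rw [add_assoc, add_comm (1 : ZMod _)]

theorem aG_pow_F (i0 : P) (t : ℕ) (w : F) : (aG (R := R) p b i0 ^ t) (.inl w) = .inl w := by
  induction t with
  | zero => rfl
  | succ t ih => rw [pow_succ, Equiv.Perm.mul_apply, aG_F, ih]

theorem aG_pow_same (i0 : P) (t : ℕ) (x : ZMod (sz p b (.inl i0))) :
    (aG (F := F) p b i0 ^ t) (.inr ⟨.inl i0, x⟩) =
      .inr ⟨.inl i0, x + (t : ZMod (sz p b (.inl i0)))⟩ := by
  induction t generalizing x with
  | zero => simp
  | succ t ih =>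
    rw [pow_succ, Equiv.Perm.mul_apply, aG_same, ih]
    push_cast
    rw [add_assoc, add_comm (1 : ZMod _)]

theorem aG_pow_diff (i0 : P) (t : ℕ) (i : P ⊕ R) (h : i ≠ .inl i0) (x : ZMod (sz p b i)) :
    (aG (F := F) p b i0 ^ t) (.inr ⟨i, x⟩) = .inr ⟨i, x⟩ := by
  induction t with
  | zero => rfl
  | succ t ih => rw [pow_succ, Equiv.Perm.mul_apply, aG_diff p b i0 i h, ih]

theorem aG_comm (i j : P) : aG (F := F) p b i * aG p b j = aG p b j * aG p b i := by
  ext u
  rw [Equiv.Perm.mul_apply, Equiv.Perm.mul_apply]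
  rcases u with w | ⟨k, x⟩
  · rfl
  · by_cases hi : k = .inl i
    · subst hi
      by_cases hj : i = j
      · subst hj
        rfl
      · have hj' : (Sum.inl i : P ⊕ R) ≠ .inl j := fun h => hj (Sum.inl_injective h)
        rw [aG_diff p b j _ hj', aG_same, aG_diff p b j _ hj']
    · rw [aG_diff p b i k hi]
      by_cases hj : k = .inl j
      · subst hj
        rw [aG_same, aG_diff p b i _ hi]
      · rw [aG_diff p b j k hj, aG_diff p b i k hi]

theorem aG_pow_p (i : P) : aG (F := F) p b i ^ p = 1 := by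
  ext u
  rcases u with w | ⟨k, x⟩
  · rw [aG_pow_F]
    rfl
  · by_cases hi : k = .inl i
    · subst hi
      rw [aG_pow_same]
      have : ((p : ℕ) : ZMod (sz p b (.inl i))) = 0 := ZMod.natCast_self p
      rw [this, add_zero]
      rfl
    · rw [aG_pow_diff p b i p k hi]
      rfl

theorem cG_conj (i : P) : (cG (F := F) p b ζ)⁻¹ * aG p b i * cG p b ζ =
    aG p b i ^ ((ζ⁻¹ : (ZMod p)ˣ) : ZMod p).val := by
  rw [mul_assoc, inv_mul_eq_iff_eq_mul]
  ext u
  rw [Equiv.Perm.mul_apply, Equiv.Perm.mul_apply]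
  rcases u with w | ⟨k, x⟩
  · rw [aG_pow_F]
    rfl
  · rcases k with i' | j
    · by_cases hi : i' = i
      · subst hi
        rw [aG_pow_same, cG_P, aG_same, cG_P]
        congr 2
        have h1 : ((((ζ⁻¹ : (ZMod p)ˣ) : ZMod p).val : ℕ) : ZMod p) = ((ζ⁻¹ : (ZMod p)ˣ) : ZMod p) :=
          ZMod.natCast_zmod_val _
        have h2 : (ζ : ZMod p) * (show ZMod p from x) + 1 = (ζ : ZMod p) *
            ((show ZMod p from x) + ((((ζ⁻¹ : (ZMod p)ˣ) : ZMod p).val : ℕ) : ZMod p)) := by
          rw [h1, mul_add, Units.mul_inv]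
        exact h2
      · have hi' : (Sum.inl i' : P ⊕ R) ≠ .inl i := fun h => hi (Sum.inl_injective h)
        rw [aG_pow_diff p b i _ _ hi', cG_P, aG_diff p b i _ hi']
    · have hi' : (Sum.inr j : P ⊕ R) ≠ .inl i := by simp
      rw [aG_pow_diff p b i _ _ hi', cG_R, aG_diff p b i _ hi']

end group

end

end Pool.Agent.TH669.KP
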