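import Pool.Agent.TH669.KP.Model

set_option autoImplicit false
set_option linter.unusedSectionVars false

/-!
# Transitivity on the orbits, the relation
-/

namespace Pool.Agent.TH669.KP

open Finset
open Pool.Agent.H119R2.Kp (GP PV)

section

variable (p : ℕ) {P R : Type} (b : R → ℕ) {F : Type}
variable [DecidableEq F] [DecidableEq P] [DecidableEq R] [∀ j, NeZero (b j)]

instance instDJ : DecidableEq (Jx b F P) :=
  haveI : DecidableEq ((F × (P ⊕ R)) ⊕ Pr (P ⊕ R)) := inferInstance
  haveI : DecidableEq (Pr F ⊕ (Σ i : P ⊕ R, Fin (nx b i))) := inferInstance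
  instDecidableEqSum

theorem orb_inv (g : Vx p b F P → Vx p b F P) (f : ∀ i : P ⊕ R, ZMod (sz p b i) → ZMod (sz p b i))
    (hF : ∀ w, g (.inl w) = .inl w) (hI : ∀ i x, g (.inr ⟨i, x⟩) = .inr ⟨i, f i x⟩)
    (hcls : ∀ i x y, cls p b i (f i x - f i y) = cls p b i (x - y)) (u v : Vx p b F P) :
    orb p b (g u) (g v) = orb p b u v := by
  rcases u with w | ⟨i, x⟩
  · rcases v with w' | ⟨j, y⟩
    · rw [hF, hF]
    · rw [hF, hI, orb_FI, orb_FI]
  · rcases v with w' | ⟨j, y⟩
    · rw [hF, hI, orb_IF, orb_IF]
    · rw [hI, hI]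
      by_cases h : i = j
      · subst h
        rw [orb_same, orb_same, hcls]
      · rw [orb_diff p b h, orb_diff p b h]

variable [Fact p.Prime]

theorem orb_aG (i0 : P) (u v : Vx p b F P) :
    orb p b (aG p b i0 u) (aG p b i0 v) = orb p b u v := by
  refine orb_inv p b (aG p b i0) (fun i x => if i = .inl i0 then x + 1 else x) (fun w => rfl) ?_ ?_
    u v
  · intro i x
    by_cases h : i = .inl i0
    · subst h
      rw [aG_same, if_pos rfl]
    · rw [aG_diff p b i0 i h, if_neg h]
  · intro i x y
    by_cases h : i = .inl i0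
    · simp only [if_pos h]
      rw [add_sub_add_right_eq_sub]
    · simp only [if_neg h]

variable (ζ : (ZMod p)ˣ)

theorem orb_cG (u v : Vx p b F P) :
    orb p b (cG p b ζ u) (cG p b ζ v) = orb p b u v := by
  refine orb_inv p b (cG p b ζ) (fun i x => cB p b ζ i x) (fun w => rfl) (fun i x => rfl) ?_ u v
  intro i x y
  rcases i with i | j
  · have h1 : (show ZMod p from cB p b ζ (.inl i) x - cB p b ζ (.inl i) y) =
        (ζ : ZMod p) * ((show ZMod p from x) - (show ZMod p from y)) := by
      rw [mul_sub]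
      rfl
    unfold cls
    simp only
    have h2 : (show ZMod p from cB p b ζ (.inl i) x - cB p b ζ (.inl i) y) = 0 ↔
        (show ZMod p from x - y) = 0 := by
      rw [h1, Units.mul_right_eq_zero]
      rfl
    by_cases h : (show ZMod p from x - y) = 0
    · rw [if_pos h, if_pos (h2.2 h)]
    · rw [if_neg h, if_neg (fun h' => h (h2.1 h'))]
  · show cls p b (.inr j) ((x + 1) - (y + 1)) = _
    rw [add_sub_add_right_eq_sub]

variable (F P) in
/-- the group -/
def Gr : Subgroup (Equiv.Perm (Vx p b F P)) :=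
  Subgroup.closure (insert (cG p b ζ) (Set.range (aG p b)))

theorem cG_mem : cG p b ζ ∈ Gr p P b F ζ := Subgroup.subset_closure (Set.mem_insert _ _)

theorem aG_mem (i : P) : aG p b i ∈ Gr p P b F ζ :=
  Subgroup.subset_closure (Set.mem_insert_of_mem _ (Set.mem_range_self i))

theorem Gr_F (g : Equiv.Perm (Vx p b F P)) (hg : g ∈ Gr p P b F ζ) (w : F) :
    g (.inl w) = .inl w := by
  unfold Gr at hg
  induction hg using Subgroup.closure_induction with
  | mem x hx =>
    rcases hx with rfl | ⟨i, rfl⟩
    · rfl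
    · rfl
  | one => rfl
  | mul x y _ _ hx hy => rw [Equiv.Perm.mul_apply, hy, hx]
  | inv x _ hx => rw [Equiv.Perm.inv_eq_iff_eq]; exact hx.symm

theorem cast_val (i : P ⊕ R) (z : ZMod (sz p b i)) : ((z.val : ℕ) : ZMod (sz p b i)) = z := by
  rw [ZMod.natCast_zmod_val]

/-- transitivity on a block -/
theorem trans_one (i : P ⊕ R) (x x' : ZMod (sz p b i)) :
    ∃ g ∈ Gr p P b F ζ, g (.inr ⟨i, x⟩) = .inr ⟨i, x'⟩ := by
  rcases i with i | j
  · refine ⟨aG p b i ^ (x' - x).val, Subgroup.pow_mem _ (aG_mem p b ζ i) _, ?_⟩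
    rw [aG_pow_same, cast_val, add_sub_cancel]
  · refine ⟨cG p b ζ ^ (x' - x).val, Subgroup.pow_mem _ (cG_mem p b ζ) _, ?_⟩
    rw [cG_pow_R, cast_val, add_sub_cancel]

/-- transitivity on a `p`-block with the other blocks fixed after a power of the cyclic generator -/
theorem trans_PR (i : P) (j : R) (x x' : ZMod (sz p b (.inl i))) (y y' : ZMod (sz p b (.inr j))) :
    ∃ g ∈ Gr p P b F ζ, g (.inr ⟨.inl i, x⟩) = .inr ⟨.inl i, x'⟩ ∧
      g (.inr ⟨.inr j, y⟩) = .inr ⟨.inr j, y'⟩ := by
  obtain ⟨x1, hx1⟩ : ∃ x1 : ZMod (sz p b (.inl i)),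
      (cG (F := F) p b ζ ^ (y' - y).val) (.inr ⟨.inl i, x⟩) = .inr ⟨.inl i, x1⟩ :=
    ⟨_, cG_pow_P p b ζ (y' - y).val i x⟩
  refine ⟨aG p b i ^ (x' - x1).val * cG p b ζ ^ (y' - y).val,
    Subgroup.mul_mem _ (Subgroup.pow_mem _ (aG_mem p b ζ i) _)
      (Subgroup.pow_mem _ (cG_mem p b ζ) _), ?_, ?_⟩
  · rw [Equiv.Perm.mul_apply, hx1, aG_pow_same, cast_val, add_sub_cancel]
  · rw [Equiv.Perm.mul_apply, cG_pow_R, aG_pow_diff p b i _ _ (by simp), cast_val, add_sub_cancel]

/-- transitivity on pairs of vertices in different blocks -/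
theorem trans_two (hcop : ∀ j j' : R, j ≠ j' → Nat.Coprime (b j) (b j')) (i j : P ⊕ R) (hij : i ≠ j)
    (x x' : ZMod (sz p b i)) (y y' : ZMod (sz p b j)) :
    ∃ g ∈ Gr p P b F ζ, g (.inr ⟨i, x⟩) = .inr ⟨i, x'⟩ ∧
      g (.inr ⟨j, y⟩) = .inr ⟨j, y'⟩ := by
  rcases i with i | i
  · rcases j with j | j
    · refine ⟨aG p b i ^ (x' - x).val * aG p b j ^ (y' - y).val,
        Subgroup.mul_mem _ (Subgroup.pow_mem _ (aG_mem p b ζ i) _)
          (Subgroup.pow_mem _ (aG_mem p b ζ j) _), ?_, ?_⟩
      · rw [Equiv.Perm.mul_apply, aG_pow_diff p b j _ _ hij, aG_pow_same, cast_val, add_sub_cancel]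
      · rw [Equiv.Perm.mul_apply, aG_pow_same, aG_pow_diff p b i _ _ hij.symm, cast_val,
          add_sub_cancel]
    · exact trans_PR p b ζ i j x x' y y'
  · rcases j with j | j
    · obtain ⟨g, hg, h1, h2⟩ := trans_PR (F := F) p b ζ j i y y' x x'
      exact ⟨g, hg, h2, h1⟩
    · have hne : i ≠ j := fun h => hij (by rw [h])
      obtain ⟨t, ht1, ht2⟩ := Nat.chineseRemainder (hcop i j hne) (x' - x).val (y' - y).val
      refine ⟨cG p b ζ ^ t, Subgroup.pow_mem _ (cG_mem p b ζ) _, ?_, ?_⟩
      · rw [cG_pow_R]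
        have h1 : ((t : ℕ) : ZMod (sz p b (.inr i))) = x' - x := by
          have := (ZMod.natCast_eq_natCast_iff _ _ (b i)).2 ht1
          rw [← cast_val p b (.inr i : P ⊕ R) (x' - x)]
          exact this
        rw [h1, add_sub_cancel]
      · rw [cG_pow_R]
        have h1 : ((t : ℕ) : ZMod (sz p b (.inr j))) = y' - y := by
          have := (ZMod.natCast_eq_natCast_iff _ _ (b j)).2 ht2
          rw [← cast_val p b (.inr j : P ⊕ R) (y' - y)]
          exact this
        rw [h1, add_sub_cancel]

/-- transitivity on the inner orbits -/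
theorem trans_in (hζ : ∀ x : (ZMod p)ˣ, x ∈ Submonoid.powers ζ) (i : P ⊕ R) (d : Fin (nx b i))
    (x y x' y' : ZMod (sz p b i)) (h : cls p b i (x - y) = some d)
    (h' : cls p b i (x' - y') = some d) :
    ∃ g ∈ Gr p P b F ζ, (g (.inr ⟨i, x⟩) = .inr ⟨i, x'⟩ ∧ g (.inr ⟨i, y⟩) = .inr ⟨i, y'⟩) ∨
      (g (.inr ⟨i, x⟩) = .inr ⟨i, y'⟩ ∧ g (.inr ⟨i, y⟩) = .inr ⟨i, x'⟩) := by
  rcases i with i | j
  · have hd : (show ZMod p from x) - (show ZMod p from y) ≠ 0 := by
      intro h0
      unfold cls at h
      simp only at h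
      rw [if_pos (show (show ZMod p from x - y) = 0 from h0)] at h
      cases h
    have hd' : (show ZMod p from x') - (show ZMod p from y') ≠ 0 := by
      intro h0
      unfold cls at h'
      simp only at h'
      rw [if_pos (show (show ZMod p from x' - y') = 0 from h0)] at h'
      cases h'
    obtain ⟨k, hk⟩ := hζ (Units.mk0 _ hd' / Units.mk0 _ hd)
    have hk' : (ζ : ZMod p) ^ k * ((show ZMod p from x) - (show ZMod p from y)) =
        (show ZMod p from x') - (show ZMod p from y') := by
      have := congrArg (fun x : (ZMod p)ˣ => (x : ZMod p)) hk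
      simp only [Units.val_pow_eq_pow_val, Units.val_div_eq_div_val, Units.val_mk0] at this
      rw [this]
      field_simp
    set t : ZMod (sz p b (.inl i)) := (show ZMod p from
      (show ZMod p from x') - (ζ : ZMod p) ^ k * (show ZMod p from x)) with ht
    refine ⟨aG p b i ^ t.val * cG p b ζ ^ k, Subgroup.mul_mem _
      (Subgroup.pow_mem _ (aG_mem p b ζ i) _) (Subgroup.pow_mem _ (cG_mem p b ζ) _), Or.inl ⟨?_, ?_⟩⟩
    · rw [Equiv.Perm.mul_apply]
      have h1 := cG_pow_P (F := F) p b ζ k i x
      rw [show (Sum.inr ⟨.inl i, x⟩ : Vx p b F P) =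
        .inr ⟨.inl i, (show ZMod (sz p b (.inl i)) from x)⟩ from rfl, h1, aG_pow_same, cast_val]
      congr 2
      show (ζ : ZMod p) ^ k * (show ZMod p from x) + ((show ZMod p from x') -
        (ζ : ZMod p) ^ k * (show ZMod p from x)) = (show ZMod p from x')
      ring
    · rw [Equiv.Perm.mul_apply]
      have h1 := cG_pow_P (F := F) p b ζ k i y
      rw [show (Sum.inr ⟨.inl i, y⟩ : Vx p b F P) =
        .inr ⟨.inl i, (show ZMod (sz p b (.inl i)) from y)⟩ from rfl, h1, aG_pow_same, cast_val]
      congr 2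
      show (ζ : ZMod p) ^ k * (show ZMod p from y) + ((show ZMod p from x') -
        (ζ : ZMod p) ^ k * (show ZMod p from x)) = (show ZMod p from y')
      linear_combination -hk'
  · rcases cl_inj (b := b j) h h' with h1 | h1
    · refine ⟨cG p b ζ ^ (x' - x).val, Subgroup.pow_mem _ (cG_mem p b ζ) _, Or.inl ⟨?_, ?_⟩⟩
      · rw [cG_pow_R, cast_val, add_sub_cancel]
      · rw [cG_pow_R, cast_val]
        have h2 : y + (x' - x) = y' := by
          have h3 : x - y = x' - y' := h1
          have : y + (x' - x) = x' - (x - y) := by abel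
          rw [this, h3]
          abel
        rw [h2]
    · refine ⟨cG p b ζ ^ (y' - x).val, Subgroup.pow_mem _ (cG_mem p b ζ) _, Or.inr ⟨?_, ?_⟩⟩
      · rw [cG_pow_R, cast_val, add_sub_cancel]
      · rw [cG_pow_R, cast_val]
        have h2 : y + (y' - x) = x' := by
          have h3 : x - y = -(x' - y') := h1
          have : y + (y' - x) = y' - (x - y) := by abel
          rw [this, h3]
          abel
        rw [h2]

theorem orb_exists (j : Jx b F P) : ∃ u v : Vx p b F P, orb p b u v = some j := by
  rcases j with (⟨w, i⟩ | ⟨e, he⟩) | (⟨e, he⟩ | ⟨i, d⟩)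
  · exact ⟨.inl w, .inr ⟨i, 0⟩, rfl⟩
  · induction e using Sym2.ind with
    | _ i j =>
    have hij : i ≠ j := by rwa [Sym2.mk_isDiag_iff] at he
    exact ⟨.inr ⟨i, 0⟩, .inr ⟨j, 0⟩, orb_diff p b hij 0 0⟩
  · induction e using Sym2.ind with
    | _ i j =>
    have hij : i ≠ j := by rwa [Sym2.mk_isDiag_iff] at he
    exact ⟨.inl i, .inl j, orb_FF p b hij⟩
  · rcases i with i | j
    · refine ⟨.inr ⟨.inl i, (show ZMod (sz p b (.inl i)) from (1 : ZMod p))⟩, .inr ⟨.inl i, 0⟩, ?_⟩
      rw [orb_same, sub_zero]
      unfold cls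
      simp only
      rw [if_neg (show ¬ (show ZMod p from (1 : ZMod p)) = 0 from one_ne_zero)]
      have : d = (0 : Fin 1) := Subsingleton.elim (α := Fin 1) d 0
      rw [this]
      rfl
    · refine ⟨.inr ⟨.inr j, (show ZMod (sz p b (.inr j)) from ((d.val + 1 : ℕ) : ZMod (b j)))⟩,
        .inr ⟨.inr j, 0⟩, ?_⟩
      rw [orb_same, sub_zero]
      have h1 : cls p b (.inr j : P ⊕ R) (show ZMod (sz p b (.inr j)) from
          ((d.val + 1 : ℕ) : ZMod (b j))) = some d := cl_natCast (b := b j) d
      rw [h1]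
      rfl

theorem orb_trans (hζ : ∀ x : (ZMod p)ˣ, x ∈ Submonoid.powers ζ)
    (hcop : ∀ j j' : R, j ≠ j' → Nat.Coprime (b j) (b j')) (j : Jx b F P)
    (u v u' v' : Vx p b F P) (h : orb p b u v = some j) (h' : orb p b u' v' = some j) :
    ∃ g ∈ Gr p P b F ζ, (g u = u' ∧ g v = v') ∨ (g u = v' ∧ g v = u') := by
  have hFI : ∀ (w w' : F) (i i' : P ⊕ R) (x : ZMod (sz p b i)) (x' : ZMod (sz p b i')),
      (.inl (.inl (w, i)) : Jx b F P) = .inl (.inl (w', i')) →
      ∃ g ∈ Gr p P b F ζ, g (.inl w) = .inl w' ∧ g (.inr ⟨i, x⟩) = .inr ⟨i', x'⟩ := by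
    intro w w' i i' x x' hj
    simp only [Sum.inl.injEq, Prod.mk.injEq] at hj
    obtain ⟨rfl, rfl⟩ := hj
    obtain ⟨g, hg, h1⟩ := trans_one (F := F) p b ζ i x x'
    exact ⟨g, hg, Gr_F p b ζ g hg w, h1⟩
  rcases u with w | ⟨i, x⟩
  · rcases v with w2 | ⟨k, y⟩
    · have hne : w ≠ w2 := by
        rintro rfl
        rw [orb_FF_self] at h
        cases h
      rw [orb_FF p b hne] at h
      rcases u' with w' | ⟨i', x'⟩
      · rcases v' with w2' | ⟨k', y'⟩
        · have hne' : w' ≠ w2' := by
            rintro rfl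
            rw [orb_FF_self] at h'
            cases h'
          rw [orb_FF p b hne'] at h'
          rw [← h'] at h
          simp only [Option.some.injEq, Sum.inr.injEq, Sum.inl.injEq, Subtype.mk.injEq,
            Sym2.eq_iff] at h
          refine ⟨1, Subgroup.one_mem _, ?_⟩
          rcases h with ⟨rfl, rfl⟩ | ⟨rfl, rfl⟩
          · exact Or.inl ⟨rfl, rfl⟩
          · exact Or.inr ⟨rfl, rfl⟩
        · rw [orb_FI, ← h] at h'
          simp at h'
      · rcases v' with w2' | ⟨k', y'⟩
        · rw [orb_IF, ← h] at h'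
          simp at h'
        · by_cases hik : i' = k'
          · subst hik
            rw [orb_same, ← h] at h'
            simp [Option.map_eq_some_iff] at h'
          · rw [orb_diff p b hik, ← h] at h'
            simp at h'
    · rw [orb_FI] at h
      have hj : j = .inl (.inl (w, k)) := by simpa using h.symm
      subst hj
      rcases u' with w' | ⟨i', x'⟩
      · rcases v' with w2' | ⟨k', y'⟩
        · exfalso
          by_cases hne' : w' = w2'
          · subst hne'
            rw [orb_FF_self] at h'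
            cases h'
          · rw [orb_FF p b hne'] at h'
            simp at h'
        · rw [orb_FI] at h'
          obtain ⟨g, hg, h1, h2⟩ := hFI w w' k k' y y' (by simpa using h'.symm)
          exact ⟨g, hg, Or.inl ⟨h1, h2⟩⟩
      · rcases v' with w2' | ⟨k', y'⟩
        · rw [orb_IF] at h'
          obtain ⟨g, hg, h1, h2⟩ := hFI w w2' k i' y x' (by simpa using h'.symm)
          exact ⟨g, hg, Or.inr ⟨h1, h2⟩⟩
        · exfalso
          by_cases hik : i' = k'
          · subst hik
            rw [orb_same] at h'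
            simp [Option.map_eq_some_iff] at h'
          · rw [orb_diff p b hik] at h'
            simp at h'
  · rcases v with w2 | ⟨k, y⟩
    · rw [orb_IF] at h
      have hj : j = .inl (.inl (w2, i)) := by simpa using h.symm
      subst hj
      rcases u' with w' | ⟨i', x'⟩
      · rcases v' with w2' | ⟨k', y'⟩
        · exfalso
          by_cases hne' : w' = w2'
          · subst hne'
            rw [orb_FF_self] at h'
            cases h'
          · rw [orb_FF p b hne'] at h'
            simp at h'
        · rw [orb_FI] at h'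
          obtain ⟨g, hg, h1, h2⟩ := hFI w2 w' i k' x y' (by simpa using h'.symm)
          exact ⟨g, hg, Or.inr ⟨h2, h1⟩⟩
      · rcases v' with w2' | ⟨k', y'⟩
        · rw [orb_IF] at h'
          obtain ⟨g, hg, h1, h2⟩ := hFI w2 w2' i i' x x' (by simpa using h'.symm)
          exact ⟨g, hg, Or.inl ⟨h2, h1⟩⟩
        · exfalso
          by_cases hik : i' = k'
          · subst hik
            rw [orb_same] at h'
            simp [Option.map_eq_some_iff] at h'
          · rw [orb_diff p b hik] at h'
            simp at h'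
    · by_cases hik : i = k
      · subst hik
        rw [orb_same, Option.map_eq_some_iff] at h
        obtain ⟨d, hd, rfl⟩ := h
        rcases u' with w' | ⟨i', x'⟩
        · exfalso
          rcases v' with w2' | ⟨k', y'⟩
          · by_cases hne' : w' = w2'
            · subst hne'
              rw [orb_FF_self] at h'
              cases h'
            · rw [orb_FF p b hne'] at h'
              simp at h'
          · rw [orb_FI] at h'
            simp at h'
        · rcases v' with w2' | ⟨k', y'⟩
          · exfalso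
            rw [orb_IF] at h'
            simp at h'
          · by_cases hik' : i' = k'
            · subst hik'
              rw [orb_same, Option.map_eq_some_iff] at h'
              obtain ⟨d', hd', he⟩ := h'
              simp only [Sum.inr.injEq, Sigma.mk.injEq] at he
              obtain ⟨rfl, he⟩ := he
              have he' : d' = d := eq_of_heq he
              subst he'
              exact trans_in p b ζ hζ i' d' x y x' y' hd hd'
            · exfalso
              rw [orb_diff p b hik'] at h'
              simp at h'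
      · rw [orb_diff p b hik] at h
        rcases u' with w' | ⟨i', x'⟩
        · exfalso
          rcases v' with w2' | ⟨k', y'⟩
          · by_cases hne' : w' = w2'
            · subst hne'
              rw [orb_FF_self] at h'
              cases h'
            · rw [orb_FF p b hne', ← h] at h'
              simp at h'
          · rw [orb_FI, ← h] at h'
            simp at h'
        · rcases v' with w2' | ⟨k', y'⟩
          · exfalso
            rw [orb_IF, ← h] at h'
            simp at h'
          · by_cases hik' : i' = k'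
            · exfalso
              subst hik'
              rw [orb_same, ← h] at h'
              simp [Option.map_eq_some_iff] at h'
            · rw [orb_diff p b hik', ← h] at h'
              simp only [Option.some.injEq, Sum.inr.injEq, Sum.inl.injEq, Subtype.mk.injEq,
                Sym2.eq_iff] at h'
              rcases h' with ⟨rfl, rfl⟩ | ⟨rfl, rfl⟩
              · obtain ⟨g, hg, h1, h2⟩ := trans_two (F := F) p b ζ hcop i' k' hik x x' y y'
                exact ⟨g, hg, Or.inl ⟨h1, h2⟩⟩
              · obtain ⟨g, hg, h1, h2⟩ := trans_two (F := F) p b ζ hcop k' i' hik x y' y x'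
                exact ⟨g, hg, Or.inr ⟨h1, h2⟩⟩

variable [Fintype F] [Fintype P] [Fintype R]

/-- the relation -/
theorem relation {n q : ℕ} {Q : SimpleGraph (Fin n) → Prop} (hQ : GP n q Q)
    (hV : Fintype.card (Vx p b F P) = n)
    (hcop : ∀ j j' : R, j ≠ j' → Nat.Coprime (b j) (b j')) (hq : q < n.choose 2) :
    ∑ χ : Jx b F P → Bool,
      sgn χ * bit (PV Q (Vx p b F P) (GR (orb p b) (orb_symm p b) (orb_self p b) χ)) = 0 := by
  obtain ⟨ζ, hζ⟩ := IsCyclic.exists_monoid_generator (α := (ZMod p)ˣ)
  refine rel_orb hQ hV p (aG p b) (cG p b ζ) (aG_comm p b) (aG_pow_p p b) ?_ (orb p b)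
    (orb_symm p b) (orb_self p b) (orb_ne_none p b) (orb_aG p b) (orb_cG p b ζ) (orb_exists p b) ?_ hq
  · intro i
    rw [cG_conj]
    exact Subgroup.pow_mem _ (Subgroup.subset_closure (Set.mem_range_self i)) _
  · intro j u v u' v' h h'
    exact orb_trans p b ζ hζ hcop j u v u' v' h h'

end

end Pool.Agent.TH669.KP
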