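import Mathlib

set_option autoImplicit false

/-!
# Signed sums over configurations
-/

namespace Pool.Agent.TH669.KP

open Finset

/-- sign of a configuration -/
def sgn {J : Type} [Fintype J] (χ : J → Bool) : ℤ := ∏ j, (if χ j = true then -1 else 1)

/-- indicator -/
noncomputable def bit (p : Prop) : ℤ := by classical exact if p then 1 else 0

theorem bit_pos {p : Prop} (h : p) : bit p = 1 := by
  classical
  unfold bit; exact if_pos h

theorem bit_neg {p : Prop} (h : ¬ p) : bit p = 0 := by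
  classical
  unfold bit; exact if_neg h

theorem bit_congr {p q : Prop} (h : p ↔ q) : bit p = bit q := by
  rw [propext h]

theorem bit_and (p q : Prop) : bit (p ∧ q) = bit p * bit q := by
  by_cases hp : p
  · by_cases hq : q
    · rw [bit_pos ⟨hp, hq⟩, bit_pos hp, bit_pos hq]; norm_num
    · rw [bit_neg (fun h => hq h.2), bit_neg hq]; norm_num
  · rw [bit_neg (fun h => hp h.1), bit_neg hp]; norm_num

theorem bit_not (p : Prop) : bit (¬ p) = 1 - bit p := by
  by_cases hp : p
  · rw [bit_neg (not_not.mpr hp), bit_pos hp]; norm_num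
  · rw [bit_pos hp, bit_neg hp]; norm_num

theorem sgn_update {X : Type} [Fintype X] [DecidableEq X] (χ : X → Bool) (x : X) :
    sgn (Function.update χ x (!χ x)) = - sgn χ := by
  unfold sgn
  rw [← Finset.mul_prod_erase univ _ (Finset.mem_univ x),
    ← Finset.mul_prod_erase univ (fun j => if χ j = true then (-1 : ℤ) else 1) (Finset.mem_univ x)]
  have h1 : ∏ j ∈ univ.erase x, (if Function.update χ x (!χ x) j = true then (-1 : ℤ) else 1) =
      ∏ j ∈ univ.erase x, (if χ j = true then (-1 : ℤ) else 1) := by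
    refine Finset.prod_congr rfl fun j hj => ?_
    rw [Function.update_of_ne (Finset.ne_of_mem_erase hj)]
  rw [h1, Function.update_self]
  cases χ x <;> simp

theorem toggle_zero {X : Type} [Fintype X] [DecidableEq X] (h : (X → Bool) → ℤ) (x : X)
    (hx : ∀ χ, h (Function.update χ x (!χ x)) = h χ) : ∑ χ : X → Bool, sgn χ * h χ = 0 := by
  refine Finset.sum_involution (fun χ _ => Function.update χ x (!χ x)) ?_ ?_ ?_ ?_
  · intro χ _
    rw [sgn_update, hx]
    ring
  · intro χ _ _ hc
    have := congrFun hc x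
    rw [Function.update_self] at this
    cases h' : χ x <;> simp [h'] at this
  · intro χ _
    exact Finset.mem_univ _
  · intro χ _
    ext y
    by_cases hy : y = x
    · subst hy
      simp
    · simp [Function.update_of_ne hy]

theorem sum_sgn {X : Type} [Fintype X] [DecidableEq X] [Nonempty X] :
    ∑ χ : X → Bool, sgn χ = 0 := by
  obtain ⟨x⟩ : Nonempty X := inferInstance
  have := toggle_zero (X := X) (fun _ => 1) x (fun _ => rfl)
  simpa using this

theorem sgn_sum {A B : Type} [Fintype A] [Fintype B] (χ : A ⊕ B → Bool) :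
    sgn χ = sgn (fun a => χ (Sum.inl a)) * sgn (fun b => χ (Sum.inr b)) := by
  unfold sgn
  rw [Fintype.prod_sum_type]

theorem sgn_sigma {I : Type} [Fintype I] {X : I → Type} [∀ i, Fintype (X i)]
    (χ : (Σ i, X i) → Bool) : sgn χ = ∏ i, sgn (fun x => χ ⟨i, x⟩) := by
  unfold sgn
  rw [Fintype.prod_sigma]

/-- splitting a sum over configurations on a disjoint union -/
theorem sum_split {A B : Type} [Fintype A] [Fintype B] [DecidableEq A] [DecidableEq B]
    (f : (A ⊕ B → Bool) → ℤ) :
    ∑ χ : A ⊕ B → Bool, f χ = ∑ κ : A → Bool, ∑ η : B → Bool, f (Sum.elim κ η) := by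
  rw [← Finset.sum_product', Finset.univ_product_univ]
  refine Fintype.sum_equiv (Equiv.sumArrowEquivProdArrow A B Bool) _ _ fun χ => ?_
  congr 1
  ext x
  rcases x with a | b <;> rfl

theorem sum_sigma_fun {I : Type} [Fintype I] [DecidableEq I] {X : I → Type} [∀ i, Fintype (X i)]
    [∀ i, DecidableEq (X i)] (f : ((Σ i, X i) → Bool) → ℤ) :
    ∑ χ : (Σ i, X i) → Bool, f χ = ∑ χ : ∀ i, (X i → Bool), f (fun x => χ x.1 x.2) := by
  refine Fintype.sum_equiv (Equiv.piCurry (fun (i : I) (_ : X i) => Bool)) _ _ fun χ => ?_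
  rfl

theorem sum_prod_fun {I : Type} [Fintype I] [DecidableEq I] {Y : I → Type} [∀ i, Fintype (Y i)]
    (F : ∀ i, Y i → ℤ) : ∑ χ : ∀ i, Y i, ∏ i, F i (χ i) = ∏ i, ∑ y, F i y := by
  classical
  rw [Finset.prod_univ_sum, Fintype.piFinset_univ]

/-- the sum over the inner configurations of a function of the set of whole blocks -/
theorem sum_whole {I : Type} [Fintype I] [DecidableEq I] {X : I → Type} [∀ i, Fintype (X i)]
    [∀ i, DecidableEq (X i)] [∀ i, Nonempty (X i)] (wh : ∀ i, (X i → Bool) → Prop) (ω : I → ℤ)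
    (hω : ∀ i, ∑ χ, sgn χ * bit (wh i χ) = ω i) (g : (I → Prop) → ℤ) :
    ∑ χ : (Σ i, X i) → Bool, sgn χ * g (fun i => wh i (fun x => χ ⟨i, x⟩)) =
      (∏ i, ω i) * ∑ W : Finset I, (-1) ^ (Wᶜ.card) * g (fun i => i ∈ W) := by
  classical
  have h1 : ∀ χ : (Σ i, X i) → Bool, sgn χ * g (fun i => wh i (fun x => χ ⟨i, x⟩)) =
      ∑ W : Finset I, g (fun i => i ∈ W) *
        ∏ i, (sgn (fun x => χ ⟨i, x⟩) * bit (wh i (fun x => χ ⟨i, x⟩) ↔ i ∈ W)) := by
    intro χ
    rw [Finset.sum_eq_single (univ.filter fun i => wh i (fun x => χ ⟨i, x⟩))]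
    · rw [sgn_sigma, Finset.prod_mul_distrib]
      have h2 : ∏ i, bit (wh i (fun x => χ ⟨i, x⟩) ↔
          i ∈ univ.filter fun i => wh i (fun x => χ ⟨i, x⟩)) = 1 := by
        refine Finset.prod_eq_one fun i _ => bit_pos ?_
        simp
      have h3 : (fun i => wh i (fun x => χ ⟨i, x⟩)) =
          fun i => i ∈ univ.filter fun i => wh i (fun x => χ ⟨i, x⟩) := by
        funext i
        simp
      rw [h2, ← h3]
      ring
    · intro W _ hW
      have h2 : ∃ i, ¬ (wh i (fun x => χ ⟨i, x⟩) ↔ i ∈ W) := by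
        by_contra hcon
        push Not at hcon
        apply hW
        ext i
        simp [hcon i]
      obtain ⟨i, hi⟩ := h2
      rw [Finset.prod_eq_zero (Finset.mem_univ i), mul_zero]
      rw [bit_neg hi, mul_zero]
    · intro h
      exact absurd (Finset.mem_univ _) h
  rw [Finset.sum_congr rfl fun χ _ => h1 χ, Finset.sum_comm, Finset.mul_sum]
  refine Finset.sum_congr rfl fun W _ => ?_
  rw [← Finset.mul_sum]
  have h2 : ∑ χ : (Σ i, X i) → Bool,
      ∏ i, (sgn (fun x => χ ⟨i, x⟩) * bit (wh i (fun x => χ ⟨i, x⟩) ↔ i ∈ W)) =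
      ∏ i, ∑ χ : X i → Bool, sgn χ * bit (wh i χ ↔ i ∈ W) := by
    rw [sum_sigma_fun, ← sum_prod_fun (fun i (χ : X i → Bool) => sgn χ * bit (wh i χ ↔ i ∈ W))]
  have h3 : ∀ i, ∑ χ : X i → Bool, sgn χ * bit (wh i χ ↔ i ∈ W) =
      ω i * (if i ∈ Wᶜ then -1 else 1) := by
    intro i
    by_cases hi : i ∈ W
    · rw [if_neg (by simp [hi]), mul_one, ← hω i]
      refine Finset.sum_congr rfl fun χ _ => ?_
      congr 1
      exact bit_congr (by simp [hi])
    · rw [if_pos (by simp [hi]), ← hω i]
      have h4 : ∀ χ : X i → Bool, sgn χ * bit (wh i χ ↔ i ∈ W) =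
          sgn χ - sgn χ * bit (wh i χ) := by
        intro χ
        have : bit (wh i χ ↔ i ∈ W) = 1 - bit (wh i χ) := by
          rw [← bit_not]
          exact bit_congr (by simp [hi])
        rw [this]
        ring
      rw [Finset.sum_congr rfl fun χ _ => h4 χ, Finset.sum_sub_distrib, sum_sgn]
      ring
  rw [h2, Finset.prod_congr rfl fun i _ => h3 i, Finset.prod_mul_distrib, Finset.prod_ite_mem,
    Finset.univ_inter, Finset.prod_const]
  ring

end Pool.Agent.TH669.KP
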