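import Pool.Agent.H119R2.Kp.Rel
import Pool.Agent.TH669.KP.Sign

set_option autoImplicit false

/-!
# The relation for a group, in terms of an orbit function on the pairs of vertices
-/

namespace Pool.Agent.TH669.KP

open Finset
open Pool.Agent.H119R2.Kp (GP PV)

/-- the graph of a configuration: `u` and `v` are adjacent if the orbit of the pair is chosen -/
def GR {V J : Type} (orb : V → V → Option J) (hs : ∀ u v, orb u v = orb v u)
    (hd : ∀ u, orb u u = none) (χ : J → Bool) : SimpleGraph V where
  Adj u v := ∃ j, orb u v = some j ∧ χ j = true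
  symm := ⟨fun u v h => by rw [hs v u]; exact h⟩
  loopless := ⟨fun u h => by
    obtain ⟨j, hj, _⟩ := h
    rw [hd] at hj
    cases hj⟩

theorem GR_adj {V J : Type} (orb : V → V → Option J) (hs : ∀ u v, orb u v = orb v u)
    (hd : ∀ u, orb u u = none) (χ : J → Bool) (u v : V) :
    (GR orb hs hd χ).Adj u v ↔ ∃ j, orb u v = some j ∧ χ j = true := Iff.rfl

theorem rel_orb {n q : ℕ} {P : SimpleGraph (Fin n) → Prop} (hP : GP n q P) {V : Type} [Fintype V]
    [DecidableEq V] (hV : Fintype.card V = n) (p : ℕ) [Fact p.Prime] {ι : Type} [Fintype ι]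
    (a : ι → Equiv.Perm V) (c : Equiv.Perm V)
    (hcomm : ∀ i j, a i * a j = a j * a i) (hap : ∀ i, a i ^ p = 1)
    (hca : ∀ i, c⁻¹ * a i * c ∈ Subgroup.closure (Set.range a))
    {J : Type} [Fintype J] [DecidableEq J] (orb : V → V → Option J)
    (hs : ∀ u v, orb u v = orb v u) (hd : ∀ u, orb u u = none)
    (hd' : ∀ u v, u ≠ v → orb u v ≠ none)
    (hoa : ∀ i u v, orb (a i u) (a i v) = orb u v) (hoc : ∀ u v, orb (c u) (c v) = orb u v)
    (hne : ∀ j, ∃ u v, orb u v = some j)
    (htr : ∀ j u v u' v', orb u v = some j → orb u' v' = some j →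
      ∃ g ∈ Subgroup.closure (insert c (Set.range a)), (g u = u' ∧ g v = v') ∨ (g u = v' ∧ g v = u'))
    (hq : q < n.choose 2) :
    ∑ χ : J → Bool, sgn χ * bit (PV P V (GR orb hs hd χ)) = 0 := by
  classical
  set m := Fintype.card J with hm
  let e : J ≃ Fin m := Fintype.equivFin J
  let R : Fin m → SimpleGraph V := fun x => GR orb hs hd (fun j => decide (e j = x))
  have hRadj : ∀ x u v, (R x).Adj u v ↔ ∃ j, orb u v = some j ∧ e j = x := by
    intro x u v
    simp only [R, GR_adj, decide_eq_true_eq]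
  have hr := Pool.Agent.H119R2.Kp.rel hP hV p a c hcomm hap hca (m := m) ⊥ R
    (fun _ _ _ hh => hh.elim) (fun _ _ hh => hh.elim)
    (fun x i u v h => by
      rw [hRadj] at h ⊢
      rw [hoa]
      exact h)
    (fun x u v h => by
      rw [hRadj] at h ⊢
      rw [hoc]
      exact h)
    (fun x y hxy => by
      rw [disjoint_iff]
      ext u v
      rw [SimpleGraph.inf_adj, hRadj, hRadj]
      constructor
      · rintro ⟨⟨j, h1, h2⟩, ⟨j', h1', h2'⟩⟩
        rw [h1] at h1'
        have : j = j' := by simpa using h1'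
        exact (hxy (by rw [← h2, ← h2', this])).elim
      · intro h
        exact h.elim)
    (fun x => disjoint_bot_left)
    (fun x => by
      obtain ⟨u, v, huv⟩ := hne (e.symm x)
      exact ⟨u, v, (hRadj x u v).2 ⟨_, huv, by simp⟩⟩)
    (fun x u v u' v' h h' => by
      rw [hRadj] at h h'
      obtain ⟨j, h1, h2⟩ := h
      obtain ⟨j', h1', h2'⟩ := h'
      have : j' = j := e.injective (by rw [h2, h2'])
      subst this
      exact htr _ u v u' v' h1 h1')
    (by
      refine lt_of_lt_of_le hq ?_
      have h1 : n.choose 2 = (Pool.Agent.H119R2.Kp.RelAux.ED (⊤ : SimpleGraph V)).card := by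
        rw [Pool.Agent.H119R2.Kp.RelAux.card_ED, Nat.card_eq_fintype_card,
          ← SimpleGraph.edgeFinset_card, SimpleGraph.card_edgeFinset_top_eq_card_choose_two, hV]
      have h2 : Pool.Agent.H119R2.Kp.RelAux.ED (⊤ : SimpleGraph V) ⊆
          univ.biUnion fun x => Pool.Agent.H119R2.Kp.RelAux.ED (R x) := by
        rintro ⟨e', he'⟩ _
        rw [Finset.mem_biUnion]
        induction e' using Sym2.ind with
        | _ u v =>
        have huv : u ≠ v := by
          rintro rfl
          exact he' (by simp)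
        obtain ⟨j, hj⟩ := Option.ne_none_iff_exists'.1 (hd' u v huv)
        refine ⟨e j, Finset.mem_univ _, ?_⟩
        rw [Pool.Agent.H119R2.Kp.RelAux.mem_ED]
        exact (hRadj (e j) u v).2 ⟨j, hj, rfl⟩
      rw [h1]
      refine (Finset.card_le_card h2).trans (Finset.card_biUnion_le.trans ?_)
      refine Finset.sum_le_sum fun x _ => ?_
      rw [Pool.Agent.H119R2.Kp.RelAux.card_ED])
  rw [← hr]
  let E : (J → Bool) ≃ Finset (Fin m) :=
    { toFun := fun χ => univ.filter fun x => χ (e.symm x) = true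
      invFun := fun I j => decide (e j ∈ I)
      left_inv := by
        intro χ
        funext j
        simp
      right_inv := by
        intro I
        ext x
        simp }
  refine Fintype.sum_equiv E _ _ fun χ => ?_
  have h1 : sgn χ = (-1 : ℤ) ^ (E χ).card := by
    have h2 : sgn χ = ∏ x : Fin m, (if χ (e.symm x) = true then (-1 : ℤ) else 1) :=
      Fintype.prod_equiv e _ _ fun j => by simp
    rw [h2, Finset.prod_ite, Finset.prod_const, Finset.prod_const_one, mul_one]
    rfl
  have h2 : GR orb hs hd χ = ⊥ ⊔ ⨆ x ∈ E χ, R x := by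
    ext u v
    rw [GR_adj, SimpleGraph.sup_adj]
    simp only [SimpleGraph.iSup_adj, SimpleGraph.bot_adj, false_or]
    constructor
    · rintro ⟨j, hj, hχ⟩
      refine ⟨e j, ?_, (hRadj (e j) u v).2 ⟨j, hj, rfl⟩⟩
      simp [E, hχ]
    · rintro ⟨x, hx, hR⟩
      obtain ⟨j, hj, rfl⟩ := (hRadj x u v).1 hR
      refine ⟨j, hj, ?_⟩
      simpa [E] using hx
  rw [h1, h2]
  congr 1

end Pool.Agent.TH669.KP
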